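import Mathlib

/-!
# Bases adapted to two norms
-/

set_option autoImplicit false
set_option linter.unusedSectionVars false

namespace Pool.Agent.H96.Y

/-- A norm on a vector space with the trivial norm on the scalars. -/
structure Ult (k : Type) {X Γ : Type} [Field k] [AddCommGroup X] [Module k X] [LinearOrder Γ]
    (N : X → Γ) : Prop where
  sub : ∀ x y, N (x - y) ≤ max (N x) (N y)
  smul : ∀ (c : k) x, N (c • x) ≤ N x

section

variable {k Γ : Type} [Field k] [LinearOrder Γ]

/-- The restriction to a subspace. -/
theorem Ult.res {X : Type} [AddCommGroup X] [Module k X] {N : X → Γ} (h : Ult k N)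
    (U : Submodule k X) : Ult k (fun u : U => N (u : X)) where
  sub := fun x y => h.sub _ _
  smul := fun c x => h.smul _ _

theorem Ult.zero_le {X : Type} [AddCommGroup X] [Module k X] {N : X → Γ} (h : Ult k N)
    (x : X) : N 0 ≤ N x := by
  have := h.smul 0 x
  rwa [zero_smul] at this

theorem Ult.neg {X : Type} [AddCommGroup X] [Module k X] {N : X → Γ} (h : Ult k N)
    (x : X) : N (-x) ≤ N x := by
  have := h.smul (-1) x
  rwa [neg_one_smul] at this

theorem Ult.add {X : Type} [AddCommGroup X] [Module k X] {N : X → Γ} (h : Ult k N)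
    (x y : X) : N (x + y) ≤ max (N x) (N y) := by
  have h1 := h.sub x (-y)
  rw [sub_neg_eq_add] at h1
  exact h1.trans (max_le_max le_rfl (h.neg y))

/-- The vectors of smaller norm. -/
def Ult.lt {X : Type} [AddCommGroup X] [Module k X] {N : X → Γ} (h : Ult k N) (γ : Γ) :
    Submodule k X where
  carrier := {x | x = 0 ∨ N x < γ}
  zero_mem' := Or.inl rfl
  add_mem' := by
    rintro x y (rfl | hx) (rfl | hy)
    · exact Or.inl (add_zero 0)
    · right; rwa [zero_add]
    · right; rwa [add_zero]
    · exact Or.inr ((h.add x y).trans_lt (max_lt hx hy))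
  smul_mem' := by
    rintro c x (rfl | hx)
    · exact Or.inl (smul_zero c)
    · exact Or.inr ((h.smul c x).trans_lt hx)

/-- **Bases adapted to two norms.** -/
theorem exists_adapted (n : ℕ) : ∀ (X : Type) [AddCommGroup X] [Module k X] [Finite X]
    (_ : Module.finrank k X = n) (N S : X → Γ), Ult k N → Ult k S →
    ∃ (ι : Type) (_ : Fintype ι) (b : Module.Basis ι k X),
      ∀ x i, b.repr x i ≠ 0 → N (b i) ≤ N x ∧ S (b i) ≤ S x := by
  classical
  induction n with
  | zero =>
    intro X _ _ _ hX N S hN hS
    have h1 : Subsingleton X := Module.finrank_zero_iff.mp hX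
    refine ⟨Fin 0, inferInstance, Module.Basis.empty X, fun x i => i.elim0⟩
  | succ n ih =>
    intro X _ _ _ hX N S hN hS
    have hfd : Module.Finite k X := Module.finite_of_finrank_pos (by omega)
    have hnt : Nontrivial X := Module.nontrivial_of_finrank_pos (R := k) (by omega)
    let _ := Fintype.ofFinite X
    obtain ⟨x₁, hx₁⟩ := exists_ne (0 : X)
    obtain ⟨x₀, hx₀, hmin⟩ := Finset.exists_min_image (Finset.univ.filter fun x : X => x ≠ 0) N
      ⟨x₁, Finset.mem_filter.mpr ⟨Finset.mem_univ _, hx₁⟩⟩
    have hx₀ : x₀ ≠ 0 := (Finset.mem_filter.mp hx₀).2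
    have hmin : ∀ x : X, x ≠ 0 → N x₀ ≤ N x := fun x hx =>
      hmin x (Finset.mem_filter.mpr ⟨Finset.mem_univ _, hx⟩)
    have hU : x₀ ∉ hS.lt (S x₀) := by
      rintro (h | h)
      · exact hx₀ h
      · exact lt_irrefl _ h
    obtain ⟨φ₁, hφ₁, hφU⟩ := Submodule.exists_dual_map_eq_bot_of_notMem hU inferInstance
    set φ : X →ₗ[k] k := (φ₁ x₀)⁻¹ • φ₁ with hφ
    have hφ0 : φ x₀ = 1 := by
      show (φ₁ x₀)⁻¹ • φ₁ x₀ = 1
      rw [smul_eq_mul, inv_mul_cancel₀ hφ₁]
    have hφlt : ∀ x, S x < S x₀ → φ x = 0 := by
      intro x hx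
      have h1 : φ₁ x ∈ (hS.lt (S x₀)).map φ₁ := Submodule.mem_map_of_mem (Or.inr hx)
      rw [hφU, Submodule.mem_bot] at h1
      show (φ₁ x₀)⁻¹ • φ₁ x = 0
      rw [h1, smul_zero]
    set U := LinearMap.ker φ with hUd
    have hfr : Module.finrank k U = n := by
      have h1 := LinearMap.finrank_range_add_finrank_ker φ
      have h2 : LinearMap.range φ = ⊤ := by
        rw [LinearMap.range_eq_top]
        intro c
        exact ⟨c • x₀, by rw [map_smul, hφ0, smul_eq_mul, mul_one]⟩
      rw [h2, finrank_top, Module.finrank_self, hX] at h1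
      rw [hUd]
      omega
    obtain ⟨ι, i1, b', hb'⟩ := ih U hfr (fun u => N (u : X)) (fun u => S (u : X)) (hN.res U)
      (hS.res U)
    have hspan : Submodule.span k (Set.range fun i => (b' i : X)) = U := by
      have h1 : (Set.range fun i => (b' i : X)) = U.subtype '' Set.range b' := by
        rw [← Set.range_comp]
        rfl
      rw [h1, Submodule.span_image, b'.span_eq, Submodule.map_top, Submodule.range_subtype]
    have hx₀U : x₀ ∉ Submodule.span k (Set.range fun i => (b' i : X)) := by
      rw [hspan, hUd, LinearMap.mem_ker, hφ0]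
      exact one_ne_zero
    have hli : LinearIndependent k (fun i => (b' i : X)) :=
      b'.linearIndependent.map' U.subtype (Submodule.ker_subtype U)
    have hli2 := hli.option hx₀U
    have hsp : ⊤ ≤ Submodule.span k (Set.range fun o => Option.casesOn' o x₀ fun i => (b' i : X)) := by
      intro x _
      have h1 : x = φ x • x₀ + (x - φ x • x₀) := by abel
      rw [h1]
      refine Submodule.add_mem _ (Submodule.smul_mem _ _ (Submodule.subset_span ⟨none, rfl⟩)) ?_
      have h2 : x - φ x • x₀ ∈ Submodule.span k (Set.range fun i => (b' i : X)) := by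
        rw [hspan, hUd, LinearMap.mem_ker, map_sub, map_smul, hφ0, smul_eq_mul, mul_one, sub_self]
      refine Submodule.span_mono ?_ h2
      rintro _ ⟨i, rfl⟩
      exact ⟨some i, rfl⟩
    set b := Module.Basis.mk hli2 hsp with hb
    have hb0 : b none = x₀ := by rw [hb, Module.Basis.mk_apply]; rfl
    have hbi : ∀ i, b (some i) = b' i := fun i => by rw [hb, Module.Basis.mk_apply]; rfl
    refine ⟨Option ι, inferInstance, b, ?_⟩
    intro x
    set c := b.repr x none with hc
    set y : U := ∑ i, b.repr x (some i) • b' i with hy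
    have hxy : x = c • x₀ + (y : X) := by
      conv_lhs => rw [← b.sum_repr x]
      rw [Fintype.sum_option, hb0, hy]
      congr 1
      rw [AddSubmonoidClass.coe_finset_sum]
      exact Finset.sum_congr rfl fun i _ => by rw [hbi]; rfl
    have hry : ∀ i, b'.repr y i = b.repr x (some i) := by
      intro i
      rw [hy, b'.repr_sum_self]
    have key : c ≠ 0 → N x₀ ≤ N x ∧ S x₀ ≤ S x := by
      intro hc0
      have hφx : φ x = c := by
        have h1 : φ (y : X) = 0 := y.2
        rw [hxy, map_add, map_smul, hφ0, h1, smul_eq_mul, mul_one, add_zero]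
      refine ⟨hmin x ?_, ?_⟩
      · rintro rfl
        rw [map_zero] at hφx
        exact hc0 hφx.symm
      · by_contra hcon
        exact hc0 (hφx.symm.trans (hφlt x (not_le.mp hcon)))
    have hyx : N (y : X) ≤ N x ∧ S (y : X) ≤ S x := by
      by_cases hc0 : c = 0
      · rw [hc0, zero_smul, zero_add] at hxy
        rw [hxy]
        exact ⟨le_rfl, le_rfl⟩
      · have h1 : (y : X) = x - c • x₀ := by
          conv_rhs => rw [hxy]
          abel
        rw [h1]
        exact ⟨(hN.sub _ _).trans (max_le le_rfl ((hN.smul _ _).trans (key hc0).1)),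
          (hS.sub _ _).trans (max_le le_rfl ((hS.smul _ _).trans (key hc0).2))⟩
    rintro (_ | i) hi
    · rw [hb0]
      exact key hi
    · rw [hbi]
      rw [← hry] at hi
      obtain ⟨h1, h2⟩ := hb' y i hi
      exact ⟨h1.trans hyx.1, h2.trans hyx.2⟩

/-- Independence over an extension. -/
theorem indep_ext {k κ : Type} [Field k] [Field κ] [Algebra k κ] {C I : Type} [Fintype C]
    [Fintype I] (m : C → I → k) (h : ∀ a : C → k, (∀ i, ∑ c, a c * m c i = 0) → ∀ c, a c = 0)
    (a : C → κ) (ha : ∀ i, ∑ c, a c * algebraMap k κ (m c i) = 0) : ∀ c, a c = 0 := by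
  classical
  let f : (C → k) →ₗ[k] (I → k) :=
    { toFun := fun a i => ∑ c, a c * m c i
      map_add' := fun a b => by
        funext i
        simp only [Pi.add_apply, add_mul, Finset.sum_add_distrib]
      map_smul' := fun c a => by
        funext i
        simp only [Pi.smul_apply, smul_eq_mul, mul_assoc, Finset.mul_sum, RingHom.id_apply] }
  have hf : LinearMap.ker f = ⊥ := by
    rw [LinearMap.ker_eq_bot']
    intro a ha
    funext c
    exact h a (fun i => congrFun ha i) c
  obtain ⟨g, hg⟩ := f.exists_leftInverse_of_injective hf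
  have h1 : ∀ c c', ∑ i, g (Pi.single i 1) c' * m c i = if c = c' then 1 else 0 := by
    intro c c'
    have h2 : g (f (Pi.single c 1)) = Pi.single c 1 := by
      have := LinearMap.congr_fun hg (Pi.single c 1)
      exact this
    have h3 : f (Pi.single c 1) = ∑ i, m c i • (Pi.single i 1 : I → k) := by
      funext i
      rw [Finset.sum_apply]
      show ∑ c', (Pi.single c 1 : C → k) c' * m c' i = _
      rw [Finset.sum_eq_single c, Finset.sum_eq_single i]
      · rw [Pi.smul_apply, Pi.single_eq_same, Pi.single_eq_same, one_mul, smul_eq_mul, mul_one]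
      · intro i' _ hi'
        rw [Pi.smul_apply, Pi.single_eq_of_ne (Ne.symm hi'), smul_zero]
      · intro h; exact absurd (Finset.mem_univ _) h
      · intro c' _ hc'
        rw [Pi.single_eq_of_ne hc', zero_mul]
      · intro h; exact absurd (Finset.mem_univ _) h
    rw [h3, map_sum] at h2
    have h4 := congrFun h2 c'
    rw [Finset.sum_apply] at h4
    simp only [map_smul, Pi.smul_apply, smul_eq_mul, Pi.single_apply] at h4
    rw [Finset.sum_congr rfl fun i _ => mul_comm _ _, h4]
    simp only [eq_comm]
  intro c'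
  have h2 : ∑ i, algebraMap k κ (g (Pi.single i 1) c') * ∑ c, a c * algebraMap k κ (m c i) = a c' := by
    simp only [Finset.mul_sum]
    rw [Finset.sum_comm]
    have h3 : ∀ c, ∑ i, algebraMap k κ (g (Pi.single i 1) c') * (a c * algebraMap k κ (m c i)) =
        a c * if c = c' then 1 else 0 := by
      intro c
      have h4 := congrArg (algebraMap k κ) (h1 c c')
      rw [map_sum] at h4
      have h5 : algebraMap k κ (if c = c' then 1 else 0) = if c = c' then 1 else 0 := by
        split_ifs
        · exact map_one _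
        · exact map_zero _
      rw [← h5, ← h4, Finset.mul_sum]
      refine Finset.sum_congr rfl fun i _ => ?_
      rw [map_mul]; ring
    rw [Finset.sum_congr rfl fun c _ => h3 c]
    simp
  rw [← h2]
  exact Finset.sum_eq_zero fun i _ => by rw [ha, mul_zero]

end

end Pool.Agent.H96.Y
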