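import Pool.Agent.H96.Y.GC
import Pool.Agent.H96.X.Fin

/-!
# Covers of products of curves and surfaces: several elements
-/

set_option autoImplicit false
set_option linter.unusedSectionVars false

namespace Pool.Agent.H96.Y

open Pool.Agent.H19.OG Pool.Agent.H96.VL
open Pool.Agent.H96.S (FD cond_t cond_f trdeg_zmod' exists_gen)
open Pool.Agent.H96.X (Fac exists_fd)

/-- **Models of covers of products of curves and surfaces.** -/
theorem hasCharts_aux (p : ℕ) [Fact p.Prime] (k : Type) [Field k] [Finite k] [CharP k p]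
    (K E : Type) [Field K] [Algebra k K] [Field E] [Algebra k E] (n m r : ℕ) (b : Bool)
    (F : Fin n → IntermediateField k E) [∀ i, Algebra (F i) K] [∀ i, IsScalarTower k (F i) K]
    (f : ∀ i, F i) (hF : ∀ i, Fac p (F i))
    (htr : Algebra.trdeg k K = ∑ i, Algebra.trdeg k (F i))
    (h : ∀ i, Fin r → F i) (z : Fin m → K) (lam : Fin m → Fin n → ZMod p) (w : Fin r → K)
    (N : Fin r → ℕ)
    (hb : b = false → ∀ c : Vz p m, ∃ i, lamc lam c i ≠ 0 ∧ ∀ q : F i, f i ≠ q ^ p)
    (hz : ∀ j, z j ^ p - cond b (z j) 0 =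
      ∑ i, ((lam j i).val : K) * algebraMap (F i) K (f i))
    (hh : ∀ i c, h i c ≠ 0) (hN : ∀ c, ¬ p ∣ N c)
    (hw : ∀ c, w c ^ N c = ∏ i, algebraMap (F i) K (h i c))
    (hgen : ∀ R : Subring K, (∀ x ∈ R, x ≠ 0 → x⁻¹ ∈ R) →
      (∀ i (x : F i), algebraMap (F i) K x ∈ R) → (∀ j, z j ∈ R) → (∀ c, w c ∈ R) → R = ⊤) :
    HasCharts K := by
  classical
  let _ : Algebra (ZMod p) k := ZMod.algebra k p
  have hcF : ∀ i, CharP (F i) p := fun i =>
    charP_of_injective_algebraMap (algebraMap k (F i)).injective p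
  have hcK : CharP K p := charP_of_injective_algebraMap (algebraMap k K).injective p
  let i0 : ∀ i, Algebra (ZMod p) (F i) := fun i => ZMod.algebra (F i) p
  have hst : ∀ i, IsScalarTower (ZMod p) k (F i) := fun i =>
    IsScalarTower.of_algebraMap_eq' (Subsingleton.elim _ _)
  choose A i1 i2 J i3 d on hd hon M₀ hM₀ using fun i =>
    exists_fd (F i) b (f i) (h i) (hh i) (hF i)
  let _ : Algebra (ZMod p) K := ZMod.algebra K p
  have hstK : ∀ i, @IsScalarTower (ZMod p) (F i) K (i0 i).toSMul _ _ := fun i =>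
    IsScalarTower.of_algebraMap_eq' (Subsingleton.elim _ _)
  have hstk : IsScalarTower (ZMod p) k K :=
    IsScalarTower.of_algebraMap_eq' (Subsingleton.elim _ _)
  set M := Finset.univ.sup M₀ with hM
  have hfd : ∀ i, Nonempty (FD p b (on i) (F i) (A i) (J i) (d i) r M (f i) (h i)) := fun i =>
    hM₀ i M (Finset.le_sup (Finset.mem_univ i))
  have hw0 : ∀ c, w c ≠ 0 := by
    intro c hc
    have h1 := hw c
    have h2 : ∏ i, algebraMap (F i) K (h i c) ≠ 0 := Finset.prod_ne_zero_iff.mpr fun i _ =>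
      (map_ne_zero _).mpr (hh i c)
    have h3 : N c ≠ 0 := fun h4 => hN c (by rw [h4]; exact dvd_zero p)
    rw [hc, zero_pow h3] at h1
    exact h2 h1.symm
  let G : GD p b K (Fin n) (fun i => F i) A J d on m r M :=
    { f := f
      h := h
      fd := fun i => (hfd i).some
      z := z
      lam := lam
      AS := by
        intro j
        rw [hz]
        refine Finset.sum_congr rfl fun i _ => ?_
        congr 1
        rw [← map_natCast (algebraMap (ZMod p) K), ZMod.natCast_zmod_val]
      w := w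
      w0 := hw0
      Nw := N
      Nw0 := hN
      KM := hw
      hex := by
        intro c
        rcases Bool.eq_false_or_eq_true b with hb' | hb'
        · exact ⟨none, hb'⟩
        · obtain ⟨i, hl, hi⟩ := hb hb' c
          refine ⟨some i, cand_some.mpr ⟨?_, hl⟩⟩
          rcases Bool.eq_false_or_eq_true (on i) with h1 | h1
          · rw [h1, Bool.or_true]
          · obtain ⟨q, hq⟩ := hon i h1 hb'
            exact absurd hq (hi q)
      gen := hgen }
  refine G.hasCharts ?_
  rw [trdeg_zmod' p k K, htr]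
  push_cast
  rw [Finset.sum_congr rfl fun i _ => hd i]

/-- The constants are generated by one more root. -/
theorem hasCharts_aux' (p : ℕ) [Fact p.Prime] (k : Type) [Field k] [Finite k] [CharP k p]
    (K E : Type) [Field K] [Algebra k K] [Field E] [Algebra k E] (n m r : ℕ) (b : Bool)
    (F : Fin n → IntermediateField k E) [∀ i, Algebra (F i) K] [∀ i, IsScalarTower k (F i) K]
    (f : ∀ i, F i) (hF : ∀ i, Fac p (F i))
    (htr : Algebra.trdeg k K = ∑ i, Algebra.trdeg k (F i))
    (h : ∀ i, Fin r → F i) (z : Fin m → K) (lam : Fin m → Fin n → ZMod p) (w : Fin r → K)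
    (N : Fin r → ℕ)
    (hb : b = false → ∀ c : Vz p m, ∃ i, lamc lam c i ≠ 0 ∧ ∀ q : F i, f i ≠ q ^ p)
    (hz : ∀ j, z j ^ p - cond b (z j) 0 =
      ∑ i, ((lam j i).val : K) * algebraMap (F i) K (f i))
    (hh : ∀ i c, h i c ≠ 0) (hN : ∀ c, ¬ p ∣ N c)
    (hw : ∀ c, w c ^ N c = ∏ i, algebraMap (F i) K (h i c))
    (hgen : ∀ R : Subring K, (∀ x ∈ R, x ≠ 0 → x⁻¹ ∈ R) → (∀ a : k, algebraMap k K a ∈ R) →
      (∀ i (x : F i), algebraMap (F i) K x ∈ R) → (∀ j, z j ∈ R) → (∀ c, w c ∈ R) → R = ⊤) :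
    HasCharts K := by
  obtain ⟨g, e, hg, he, hga⟩ := exists_gen p k
  refine hasCharts_aux p k K E n m (r + 1) b F f hF htr (fun i => Fin.cons 1 (h i)) z lam
    (Fin.cons (algebraMap k K g) w) (Fin.cons e N) hb hz ?_ ?_ ?_ ?_
  · intro i c
    refine Fin.cases ?_ (fun c => ?_) c
    · exact one_ne_zero
    · exact hh i c
  · intro c
    refine Fin.cases ?_ (fun c => ?_) c
    · exact he
    · exact hN c
  · intro c
    refine Fin.cases ?_ (fun c => ?_) c
    · show algebraMap k K g ^ e = ∏ i, algebraMap (F i) K (1 : F i)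
      rw [← map_pow, hg, map_one]
      exact (Finset.prod_eq_one fun i _ => map_one _).symm
    · exact hw c
  · intro R hinv hF hz hw
    refine hgen R hinv (fun a => ?_) hF hz fun c => hw c.succ
    by_cases ha : a = 0
    · rw [ha, map_zero]; exact R.zero_mem
    · obtain ⟨e, rfl⟩ := hga a ha
      rw [map_pow]
      exact R.pow_mem (hw 0) _

end Pool.Agent.H96.Y
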