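import Pool.Agent.H96.Y.LReg
import Pool.Agent.H96.S.GA

/-!
# The global data: several elements
-/

set_option autoImplicit false
set_option linter.unusedSectionVars false

namespace Pool.Agent.H96.Y

open MvPolynomial IsLocalRing Pool.Agent.H96.Reg Pool.Agent.H96.VL Pool.Agent.H96.W
open Pool.Agent.H96.S (Va Ndg cond_t cond_f or_t of_or FL FD gen_map mon_map aeval_am)

/-- The nonzero vectors. -/
abbrev Vz (p m : ℕ) : Type := {c : Fin m → ZMod p // c ≠ 0}

/-- The coefficients of the vectors. -/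
def lamc {p m : ℕ} {I : Type} (lam : Fin m → I → ZMod p) (c : Vz p m) (i : I) : ZMod p :=
  ∑ j, c.1 j * lam j i

/-- The global data. -/
structure GD (p : ℕ) (b : Bool) (K : Type) [Field K] [Algebra (ZMod p) K]
    (I : Type) [Fintype I] [DecidableEq I] (F : I → Type) [∀ i, Field (F i)]
    [∀ i, Algebra (ZMod p) (F i)] [∀ i, Algebra (F i) K] (A J : I → Type)
    [∀ i, Fintype (A i)] [∀ i, DecidableEq (A i)] (d : I → ℕ) (on : I → Bool) (m r M : ℕ) where
  f : ∀ i, F i
  h : ∀ i, Fin r → F i
  fd : ∀ i, FD p b (on i) (F i) (A i) (J i) (d i) r M (f i) (h i)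
  z : Fin m → K
  lam : Fin m → I → ZMod p
  AS : ∀ j, z j ^ p - cond b (z j) 0 = ∑ i, algebraMap (ZMod p) K (lam j i) *
    algebraMap (F i) K (f i)
  w : Fin r → K
  w0 : ∀ c, w c ≠ 0
  Nw : Fin r → ℕ
  Nw0 : ∀ c, ¬ p ∣ Nw c
  KM : ∀ c, w c ^ Nw c = ∏ i, algebraMap (F i) K (h i c)
  hex : ∀ c : Vz p m, ∃ j, cand b on (lamc lam c) j = true
  gen : ∀ R : Subring K, (∀ x ∈ R, x ≠ 0 → x⁻¹ ∈ R) →
    (∀ i (w : F i), algebraMap (F i) K w ∈ R) → (∀ j, z j ∈ R) → (∀ c, w c ∈ R) → R = ⊤

variable {p : ℕ} [Fact p.Prime] {b : Bool} {K : Type} [Field K] [Algebra (ZMod p) K]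
  {I : Type} [Fintype I] [DecidableEq I] {F : I → Type} [∀ i, Field (F i)]
  [∀ i, Algebra (ZMod p) (F i)] [∀ i, Algebra (F i) K]
  [∀ i, IsScalarTower (ZMod p) (F i) K] {A J : I → Type} [∀ i, Fintype (A i)]
  [∀ i, DecidableEq (A i)] {d : I → ℕ} {on : I → Bool} {m r M : ℕ}

/-- The local data of the factors at a valuation. -/
abbrev GD.Fls (G : GD p b K I F A J d on m r M) (V : ValuationSubring K) : Type :=
  ∀ i, FL p b (on i) (d i) r M (G.f i) (G.h i) (G.fd i).c (G.fd i).q (G.fd i).T (G.fd i).S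
    (WV V (F i))

/-- The combinations. -/
noncomputable def GD.zc (G : GD p b K I F A J d on m r M) (c : Fin m → ZMod p) : K :=
  ∑ j, algebraMap (ZMod p) K (c j) * G.z j

/-- The twisted elements. -/
noncomputable def GD.zs (G : GD p b K I F A J d on m r M) (σ : ∀ i, J i) (c : Vz p m) : K :=
  G.zc c.1 - ∑ i, algebraMap (ZMod p) K (lamc G.lam c i) * algebraMap (F i) K ((G.fd i).q (σ i))

/-- The twisted generators. -/
noncomputable def GD.z' (G : GD p b K I F A J d on m r M) (σ : ∀ i, J i) (j : Fin m) : K :=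
  G.z j - ∑ i, algebraMap (ZMod p) K (G.lam j i) * algebraMap (F i) K ((G.fd i).q (σ i))

theorem map_lamc (lam : Fin m → I → ZMod p) (c : Vz p m) (i : I) :
    algebraMap (ZMod p) K (lamc lam c i) =
      ∑ j, algebraMap (ZMod p) K (c.1 j) * algebraMap (ZMod p) K (lam j i) := by
  rw [lamc, map_sum]
  exact Finset.sum_congr rfl fun j _ => map_mul _ _ _

theorem GD.zs_eq (G : GD p b K I F A J d on m r M) (σ : ∀ i, J i) (c : Vz p m) :
    G.zs σ c = ∑ j, algebraMap (ZMod p) K (c.1 j) * G.z' σ j := by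
  rw [GD.zs, GD.zc]
  simp only [GD.z', mul_sub, Finset.sum_sub_distrib, Finset.mul_sum]
  congr 1
  rw [Finset.sum_comm]
  refine Finset.sum_congr rfl fun i _ => ?_
  rw [map_lamc, Finset.sum_mul]
  exact Finset.sum_congr rfl fun j _ => by ring

theorem algebraMap_pow_p (c : ZMod p) :
    algebraMap (ZMod p) K c ^ p = algebraMap (ZMod p) K c := by
  rw [← map_pow, ZMod.pow_card]

theorem GD.z'_AS (G : GD p b K I F A J d on m r M) (σ : ∀ i, J i) (j : Fin m) :
    G.z' σ j ^ p - cond b (G.z' σ j) 0 = ∑ i, algebraMap (ZMod p) K (G.lam j i) *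
      algebraMap (F i) K (G.f i - (G.fd i).q (σ i) ^ p + cond b ((G.fd i).q (σ i)) 0) := by
  have hcK : CharP K p := charP_of_injective_algebraMap (algebraMap (ZMod p) K).injective p
  have h1 := G.AS j
  rw [GD.z', sub_pow_char, sum_pow_char]
  simp only [mul_pow, algebraMap_pow_p]
  rcases Bool.eq_false_or_eq_true b with hb | hb
  · rw [cond_t hb] at h1
    rw [cond_t hb]
    simp only [cond_t hb, map_add, map_sub, map_pow, mul_add, mul_sub, Finset.sum_add_distrib,
      Finset.sum_sub_distrib, ← h1]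
    ring
  · rw [cond_f hb, sub_zero] at h1
    rw [cond_f hb]
    simp only [cond_f hb, map_add, map_sub, map_pow, mul_add, mul_sub, Finset.sum_add_distrib,
      Finset.sum_sub_distrib, ← h1, map_zero, mul_zero, Finset.sum_const_zero]
    ring

theorem GD.zs_AS (G : GD p b K I F A J d on m r M) (σ : ∀ i, J i) (c : Vz p m) :
    G.zs σ c ^ p - cond b (G.zs σ c) 0 = ∑ i, algebraMap (ZMod p) K (lamc G.lam c i) *
      algebraMap (F i) K (G.f i - (G.fd i).q (σ i) ^ p + cond b ((G.fd i).q (σ i)) 0) := by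
  have hcK : CharP K p := charP_of_injective_algebraMap (algebraMap (ZMod p) K).injective p
  rw [G.zs_eq, sum_pow_char]
  simp only [mul_pow, algebraMap_pow_p]
  have h1 : cond b (∑ j, algebraMap (ZMod p) K (c.1 j) * G.z' σ j) 0 =
      ∑ j, algebraMap (ZMod p) K (c.1 j) * cond b (G.z' σ j) 0 := by
    rcases Bool.eq_false_or_eq_true b with hb | hb
    · simp only [cond_t hb]
    · simp only [cond_f hb, mul_zero, Finset.sum_const_zero]
  rw [h1, ← Finset.sum_sub_distrib]
  simp only [← mul_sub, G.z'_AS, Finset.mul_sum]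
  rw [Finset.sum_comm]
  refine Finset.sum_congr rfl fun i _ => ?_
  rw [map_lamc, Finset.sum_mul]
  exact Finset.sum_congr rfl fun j _ => by ring

/-- The local data of the cover. -/
noncomputable def GD.toLD (G : GD p b K I F A J d on m r M) {V : ValuationSubring K}
    (fl : G.Fls V) : LD p b V I A d on (lamc G.lam) G.Nw M where
  n := fun i => (fl i).n
  y := fun i s => algebraMap (F i) K ((fl i).y s)
  G := fun i => (fl i).G
  D := fun i => (fl i).D
  l := fun i => (fl i).l
  t := fun i a => algebraMap (F i) K ((fl i).t a)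
  e := fun i => (fl i).e
  β := fun i => (fl i).β
  κ := fun i => (fl i).κ
  u := fun i => (fl i).u
  q := fun i => (fl i).qv
  act := fun i => (fl i).act
  z := G.zs fun i => (fl i).j
  w := G.w
  vy := fun i s => wv_le_one.mp ((fl i).loc.le _ ((fl i).yR s))
  rel := fun i j => by rw [aeval_am, (fl i).rel, map_zero]
  vD := fun i => by rw [aeval_am]; exact wv_eq_one.mp (fl i).vD
  ndg := fun i => (fl i).ndg
  l0 := fun i a h => by rw [(fl i).l0 a h, map_one]
  l1 := fun i a c h => by
    obtain ⟨h1, h2, h3⟩ := (fl i).l1 a c h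
    exact ⟨wv_lt_one.mp h1, (map_ne_zero _).mpr h2, by rw [h3]⟩
  linj := fun i => (fl i).linj
  typ := fun i hi => by
    rcases (fl i).typ hi with ⟨a, h1, h2, h3⟩ | h1
    · exact Or.inl ⟨a, h1, h2, wv_eq_one.mp h3⟩
    · exact Or.inr h1
  actb := fun hb i => (fl i).actb hb
  pole := fun hb i hi => by
    rw [mon_map]
    have h1 := (fl i).pole hb hi
    by_contra hcon
    exact absurd h1 (not_lt.mpr (wv_le_one.mpr (not_lt.mp hcon)))
  e0 := fun i => (fl i).e0
  cut := fun i => (fl i).cut
  eM := fun i => (fl i).eM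
  βM := fun i => (fl i).βM
  κM := fun i => (fl i).κM
  AS := fun c => by
    rw [G.zs_AS]
    refine Finset.sum_congr rfl fun i _ => ?_
    congr 1
    rw [(fl i).eqf, mon_map]
    rcases Bool.eq_false_or_eq_true (b || (fl i).act) with h | h
    · rw [cond_t h, cond_t h, map_mul]
    · rw [cond_f h, cond_f h, map_zero]
  Nw0 := G.Nw0
  w0 := G.w0
  vq := fun i c => wv_eq_one.mp ((fl i).vq c)
  KM := fun c => by
    rw [G.KM]
    refine Finset.prod_congr rfl fun i _ => ?_
    rw [(fl i).eqh, mon_map, map_mul]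

section Adp

variable {V : ValuationSubring K} {lam : Fin m → I → ZMod p} {Nw : Fin r → ℕ}

/-- The coefficients of a vector. -/
def lamv {p m : ℕ} {I : Type} (lam : Fin m → I → ZMod p) (x : Fin m → ZMod p) (i : I) : ZMod p :=
  ∑ j, x j * lam j i

theorem lamv_sub (lam : Fin m → I → ZMod p) (x y : Fin m → ZMod p) (i : I) :
    lamv lam (x - y) i = lamv lam x i - lamv lam y i := by
  simp only [lamv, Pi.sub_apply, sub_mul, Finset.sum_sub_distrib]

theorem lamv_smul (lam : Fin m → I → ZMod p) (a : ZMod p) (x : Fin m → ZMod p) (i : I) :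
    lamv lam (a • x) i = a * lamv lam x i := by
  simp only [lamv, Pi.smul_apply, smul_eq_mul, mul_assoc, Finset.mul_sum]

theorem lamv_sum {ι : Type} [Fintype ι] (lam : Fin m → I → ZMod p) (x : ι → Fin m → ZMod p)
    (i : I) : lamv lam (∑ k, x k) i = ∑ k, lamv lam (x k) i := by
  simp only [lamv, Finset.sum_apply, Finset.sum_mul]
  exact Finset.sum_comm

/-- The size of the vectors. -/
noncomputable def LD.NN (L : LD p b V I A d on (lamc lam) Nw M) (x : Fin m → ZMod p) :
    V.ValueGroup := if h : x ≠ 0 then V.valuation (L.ω ⟨x, h⟩) else 0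

theorem LD.NN_ne (L : LD p b V I A d on (lamc lam) Nw M) {x : Fin m → ZMod p} (h : x ≠ 0) :
    L.NN x = V.valuation (L.ω ⟨x, h⟩) := dif_pos h

theorem LD.NN_c (L : LD p b V I A d on (lamc lam) Nw M) (c : Vz p m) :
    L.NN c.1 = V.valuation (L.ω c) := dif_pos c.2

theorem LD.NN_zero (L : LD p b V I A d on (lamc lam) Nw M) {x : Fin m → ZMod p} (h : x = 0) :
    L.NN x = 0 := dif_neg (not_not.mpr h)

/-- The elements are linear. -/
def LD.Lin (L : LD p b V I A d on (lamc lam) Nw M) (z₀ : Fin m → K) : Prop :=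
  ∀ c : Vz p m, L.z c = ∑ j, algebraMap (ZMod p) K (c.1 j) * z₀ j

variable {L : LD p b V I A d on (lamc lam) Nw M} {z₀ : Fin m → K}

theorem LD.Lin.le (hz : L.Lin z₀) (x : Fin m → ZMod p) :
    V.valuation (∑ j, algebraMap (ZMod p) K (x j) * z₀ j) ≤ L.NN x := by
  by_cases hx : x = 0
  · rw [L.NN_zero hx, hx]
    simp
  · rw [L.NN_ne hx, ← hz ⟨x, hx⟩]
    exact L.vz_le _

theorem LD.tt_le_NN {x : Fin m → ZMod p} (hx : x ≠ 0) {j : Option I}
    (hj : cand b on (lamv lam x) j = true) : V.valuation (L.tt j) ≤ L.NN x := by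
  rw [L.NN_ne hx]
  exact L.vtt_le_ω (c := ⟨x, hx⟩) hj

theorem LD.NN_ult (hz : L.Lin z₀) (hex : ∀ c : Vz p m, ∃ j, cand b on (lamc lam c) j = true) :
    Ult (ZMod p) L.NN where
  sub := by
    intro x y
    by_cases hxy : x - y = 0
    · rw [L.NN_zero hxy]; exact zero_le
    · rw [L.NN_ne hxy]
      refine L.vω_le_of (hex ⟨x - y, hxy⟩) ?_ ?_
      · have h1 : L.z ⟨x - y, hxy⟩ = (∑ j, algebraMap (ZMod p) K (x j) * z₀ j) -
            ∑ j, algebraMap (ZMod p) K (y j) * z₀ j := by
          rw [hz]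
          simp only [Pi.sub_apply, map_sub, sub_mul, Finset.sum_sub_distrib]
        rw [h1]
        exact (V.valuation.map_sub _ _).trans (max_le_max (hz.le x) (hz.le y))
      · intro j hj
        cases j with
        | none =>
          by_cases hx : x = 0
          · have hy : y ≠ 0 := by
              rintro rfl
              rw [hx, sub_zero] at hxy
              exact hxy rfl
            exact (LD.tt_le_NN hy (j := none) hj).trans (le_max_right _ _)
          · exact (LD.tt_le_NN hx (j := none) hj).trans (le_max_left _ _)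
        | some i =>
          obtain ⟨h1, h2⟩ := cand_some.mp hj
          have h3 : lamv lam x i - lamv lam y i ≠ 0 := by
            rw [← lamv_sub]; exact h2
          by_cases hx : lamv lam x i = 0
          · have hy : lamv lam y i ≠ 0 := by
              intro hy
              rw [hx, hy, sub_zero] at h3
              exact h3 rfl
            have hy' : y ≠ 0 := by
              rintro rfl
              apply hy
              simp [lamv]
            exact (LD.tt_le_NN hy' (cand_some.mpr ⟨h1, hy⟩)).trans (le_max_right _ _)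
          · have hx' : x ≠ 0 := by
              rintro rfl
              apply hx
              simp [lamv]
            exact (LD.tt_le_NN hx' (cand_some.mpr ⟨h1, hx⟩)).trans (le_max_left _ _)
  smul := by
    intro a x
    by_cases hax : a • x = 0
    · rw [L.NN_zero hax]; exact zero_le
    · have hx : x ≠ 0 := by
        rintro rfl
        rw [smul_zero] at hax
        exact hax rfl
      rw [L.NN_ne hax]
      refine L.vω_le_of (hex ⟨a • x, hax⟩) ?_ ?_
      · have h1 : L.z ⟨a • x, hax⟩ = algebraMap (ZMod p) K a *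
            ∑ j, algebraMap (ZMod p) K (x j) * z₀ j := by
          rw [hz]
          simp only [Pi.smul_apply, smul_eq_mul, map_mul, mul_assoc, Finset.mul_sum]
        rw [h1, map_mul]
        exact (mul_le_of_le_one_left' (LD.vlam_le a)).trans (hz.le x)
      · intro j hj
        cases j with
        | none => exact LD.tt_le_NN hx (j := none) hj
        | some i =>
          obtain ⟨h1, h2⟩ := cand_some.mp hj
          have h3 : a * lamv lam x i ≠ 0 := by
            rw [← lamv_smul]; exact h2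
          exact LD.tt_le_NN hx (cand_some.mpr ⟨h1, right_ne_zero_of_mul h3⟩)

theorem LD.lev_ult (L : LD p b V I A d on (lamc lam) Nw M) :
    Ult (ZMod p) fun x : Fin m → ZMod p => L.lev (lamv lam x) where
  sub := by
    intro x y
    refine L.lev_le fun i h1 h2 => ?_
    rw [lamv_sub] at h2
    by_cases hx : lamv lam x i = 0
    · have hy : lamv lam y i ≠ 0 := by
        intro hy
        rw [hx, hy, sub_zero] at h2
        exact h2 rfl
      exact (L.le_lev h1 hy).trans (le_max_right _ _)
    · exact (L.le_lev h1 hx).trans (le_max_left _ _)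
  smul := by
    intro a x
    refine L.lev_le fun i h1 h2 => ?_
    rw [lamv_smul] at h2
    exact L.le_lev h1 (right_ne_zero_of_mul h2)

theorem LD.lev_lt (L : LD p b V I A d on (lamc lam) Nw M) {l : I → ZMod p} {δ : V.ValueGroup}
    (hδ : δ ≠ 0)
    (h : ∀ i, L.act i = true → l i ≠ 0 → V.valuation (mon (L.t i) (L.e i)) < δ) :
    L.lev l < δ := by
  classical
  rw [LD.lev, Finset.sup_lt_iff (by
    have : (⊥ : V.ValueGroup) = 0 := rfl
    rw [this]
    exact zero_lt_iff.mpr hδ)]
  intro i _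
  split_ifs with h1
  · exact h i h1.1 h1.2
  · exact zero_lt_iff.mpr hδ

/-- **Adapted bases.** -/
theorem exists_adp (hz : L.Lin z₀) (hex : ∀ c : Vz p m, ∃ j, cand b on (lamc lam c) j = true) :
    Nonempty (Adp L) := by
  classical
  obtain ⟨ι, i1, bb, hbb⟩ := exists_adapted (k := ZMod p) (Module.finrank (ZMod p) (Fin m → ZMod p))
    (Fin m → ZMod p) rfl L.NN (fun x => L.lev (lamv lam x)) (LD.NN_ult hz hex) L.lev_ult
  have hne : ∀ i, bb i ≠ 0 := fun i => bb.ne_zero i
  have hsum : ∀ (f : ι → ZMod p) (g : Vz p m → K),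
      ∑ c' : Vz p m, algebraMap (ZMod p) K (∑ i, if bb i = c'.1 then f i else 0) * g c' =
        ∑ i, algebraMap (ZMod p) K (f i) * g ⟨bb i, hne i⟩ := by
    intro f g
    simp only [map_sum, Finset.sum_mul]
    rw [Finset.sum_comm]
    refine Finset.sum_congr rfl fun i _ => ?_
    rw [Finset.sum_eq_single ⟨bb i, hne i⟩]
    · rw [if_pos rfl]
    · intro c' _ hc'
      rw [if_neg fun h => hc' (Subtype.ext h.symm), map_zero, zero_mul]
    · intro h; exact absurd (Finset.mem_univ _) h
  have hmem : ∀ (f : ι → ZMod p) (c' : Vz p m), (∑ i, if bb i = c'.1 then f i else 0) ≠ 0 →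
      ∃ i, bb i = c'.1 ∧ f i ≠ 0 := by
    intro f c' h
    obtain ⟨i, -, hi⟩ := Finset.exists_ne_zero_of_sum_ne_zero h
    by_cases h1 : bb i = c'.1
    · rw [if_pos h1] at hi
      exact ⟨i, h1, hi⟩
    · rw [if_neg h1] at hi
      exact absurd rfl hi
  refine ⟨{
    bas := fun c => ∃ i, bb i = c.1
    rho := fun c c' => ∑ i, if bb i = c'.1 then bb.repr c.1 i else 0
    zrho := ?_
    rbas := fun c c' h => (hmem _ _ h).imp fun i hi => hi.1
    dom := ?_
    ind := ?_ }⟩
  · intro c _
    rw [hsum, hz]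
    have h1 : ∀ i, L.z ⟨bb i, hne i⟩ = ∑ j, algebraMap (ZMod p) K (bb i j) * z₀ j := fun i =>
      hz ⟨bb i, hne i⟩
    simp only [h1, Finset.mul_sum]
    rw [Finset.sum_comm]
    refine Finset.sum_congr rfl fun j _ => ?_
    have h2 : c.1 j = ∑ i, bb.repr c.1 i * bb i j := by
      conv_lhs => rw [← bb.sum_repr c.1]
      rw [Finset.sum_apply]
      rfl
    rw [h2, map_sum, Finset.sum_mul]
    exact Finset.sum_congr rfl fun i _ => by rw [map_mul]; ring
  · intro c c' h
    obtain ⟨i, h1, h2⟩ := hmem _ _ h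
    have h3 := (hbb c.1 i h2).1
    rw [h1, L.NN_c, L.NN_c] at h3
    exact h3
  · intro γ a ha hs c hc hc0
    by_contra hac
    obtain ⟨⟨i₀, hi₀⟩, -⟩ := ha c hac
    obtain ⟨x, hx⟩ : ∃ x, x = ∑ i, a ⟨bb i, hne i⟩ • bb i := ⟨_, rfl⟩
    have hr : bb.repr x i₀ = a c := by
      rw [hx, bb.repr_sum_self]
      congr 1
      exact Subtype.ext hi₀
    have h1 := (hbb x i₀ (by rw [hr]; exact hac)).2
    rw [hi₀] at h1
    have h2 : L.lev (lamv lam c.1) = γ := hc
    have h1' : L.lev (lamv lam c.1) ≤ L.lev (lamv lam x) := h1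
    rw [h2] at h1'
    have hγ : γ ≠ 0 := by rw [← hc]; exact hc0
    refine absurd h1' (not_le.mpr (L.lev_lt hγ fun i hi hli => ?_))
    -- the coefficients of `x`
    have hlx : lamv lam x i = ∑ c, a c * lamc lam c i := by
      rw [hx, lamv_sum]
      have h3 : ∀ k, lamv lam (a ⟨bb k, hne k⟩ • bb k) i =
          a ⟨bb k, hne k⟩ * lamc lam ⟨bb k, hne k⟩ i := fun k => lamv_smul _ _ _ _
      rw [Finset.sum_congr rfl fun k _ => h3 k]
      have hinj : Function.Injective fun k : ι => (⟨bb k, hne k⟩ : Vz p m) := by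
        intro k k' hkk
        exact bb.injective (congrArg Subtype.val hkk)
      rw [← Finset.sum_image (s := Finset.univ) (g := fun k : ι => (⟨bb k, hne k⟩ : Vz p m))
        (f := fun c => a c * lamc lam c i) fun k _ k' _ h => hinj h]
      refine Finset.sum_subset (Finset.subset_univ _) fun c' _ hc' => ?_
      have h4 : a c' = 0 := by
        by_contra h5
        obtain ⟨⟨k, hk⟩, -⟩ := ha c' h5
        exact hc' (Finset.mem_image.mpr ⟨k, Finset.mem_univ _, Subtype.ext hk⟩)
      rw [h4, zero_mul]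
    rw [hlx] at hli
    obtain ⟨c', -, hc'⟩ := Finset.exists_ne_zero_of_sum_ne_zero hli
    have h5 := ha c' (left_ne_zero_of_mul hc')
    have h6 := L.le_lev (l := lamc lam c') hi (right_ne_zero_of_mul hc')
    rw [h5.2] at h6
    refine lt_of_le_of_ne h6 fun h7 => hli (hs i hi h7)

end Adp

/-- Adapted bases for the local data of the cover. -/
theorem GD.adp (G : GD p b K I F A J d on m r M) {V : ValuationSubring K} (fl : G.Fls V) :
    Nonempty (Adp (G.toLD fl)) :=
  exists_adp (z₀ := G.z' fun i => (fl i).j) (fun c => G.zs_eq _ c) G.hex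

end Pool.Agent.H96.Y
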