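import Pool.Agent.H96.Y.GA
import Pool.Agent.H96.S.GB

/-!
# The finite sets attached to the global data: several elements
-/

set_option autoImplicit false
set_option linter.unusedSectionVars false

namespace Pool.Agent.H96.Y

open MvPolynomial IsLocalRing Pool.Agent.H96.Reg Pool.Agent.H96.VL Pool.Agent.H96.W
open Pool.Agent.H96.S (Va Ndg cond_t cond_f or_t of_or FL FD gen_map mon_map aeval_am)
open scoped Pointwise

variable {p : ℕ} [Fact p.Prime] {b : Bool} {K : Type} [Field K] [Algebra (ZMod p) K]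
  {I : Type} [Fintype I] [DecidableEq I] {F : I → Type} [∀ i, Field (F i)]
  [∀ i, Algebra (ZMod p) (F i)] [∀ i, Algebra (F i) K]
  [∀ i, IsScalarTower (ZMod p) (F i) K] {A J : I → Type} [∀ i, Fintype (A i)]
  [∀ i, DecidableEq (A i)] {d : I → ℕ} {on : I → Bool} {m r M : ℕ}

namespace GD

variable (G : GD p b K I F A J d on m r M)

/-- The products of the factors of the twist. -/
noncomputable def cp (e : I → ℕ) (σ : ∀ i, J i) : K :=
  ∏ i, algebraMap (F i) K ((G.fd i).c (σ i)) ^ e i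

theorem cp_ne (e : I → ℕ) (σ : ∀ i, J i) : G.cp e σ ≠ 0 :=
  Finset.prod_ne_zero_iff.mpr fun i _ => pow_ne_zero _ ((map_ne_zero _).mpr ((G.fd i).c0 _))

theorem cp_add (e e' : I → ℕ) (σ : ∀ i, J i) : G.cp (e + e') σ = G.cp e σ * G.cp e' σ := by
  rw [cp, cp, cp, ← Finset.prod_mul_distrib]
  exact Finset.prod_congr rfl fun i _ => pow_add _ _ _

variable [DecidableEq K] [∀ i, Fintype (J i)]

noncomputable def sP (e : I → ℕ) : Finset K := Finset.univ.image (G.cp e)

/-- The complement of a factor. -/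
def off {I : Type} [DecidableEq I] (i : I) : I → ℕ := fun j => if j = i then 0 else 1

noncomputable def TK (i : I) (a : A i) : Finset K := ((G.fd i).T a).image (algebraMap (F i) K)

noncomputable def sT : Option I → Finset K
  | none => G.sP 1
  | some i => G.sP (off i) * (G.fd i).S.image (algebraMap (F i) K)

/-- The set of the element `z`. -/
noncomputable def sC (c : Vz p m) : Finset K :=
  (Finset.univ.image fun σ => G.cp 1 σ * G.zs σ c) ∪
    (Finset.univ.filter fun j => cand b on (lamc G.lam c) j = true).biUnion G.sT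

/-- The sets of the coordinates. -/
noncomputable def ss : Ix A (Vz p m) r → Finset K :=
  Sum.elim (fun s => G.TK s.1 s.2) (Sum.elim (fun c => G.sC c * ∏ i, ∏ a, G.TK i a ^ M)
    fun c => {G.w c} * ∏ i, ∏ a, G.TK i a ^ M)

omit [DecidableEq K] [∀ i, Fintype (J i)] in
/-- The exponents of the twists. -/
def mL (_G : GD p b K I F A J d on m r M) : Ix A (Vz p m) r → I → ℕ :=
  Sum.elim (fun s => Pi.single s.1 1) (Sum.elim (fun _ => 1 + fun i => M * Fintype.card (A i))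
    fun _ i => M * Fintype.card (A i))

end GD

variable {G : GD p b K I F A J d on m r M} {V : ValuationSubring K} (fl : G.Fls V) {R : Subring K}

/-- The choice of the charts of the factors. -/
abbrev sg (fl : G.Fls V) (i : I) : J i := (fl i).j

/-- The subring contains the rings of the factors and the normalized elements. -/
structure Base (fl : G.Fls V) (R : Subring K) : Prop where
  loc : VLocal V R
  b1 : ∀ i, ∀ w ∈ (fl i).R, algebraMap (F i) K w ∈ R
  bz : ∀ c, (G.toLD fl).z c / (G.toLD fl).ω c ∈ R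
  bt : ∀ c j, cand b on (lamc G.lam c) j = true → (G.toLD fl).tt j / (G.toLD fl).ω c ∈ R
  bτ : ∀ α, (G.toLD fl).τ (Sum.inr α) ∈ R

section Gens

variable [DecidableEq K] [∀ i, Fintype (J i)]
  (b1 : ∀ i, ∀ w ∈ (fl i).R, algebraMap (F i) K w ∈ R)

omit [DecidableEq K] [∀ i, Fintype (J i)] in
theorem tt_eq (i : I) : (G.toLD fl).tt (some i) =
    algebraMap (F i) K (mon (fl i).t (fl i).β) := by
  rw [LD.tt_some]
  exact mon_map _ _

include b1

omit [∀ i, Fintype (J i)] in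
theorem gen_TK (i : I) (a : A i) : Gen R (G.TK i a)
    ((G.toLD fl).t i a * algebraMap (F i) K ((G.fd i).c (sg fl i))) := by
  have h1 := gen_map (b1 i) ((fl i).gT a)
  rw [map_mul] at h1
  exact h1

omit [DecidableEq K] [∀ i, Fintype (J i)] in
theorem cp_div_mem (e : I → ℕ) (σ : ∀ i, J i) : G.cp e σ / G.cp e (sg fl) ∈ R := by
  rw [GD.cp, GD.cp, ← Finset.prod_div_distrib]
  refine Subring.prod_mem _ fun i _ => ?_
  rw [← div_pow, ← map_div₀]
  exact R.pow_mem (b1 i _ ((fl i).crat _)) _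

theorem gen_sP (e : I → ℕ) : Gen R (G.sP e) (G.cp e (sg fl)) := by
  refine ⟨G.cp_ne _ _, fun g hg => ?_, _, Finset.mem_image_of_mem _ (Finset.mem_univ (sg fl)),
    by rw [div_self (G.cp_ne _ _)]; exact R.one_mem, G.cp_ne _ _⟩
  obtain ⟨σ, -, rfl⟩ := Finset.mem_image.mp hg
  exact cp_div_mem fl b1 e σ

omit b1 in
omit [DecidableEq K] [∀ i, Fintype (J i)] in
theorem cp_one_eq (i : I) (σ : ∀ i, J i) :
    G.cp 1 σ = G.cp (GD.off i) σ * algebraMap (F i) K ((G.fd i).c (σ i)) := by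
  rw [GD.cp, GD.cp, ← Finset.mul_prod_erase Finset.univ _ (Finset.mem_univ i),
    ← Finset.mul_prod_erase Finset.univ (fun i_1 => algebraMap (F i_1) K ((G.fd i_1).c (σ i_1)) ^
      GD.off i i_1) (Finset.mem_univ i)]
  have h1 : GD.off i i = 0 := if_pos rfl
  rw [h1, pow_zero, one_mul, Pi.one_apply, pow_one, mul_comm]
  congr 1
  refine Finset.prod_congr rfl fun j hj => ?_
  have h2 : GD.off i j = 1 := if_neg (Finset.ne_of_mem_erase hj)
  rw [h2, Pi.one_apply]

theorem gen_sT {c : Vz p m} (j : Option I) (hj : cand b on (lamc G.lam c) j = true) :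
    Gen R (G.sT j) (G.cp 1 (sg fl) * (G.toLD fl).tt j) := by
  cases j with
  | none =>
    rw [(G.toLD fl).tt_none, mul_one]
    exact gen_sP fl b1 1
  | some i =>
    have h1 := (gen_sP fl b1 (GD.off i)).mul (gen_map (b1 i) ((fl i).gS (cand_some.mp hj).1))
    rw [tt_eq, cp_one_eq i, mul_assoc, ← map_mul]
    exact h1

/-- A generator in the set. -/
theorem exists_gen_sC (c : Vz p m) : ∃ g ∈ G.sC c, g ≠ 0 ∧
    G.cp 1 (sg fl) * (G.toLD fl).ω c / g ∈ R ∧ g / (G.cp 1 (sg fl) * (G.toLD fl).ω c) ∈ R := by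
  classical
  have hx0 := G.cp_ne 1 (sg fl)
  have hne : G.cp 1 (sg fl) * (G.toLD fl).ω c ≠ 0 := mul_ne_zero hx0 ((G.toLD fl).ω_ne_zero (G.hex c))
  by_cases hz : (G.toLD fl).isZ c
  · refine ⟨G.cp 1 (sg fl) * (G.toLD fl).ω c, ?_, hne, by rw [div_self hne]; exact R.one_mem,
      by rw [div_self hne]; exact R.one_mem⟩
    rw [(G.toLD fl).ω_isZ hz]
    exact Finset.mem_union_left _ (Finset.mem_image.mpr ⟨sg fl, Finset.mem_univ _, rfl⟩)
  · have hp := ((G.toLD fl).piv_spec (G.hex c)).1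
    have h1 := gen_sT fl b1 ((G.toLD fl).piv c) hp
    obtain ⟨g, hg, h2, h3⟩ := h1.ex
    rw [(G.toLD fl).ω_not hz]
    exact ⟨g, Finset.mem_union_right _ (Finset.mem_biUnion.mpr ⟨(G.toLD fl).piv c,
      Finset.mem_filter.mpr ⟨Finset.mem_univ _, hp⟩, hg⟩), h3, h2, h1.mem g hg⟩

omit [DecidableEq K] [∀ i, Fintype (J i)] b1 in
theorem scalar_mem (R : Subring K) (a : ZMod p) : algebraMap (ZMod p) K a ∈ R := by
  obtain ⟨n, rfl⟩ := ZMod.intCast_surjective a
  rw [map_intCast]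
  exact intCast_mem _ n

omit [DecidableEq K] [∀ i, Fintype (J i)] in
/-- The change of the charts. -/
theorem diff_mem (c : Vz p m) (σ : ∀ i, J i)
    (bt : ∀ j, cand b on (lamc G.lam c) j = true → (G.toLD fl).tt j / (G.toLD fl).ω c ∈ R) :
    G.cp 1 σ * (G.zs σ c - (G.toLD fl).z c) / (G.cp 1 (sg fl) * (G.toLD fl).ω c) ∈ R := by
  have hx0 := G.cp_ne 1 (sg fl)
  have hω0 := (G.toLD fl).ω_ne_zero (G.hex c)
  have h2 : G.zs σ c - (G.toLD fl).z c = ∑ i, algebraMap (ZMod p) K (lamc G.lam c i) *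
      algebraMap (F i) K ((G.fd i).q (sg fl i) - (G.fd i).q (σ i)) := by
    have h3 : (G.toLD fl).z c = G.zs (sg fl) c := rfl
    rw [h3, GD.zs, GD.zs]
    simp only [map_sub, mul_sub, Finset.sum_sub_distrib]
    ring
  rw [h2, Finset.mul_sum, Finset.sum_div]
  refine Subring.sum_mem _ fun i _ => ?_
  by_cases hl : lamc G.lam c i = 0
  · rw [hl, map_zero, zero_mul, mul_zero, zero_div]
    exact R.zero_mem
  rcases Bool.eq_false_or_eq_true (b || on i) with hi | hi
  · have h3 := R.mul_mem (scalar_mem R (lamc G.lam c i))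
      (R.mul_mem (R.mul_mem (cp_div_mem (G := G) fl b1 (GD.off i) σ)
      (b1 i _ ((fl i).qd hi (σ i)))) (bt (some i) (cand_some.mpr ⟨hi, hl⟩)))
    refine (congrArg (· ∈ R) ?_).mp h3
    rw [tt_eq, cp_one_eq i σ, cp_one_eq i (sg fl)]
    have n1 : algebraMap (F i) K (mon (fl i).t (fl i).β) ≠ 0 := by
      rw [← tt_eq (G := G) fl i]
      exact (G.toLD fl).tt_ne_zero _
    have n2 := G.cp_ne (GD.off i) (sg fl)
    have n3 : algebraMap (F i) K ((G.fd i).c (sg fl i)) ≠ 0 := (map_ne_zero _).mpr ((G.fd i).c0 _)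
    rw [map_div₀, map_mul, map_div₀]
    field_simp
  · rw [(fl i).qe hi (σ i), sub_self, map_zero, mul_zero, mul_zero, zero_div]
    exact R.zero_mem

theorem sC_div_mem (c : Vz p m) (bz : (G.toLD fl).z c / (G.toLD fl).ω c ∈ R)
    (bt : ∀ j, cand b on (lamc G.lam c) j = true → (G.toLD fl).tt j / (G.toLD fl).ω c ∈ R) :
    ∀ g ∈ G.sC c, g / (G.cp 1 (sg fl) * (G.toLD fl).ω c) ∈ R := by
  classical
  have hx0 := G.cp_ne 1 (sg fl)
  have hω0 := (G.toLD fl).ω_ne_zero (G.hex c)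
  intro g hg
  rw [GD.sC] at hg
  rcases Finset.mem_union.mp hg with hg | hg
  · obtain ⟨σ, -, rfl⟩ := Finset.mem_image.mp hg
    have h1 : G.cp 1 σ * G.zs σ c / (G.cp 1 (sg fl) * (G.toLD fl).ω c) =
        G.cp 1 σ * (G.zs σ c - (G.toLD fl).z c) / (G.cp 1 (sg fl) * (G.toLD fl).ω c) +
          G.cp 1 σ / G.cp 1 (sg fl) * ((G.toLD fl).z c / (G.toLD fl).ω c) := by
      field_simp
      ring
    rw [h1]
    exact R.add_mem (diff_mem fl b1 c σ bt) (R.mul_mem (cp_div_mem fl b1 1 σ) bz)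
  · obtain ⟨j, hj, hg⟩ := Finset.mem_biUnion.mp hg
    have hcj := (Finset.mem_filter.mp hj).2
    have h1 := R.mul_mem ((gen_sT fl b1 j hcj).mem g hg) (bt j hcj)
    have ht0 := (G.toLD fl).tt_ne_zero j
    have h2 : g / (G.cp 1 (sg fl) * (G.toLD fl).tt j) * ((G.toLD fl).tt j / (G.toLD fl).ω c) =
        g / (G.cp 1 (sg fl) * (G.toLD fl).ω c) := by field_simp
    rwa [h2] at h1

theorem gen_sC (c : Vz p m) (bz : (G.toLD fl).z c / (G.toLD fl).ω c ∈ R)
    (bt : ∀ j, cand b on (lamc G.lam c) j = true → (G.toLD fl).tt j / (G.toLD fl).ω c ∈ R) :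
    Gen R (G.sC c) (G.cp 1 (sg fl) * (G.toLD fl).ω c) := by
  obtain ⟨g, hg, hg0, h1, h2⟩ := exists_gen_sC fl b1 c
  exact ⟨mul_ne_zero (G.cp_ne _ _) ((G.toLD fl).ω_ne_zero (G.hex c)),
    sC_div_mem fl b1 c bz bt, g, hg, h1, hg0⟩

omit b1 in
omit [DecidableEq K] [∀ i, Fintype (J i)] in
theorem prodT_eq : ∏ i, ∏ a, ((G.toLD fl).t i a *
      algebraMap (F i) K ((G.fd i).c (sg fl i))) ^ M =
    (G.toLD fl).pt * G.cp (fun i => M * Fintype.card (A i)) (sg fl) := by
  rw [GD.cp, LD.pt, ← Finset.prod_mul_distrib]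
  refine Finset.prod_congr rfl fun i _ => ?_
  have h1 : ∀ a : A i, ((G.toLD fl).t i a *
      algebraMap (F i) K ((G.fd i).c (sg fl i))) ^ M = (G.toLD fl).t i a ^ (M : ℤ) *
        algebraMap (F i) K ((G.fd i).c (sg fl i)) ^ M := fun a => by
    rw [mul_pow, zpow_natCast]
  simp only [h1, Finset.prod_mul_distrib, Finset.prod_const, Finset.card_univ]
  rw [← pow_mul]
  rfl

theorem gen_prodT : Gen R (∏ i, ∏ a, G.TK i a ^ M)
    ((G.toLD fl).pt * G.cp (fun i => M * Fintype.card (A i)) (sg fl)) := by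
  rw [← prodT_eq (G := G) fl]
  exact Gen.prod Finset.univ fun i _ => Gen.prod Finset.univ fun a _ =>
    (gen_TK fl b1 i a).pow M

theorem gen_ss_z (c : Vz p m) (bz : (G.toLD fl).z c / (G.toLD fl).ω c ∈ R)
    (bt : ∀ j, cand b on (lamc G.lam c) j = true → (G.toLD fl).tt j / (G.toLD fl).ω c ∈ R) :
    Gen R (G.ss (Sum.inr (Sum.inl c))) (G.cp (G.mL (Sum.inr (Sum.inl c))) (sg fl) *
      (G.toLD fl).τ (Sum.inr (Sum.inl c))) := by
  have h1 := (gen_sC fl b1 c bz bt).mul (gen_prodT fl b1)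
  have h2 : G.cp 1 (sg fl) * (G.toLD fl).ω c *
      ((G.toLD fl).pt * G.cp (fun i => M * Fintype.card (A i)) (sg fl)) =
      G.cp (G.mL (Sum.inr (Sum.inl c))) (sg fl) * (G.toLD fl).τ (Sum.inr (Sum.inl c)) := by
    have h3 : G.mL (Sum.inr (Sum.inl c)) = 1 + fun i => M * Fintype.card (A i) := rfl
    rw [h3, G.cp_add, LD.τ_z]; ring
  rw [h2] at h1
  exact h1

theorem gen_ss_w (c : Fin r) : Gen R (G.ss (Sum.inr (Sum.inr c)))
    (G.cp (G.mL (Sum.inr (Sum.inr c))) (sg fl) * (G.toLD fl).τ (Sum.inr (Sum.inr c))) := by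
  have h1 := (Gen.singleton (R := R) (G.w0 c)).mul (gen_prodT fl b1)
  have h2 : G.w c * ((G.toLD fl).pt * G.cp (fun i => M * Fintype.card (A i)) (sg fl)) =
      G.cp (G.mL (Sum.inr (Sum.inr c))) (sg fl) * (G.toLD fl).τ (Sum.inr (Sum.inr c)) := by
    have h3 : G.mL (Sum.inr (Sum.inr c)) = fun i => M * Fintype.card (A i) := rfl
    have h4 : (G.toLD fl).w = G.w := rfl
    rw [h3, LD.τ_w, h4]; ring
  rw [h2] at h1
  exact h1

end Gens

section Base

variable [DecidableEq K] [∀ i, Fintype (J i)]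

theorem gen_ssr (b1 : ∀ i, ∀ w ∈ (fl i).R, algebraMap (F i) K w ∈ R)
    (bz : ∀ c, (G.toLD fl).z c / (G.toLD fl).ω c ∈ R)
    (bt : ∀ c j, cand b on (lamc G.lam c) j = true → (G.toLD fl).tt j / (G.toLD fl).ω c ∈ R)
    (α : Vz p m ⊕ Fin r) :
    Gen R (G.ss (Sum.inr α)) (G.cp (G.mL (Sum.inr α)) (sg fl) * (G.toLD fl).τ (Sum.inr α)) := by
  rcases α with c | c
  · exact gen_ss_z fl b1 c (bz c) (bt c)
  · exact gen_ss_w fl b1 c

variable {fl}

theorem Base.gen_ss (h : Base fl R) (α : Ix A (Vz p m) r) :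
    Gen R (G.ss α) (G.cp (G.mL α) (sg fl) * (G.toLD fl).τ α ^ (1 : ℤ)) := by
  rw [zpow_one]
  rcases α with s | α
  · have h1 := gen_TK fl h.b1 s.1 s.2
    have h2 : G.cp (G.mL (Sum.inl s)) (sg fl) =
        algebraMap (F s.1) K ((G.fd s.1).c (sg fl s.1)) := by
      rw [GD.cp, Finset.prod_eq_single s.1]
      · show _ ^ (Pi.single s.1 1 : I → ℕ) s.1 = _
        rw [Pi.single_eq_same, pow_one]
      · intro j _ hj
        show _ ^ (Pi.single s.1 1 : I → ℕ) j = _
        rw [Pi.single_eq_of_ne hj, pow_zero]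
      · intro h; exact absurd (Finset.mem_univ _) h
    rw [h2, mul_comm]
    exact h1
  · exact gen_ssr fl h.b1 h.bz h.bt α

omit [∀ i, Fintype (J i)] in
theorem Base.prin_base (h : Base fl R) (i : I) {s : Finset (F i)}
    (hs : Prin (fl i).R s) : Prin R (s.image (algebraMap (F i) K)) := by
  obtain ⟨T, hT⟩ := hs
  exact ⟨_, gen_map (h.b1 i) hT⟩

theorem Base.prin_s2 (h : Base fl R) (α : Vz p m ⊕ Fin r) :
    Prin R (G.ss (Sum.inr α) ∪ G.sP (G.mL (Sum.inr α))) := by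
  refine (gen_ssr fl h.b1 h.bz h.bt α).prin_union (gen_sP fl h.b1 _) (Or.inl ?_)
  rw [mul_div_cancel_left₀ _ (G.cp_ne _ _)]
  exact h.bτ α

omit [DecidableEq K] [∀ i, Fintype (J i)] in
theorem Base.τ_mem (h : Base fl R) (α : Ix A (Vz p m) r) : (G.toLD fl).τ α ∈ R := by
  rcases α with s | α
  · exact h.b1 s.1 _ ((fl s.1).tR s.2)
  · exact h.bτ α

omit [DecidableEq K] [∀ i, Fintype (J i)] in
/-- Base for the valuation ring. -/
theorem base_self (fl : G.Fls V) : Base fl V.toSubring where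
  loc := ⟨fun x hx => (V.valuation_le_one_iff x).mpr hx, fun x hx h1 => by
    have h2 : V.valuation x⁻¹ = 1 := by rw [map_inv₀, h1, inv_one]
    exact (V.valuation_le_one_iff _).mp h2.le⟩
  b1 := fun i w hw => (V.valuation_le_one_iff _).mp (wv_le_one.mp ((fl i).loc.le _ hw))
  bz := fun c => (V.valuation_le_one_iff _).mp ((G.toLD fl).vY G.hex (Sum.inr c))
  bt := fun c j hj => by
    refine (V.valuation_le_one_iff _).mp ?_
    have h : 0 < V.valuation ((G.toLD fl).ω c) := by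
      rw [Valuation.pos_iff]; exact (G.toLD fl).ω_ne_zero (G.hex c)
    rw [map_div₀]
    exact (div_le_one₀ h).mpr ((G.toLD fl).vtt_le_ω hj)
  bτ := fun c => (V.valuation_le_one_iff _).mp ((G.toLD fl).vτ G.hex _)

/-- Detection. -/
theorem base_of_prin (fl : G.Fls V) (hR : VLocal V R)
    (hmin : ∀ i, ∀ R' : Subring (F i), VLocal (WV V (F i)) R' →
      (∀ s ∈ (G.fd i).base, Prin R' s) → (fl i).R ≤ R')
    (h1 : ∀ i, ∀ s ∈ (G.fd i).base, Prin R (s.image (algebraMap (F i) K)))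
    (h2 : ∀ c, Prin R (G.sC c))
    (h3 : ∀ α, Prin R (G.ss (Sum.inr α) ∪ G.sP (G.mL (Sum.inr α)))) :
    Base fl R := by
  classical
  have b1 : ∀ i, ∀ w ∈ (fl i).R, algebraMap (F i) K w ∈ R :=
    fun i w hw => hmin i (R.comap (algebraMap (F i) K)) (vlocal_comap hR)
      (fun s hs => prin_comap (h1 i s hs)) hw
  have hx0 := G.cp_ne 1 (sg fl)
  have hself := base_self fl
  have key : ∀ c, ∀ g ∈ G.sC c, g / (G.cp 1 (sg fl) * (G.toLD fl).ω c) ∈ R := by
    intro c g hg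
    have hne : G.cp 1 (sg fl) * (G.toLD fl).ω c ≠ 0 :=
      mul_ne_zero hx0 ((G.toLD fl).ω_ne_zero (G.hex c))
    obtain ⟨g₀, hg₀, hg₀0, h4, h5⟩ := exists_gen_sC fl b1 c
    obtain ⟨T, hT⟩ := h2 c
    have h6 := gen_sC fl hself.b1 c (hself.bz c) (hself.bt c)
    have h7 : V.valuation (G.cp 1 (sg fl) * (G.toLD fl).ω c) ≤ V.valuation g₀ := by
      have h8 := hR.le _ h4
      have h9 : 0 < V.valuation g₀ := by rw [Valuation.pos_iff]; exact hg₀0
      rw [map_div₀] at h8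
      exact (div_le_one₀ h9).mp h8
    have h8 : Gen R (G.sC c) g₀ := hT.of_max hR hg₀ fun g hg =>
      (h6.val_le hself.loc hg).trans h7
    have h9 := R.mul_mem (h8.mem g hg) h5
    have h10 : g / g₀ * (g₀ / (G.cp 1 (sg fl) * (G.toLD fl).ω c)) =
        g / (G.cp 1 (sg fl) * (G.toLD fl).ω c) := by
      field_simp
    rwa [h10] at h9
  have bz : ∀ c, (G.toLD fl).z c / (G.toLD fl).ω c ∈ R := by
    intro c
    have h4 := key c (G.cp 1 (sg fl) * G.zs (sg fl) c)
      (Finset.mem_union_left _ (Finset.mem_image.mpr ⟨sg fl, Finset.mem_univ _, rfl⟩))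
    rw [mul_div_mul_left _ _ hx0] at h4
    exact h4
  have bt : ∀ c j, cand b on (lamc G.lam c) j = true →
      (G.toLD fl).tt j / (G.toLD fl).ω c ∈ R := by
    intro c j hj
    obtain ⟨g, hg, h4, h5⟩ := (gen_sT fl b1 j hj).ex
    have h6 := key c g (Finset.mem_union_right _
      (Finset.mem_biUnion.mpr ⟨j, Finset.mem_filter.mpr ⟨Finset.mem_univ _, hj⟩, hg⟩))
    have h7 := R.mul_mem h4 h6
    have hω0 := (G.toLD fl).ω_ne_zero (G.hex c)
    have h8 : G.cp 1 (sg fl) * (G.toLD fl).tt j / g *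
        (g / (G.cp 1 (sg fl) * (G.toLD fl).ω c)) =
        (G.toLD fl).tt j / (G.toLD fl).ω c := by field_simp
    rwa [h8] at h7
  refine ⟨hR, b1, bz, bt, fun α => ?_⟩
  have hcmp := (gen_ssr fl b1 bz bt α).cmp_of_prin_union hR (gen_sP fl b1 _) (h3 α)
  have hsl := G.cp_ne (G.mL (Sum.inr α)) (sg fl)
  have h4 := hcmp.div_mem hR (mul_ne_zero hsl ((G.toLD fl).τ_ne_zero G.hex _)) hsl (by
    rw [map_mul]
    exact mul_le_of_le_one_right' ((G.toLD fl).vτ G.hex _))
  rwa [mul_div_cancel_left₀ _ hsl] at h4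

end Base

end Pool.Agent.H96.Y
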