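import Pool.Agent.H96.Y.LA

/-!
# The relations of a chart of a cover of a product: several elements
-/

set_option autoImplicit false
set_option linter.unusedSectionVars false

namespace Pool.Agent.H96.Y

open MvPolynomial IsLocalRing Pool.Agent.H96.Reg Pool.Agent.H96.VL Pool.Agent.H96.W
open Pool.Agent.H96.S (Va Ndg cond_t cond_f or_t of_or)
open Pool.Agent.H96.W2 (BX mem_BX zero_mem_BX single_mem_BX single_one_mem_BX neg_mem_BX)

variable {p : ℕ} [Fact p.Prime] {b : Bool} {K : Type} [Field K] [Algebra (ZMod p) K]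
  {V : ValuationSubring K} {I : Type} [Fintype I] [DecidableEq I] {A : I → Type}
  [∀ i, Fintype (A i)] [∀ i, DecidableEq (A i)] {d : I → ℕ} {on : I → Bool}
  {Z : Type} [Fintype Z] [DecidableEq Z] {lam : Z → I → ZMod p} {r : ℕ}
  {Nw : Fin r → ℕ} {M M' : ℕ} {L : LD p b V I A d on lam Nw M}

/-- The level of a vector: the size of the right hand side. -/
noncomputable def LD.lev (L : LD p b V I A d on lam Nw M) (l : I → ZMod p) : V.ValueGroup :=
  Finset.univ.sup fun i => open Classical in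
    if L.act i = true ∧ l i ≠ 0 then V.valuation (mon (L.t i) (L.e i)) else 0

theorem LD.le_lev (L : LD p b V I A d on lam Nw M) {l : I → ZMod p} {i : I} (h1 : L.act i = true)
    (h2 : l i ≠ 0) : V.valuation (mon (L.t i) (L.e i)) ≤ L.lev l := by
  classical
  have h := Finset.le_sup (f := fun i => if L.act i = true ∧ l i ≠ 0 then
    V.valuation (mon (L.t i) (L.e i)) else 0) (Finset.mem_univ i)
  have h3 : (if L.act i = true ∧ l i ≠ 0 then V.valuation (mon (L.t i) (L.e i)) else 0) =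
    V.valuation (mon (L.t i) (L.e i)) := if_pos ⟨h1, h2⟩
  have h4 : (if L.act i = true ∧ l i ≠ 0 then V.valuation (mon (L.t i) (L.e i)) else 0) ≤ _ := h
  rw [h3] at h4
  rw [LD.lev]
  convert h4

theorem LD.lev_le (L : LD p b V I A d on lam Nw M) {l : I → ZMod p} {δ : V.ValueGroup}
    (h : ∀ i, L.act i = true → l i ≠ 0 → V.valuation (mon (L.t i) (L.e i)) ≤ δ) :
    L.lev l ≤ δ := by
  classical
  refine Finset.sup_le fun i _ => ?_
  split_ifs with h1
  · exact h i h1.1 h1.2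
  · exact zero_le

theorem LD.Dom.lev_eq {c : Z} {i : I} (h : L.Dom c i) :
    V.valuation (mon (L.t i) (L.e i)) = L.lev (lam c) :=
  le_antisymm (L.le_lev h.act h.ne) (L.lev_le fun j hj hl => h.max j (or_t (Or.inr hj)) hl)

/-- An adapted basis of the vectors. -/
structure Adp (L : LD p b V I A d on lam Nw M) where
  bas : Z → Prop
  rho : Z → Z → ZMod p
  zrho : ∀ c, ¬ bas c → L.z c = ∑ c', algebraMap (ZMod p) K (rho c c') * L.z c'
  rbas : ∀ c c', rho c c' ≠ 0 → bas c'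
  dom : ∀ c c', rho c c' ≠ 0 → V.valuation (L.ω c') ≤ V.valuation (L.ω c)
  ind : ∀ (γ : V.ValueGroup) (a : Z → ZMod p), (∀ c, a c ≠ 0 → bas c ∧ L.lev (lam c) = γ) →
    (∀ i, L.act i = true → V.valuation (mon (L.t i) (L.e i)) = γ → ∑ c, a c * lam c i = 0) →
    ∀ c, L.lev (lam c) = γ → L.lev (lam c) ≠ 0 → a c = 0

/-- The other variables. -/
abbrev LD.υ (L : LD p b V I A d on lam Nw M) : Type := (Σ i : I, Va (L.n i) (d i)) ⊕ Z

/-- Their values. -/
noncomputable def LD.Y (L : LD p b V I A d on lam Nw M) : L.υ → K :=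
  Sum.elim (fun s => L.y s.1 s.2) fun c => L.z c / L.ω c

theorem LD.Y_inl (L : LD p b V I A d on lam Nw M) (i : I) (s : Va (L.n i) (d i)) :
    L.Y (Sum.inl ⟨i, s⟩) = L.y i s := rfl

theorem LD.Y_z (L : LD p b V I A d on lam Nw M) (c : Z) : L.Y (Sum.inr c) = L.z c / L.ω c := rfl

theorem LD.vY (L : LD p b V I A d on lam Nw M) (hex : ∀ c, ∃ j, cand b on (lam c) j = true)
    (l : L.υ) : V.valuation (L.Y l) ≤ 1 := by
  rcases l with ⟨i, s⟩ | c
  · exact L.vy i s
  · have h : 0 < V.valuation (L.ω c) := by rw [Valuation.pos_iff]; exact L.ω_ne_zero (hex c)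
    show V.valuation (L.z c / L.ω c) ≤ 1
    rw [map_div₀]
    exact (div_le_one₀ h).mpr (L.vz_le c)

theorem LD.Y_mul (L : LD p b V I A d on lam Nw M) {c : Z}
    (hex : ∃ j, cand b on (lam c) j = true) :
    L.Y (Sum.inr c) * L.ω c = L.z c := div_mul_cancel₀ _ (L.ω_ne_zero hex)

theorem LD.Y_isZ (L : LD p b V I A d on lam Nw M) {c : Z}
    (hex : ∃ j, cand b on (lam c) j = true) (hz : L.isZ c) :
    L.Y (Sum.inr c) = 1 := by
  rw [L.Y_z, ← L.ω_isZ hz, div_self (L.ω_ne_zero hex)]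

/-- The terms. -/
abbrev Ts (I Z : Type) : Type := I ⊕ (Z ⊕ Bool)

theorem sum_Ts {β : Type} [AddCommMonoid β] (g : Ts I Z → β) : ∑ s, g s =
    ∑ i, g (Sum.inl i) + (∑ c, g (Sum.inr (Sum.inl c)) +
      (g (Sum.inr (Sum.inr true)) + g (Sum.inr (Sum.inr false)))) := by
  rw [Fintype.sum_sum_type, Fintype.sum_sum_type, Fintype.sum_bool]

/-- The other exponent of `ω`. -/
noncomputable def LD.θ (L : LD p b V I A d on lam Nw M) (c : Z) : Ix A Z r → ℤ :=
  (L.piv c).elim 0 fun j => LD.ex j L.β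

theorem LD.mon_θ (L : LD p b V I A d on lam Nw M) {c : Z} (hz : ¬ L.isZ c) :
    mon L.τ (L.θ c) = L.ω c := by
  rw [L.ω_not hz, LD.θ]
  cases L.piv c with
  | none => exact mon_zero
  | some j => exact L.mon_ex j L.β

section Defs

variable (L)

/-- Two terms. -/
def two {α : Type} [Zero α] (x y : α) : Ts I Z → α :=
  Sum.elim (fun _ => 0) (Sum.elim (fun _ => 0) fun c => cond c x y)

theorem two_i {α : Type} [Zero α] {x y : α} (i : I) : (two x y : Ts I Z → α) (Sum.inl i) = 0 := rfl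

theorem two_z {α : Type} [Zero α] {x y : α} (c : Z) :
    (two x y : Ts I Z → α) (Sum.inr (Sum.inl c)) = 0 := rfl

theorem two_t {α : Type} [Zero α] {x y : α} :
    (two x y : Ts I Z → α) (Sum.inr (Sum.inr true)) = x := rfl

theorem two_f {α : Type} [Zero α] {x y : α} :
    (two x y : Ts I Z → α) (Sum.inr (Sum.inr false)) = y := rfl

/-- The relations of the colours. -/
noncomputable def LD.cI (s : Σ i, A i) : Ts I Z → MvPolynomial L.υ (ZMod p) :=
  two 1 ((L.l s.1 s.2).elim (-1) fun x => -X (Sum.inl ⟨s.1, Sum.inr x⟩))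

def LD.xI (_L : LD p b V I A d on lam Nw M) (s : Σ i, A i) : Ts I Z → Ix A Z r → ℤ :=
  two (Pi.single (Sum.inl s) 1) 0

/-- The relations of the factors. -/
noncomputable def LD.cG (i : I) (j : Fin (L.n i)) : Ts I Z → MvPolynomial L.υ (ZMod p) :=
  two 0 (rename (fun s => Sum.inl ⟨i, s⟩) (L.G i j))

/-- The relation of the coordinate `ω`. -/
noncomputable def LD.cP (c : Z) : Ts I Z → MvPolynomial L.υ (ZMod p) :=
  open Classical in if L.isZ c then two (X (Sum.inr c)) (-1) else two 1 (-1)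

noncomputable def LD.xP (c : Z) : Ts I Z → Ix A Z r → ℤ :=
  open Classical in if L.isZ c then fun _ => 0 else two (LD.Ez A r M c) (L.θ c)

/-- The main relation. -/
noncomputable def LD.cJ (c : Z) : Ts I Z → MvPolynomial L.υ (ZMod p) :=
  Sum.elim (fun i => cond (b || L.act i) (-(C (lam c i) * X (Sum.inl ⟨i, L.u i⟩))) 0)
    (Sum.elim (fun _ => 0) fun c' =>
      cond c' (X (Sum.inr c) ^ p) (cond b (-X (Sum.inr c)) 0))

def LD.xJ (c : Z) : Ts I Z → Ix A Z r → ℤ :=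
  Sum.elim (fun i => LD.ex i L.e) (Sum.elim (fun _ => 0) fun c' =>
    cond c' ((p : ℤ) • LD.Ez A r M c) (LD.Ez A r M c))

/-- The Kummer relations. -/
noncomputable def LD.cW (c : Fin r) : Ts I Z → MvPolynomial L.υ (ZMod p) :=
  two 1 (-∏ i, X (Sum.inl ⟨i, L.q i c⟩))

def LD.xW (c : Fin r) : Ts I Z → Ix A Z r → ℤ :=
  two ((Nw c : ℤ) • LD.Ew A Z M c) (Sum.elim (fun s => L.κ s.1 c s.2) 0)

variable {L}

/-- The linear relations. -/
noncomputable def Adp.cN (S : Adp L) (c : Z) : Ts I Z → MvPolynomial L.υ (ZMod p) :=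
  Sum.elim (fun _ => 0) (Sum.elim (fun c' => -(C (S.rho c c') * X (Sum.inr c')))
    fun c' => cond c' (X (Sum.inr c)) 0)

def Adp.xN (_S : Adp L) (c : Z) : Ts I Z → Ix A Z r → ℤ :=
  Sum.elim (fun _ => 0) (Sum.elim (fun c' => LD.Ez A r M c') fun _ => LD.Ez A r M c)

/-- The second relation. -/
noncomputable def Adp.cQ (S : Adp L) (c : Z) : Ts I Z → MvPolynomial L.υ (ZMod p) :=
  open Classical in if S.bas c then L.cJ c else S.cN c

noncomputable def Adp.xQ (S : Adp L) (c : Z) : Ts I Z → Ix A Z r → ℤ :=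
  open Classical in if S.bas c then L.xJ c else S.xN c

theorem cJ_i (c : Z) (i : I) : L.cJ c (Sum.inl i) =
    cond (b || L.act i) (-(C (lam c i) * X (Sum.inl ⟨i, L.u i⟩))) 0 := rfl

theorem cJ_z (c c' : Z) : L.cJ c (Sum.inr (Sum.inl c')) = 0 := rfl

theorem cJ_t (c : Z) : L.cJ c (Sum.inr (Sum.inr true)) = X (Sum.inr c) ^ p := rfl

theorem cJ_f (c : Z) : L.cJ c (Sum.inr (Sum.inr false)) = cond b (-X (Sum.inr c)) 0 := rfl

theorem xJ_i (c : Z) (i : I) : L.xJ c (Sum.inl i) = LD.ex i L.e := rfl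

theorem xJ_z (c c' : Z) : L.xJ c (Sum.inr (Sum.inl c')) = 0 := rfl

theorem xJ_t (c : Z) : L.xJ c (Sum.inr (Sum.inr true)) = (p : ℤ) • LD.Ez A r M c := rfl

theorem xJ_f (c : Z) : L.xJ c (Sum.inr (Sum.inr false)) = LD.Ez A r M c := rfl

theorem cN_i (S : Adp L) (c : Z) (i : I) : S.cN c (Sum.inl i) = 0 := rfl

theorem cN_z (S : Adp L) (c c' : Z) : S.cN c (Sum.inr (Sum.inl c')) =
    -(C (S.rho c c') * X (Sum.inr c')) := rfl

theorem cN_t (S : Adp L) (c : Z) : S.cN c (Sum.inr (Sum.inr true)) = X (Sum.inr c) := rfl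

theorem cN_f (S : Adp L) (c : Z) : S.cN c (Sum.inr (Sum.inr false)) = 0 := rfl

theorem xN_i (S : Adp L) (c : Z) (i : I) : S.xN c (Sum.inl i) = 0 := rfl

theorem xN_z (S : Adp L) (c c' : Z) : S.xN c (Sum.inr (Sum.inl c')) = LD.Ez A r M c' := rfl

theorem xN_t (S : Adp L) (c : Z) (c' : Bool) :
    S.xN c (Sum.inr (Sum.inr c')) = LD.Ez A r M c := rfl

end Defs

section Rel

theorem sum_two {y : L.υ → K} (a b' : MvPolynomial L.υ (ZMod p)) (u v : Ix A Z r → ℤ) :
    ∑ s, aeval y ((two a b' : Ts I Z → _) s) * mon L.τ ((two u v : Ts I Z → _) s) =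
      aeval y a * mon L.τ u + aeval y b' * mon L.τ v := by
  rw [sum_Ts]
  simp only [two_i, two_z, two_t, two_f, map_zero, zero_mul, Finset.sum_const_zero, zero_add]

variable (hex : ∀ c, ∃ j, cand b on (lam c) j = true)

theorem rel_I (s : Σ i, A i) : ∑ c, aeval L.Y (L.cI s c) * mon L.τ (L.xI s c) = 0 := by
  rw [LD.cI, LD.xI, sum_two, map_one, one_mul, mon_zero, mul_one, mon_single, L.τ_a]
  cases h : L.l s.1 s.2 with
  | none =>
    show L.t s.1 s.2 + aeval L.Y (-1 : MvPolynomial L.υ (ZMod p)) = 0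
    rw [L.l0 _ _ h, map_neg, map_one]; ring
  | some x =>
    show L.t s.1 s.2 + aeval L.Y (-X (Sum.inl ⟨s.1, Sum.inr x⟩) : MvPolynomial L.υ (ZMod p)) = 0
    rw [map_neg, aeval_X, L.Y_inl, (L.l1 _ _ _ h).2.2]; ring

theorem rel_G (i : I) (j : Fin (L.n i)) :
    ∑ s, aeval L.Y (L.cG i j s) * mon L.τ ((0 : Ts I Z → Ix A Z r → ℤ) s) = 0 := by
  rw [sum_Ts, LD.cG]
  simp only [two_i, two_z, two_t, two_f, map_zero, zero_mul,
    Finset.sum_const_zero, zero_add]
  rw [aeval_rename]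
  have : aeval (L.Y ∘ fun s => Sum.inl ⟨i, s⟩) (L.G i j) = 0 := L.rel i j
  rw [this, zero_mul]

include hex in
theorem rel_P (c : Z) : ∑ s, aeval L.Y (L.cP c s) * mon L.τ (L.xP c s) = 0 := by
  classical
  by_cases hc : L.isZ c
  · rw [sum_Ts]
    simp only [LD.cP, LD.xP, if_pos hc, two_i, two_z, two_t, two_f, map_zero, zero_mul,
      Finset.sum_const_zero, zero_add]
    rw [mon_zero, aeval_X, map_neg, map_one, mul_one, mul_one, L.Y_isZ (hex c) hc]
    ring
  · simp only [LD.cP, LD.xP, if_neg hc]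
    rw [sum_two, map_one, one_mul, L.mon_Ez, L.mon_θ hc, map_neg, map_one]; ring

theorem relJ_i (c : Z) (i : I) : aeval L.Y (L.cJ c (Sum.inl i)) * mon L.τ (L.xJ c (Sum.inl i)) =
    -(algebraMap (ZMod p) K (lam c i) *
      cond (b || L.act i) (L.y i (L.u i) * mon (L.t i) (L.e i)) 0) := by
  rw [cJ_i, xJ_i, L.mon_ex]
  rcases Bool.eq_false_or_eq_true (b || L.act i) with h | h
  · rw [cond_t h, cond_t h, map_neg, map_mul, aeval_C, aeval_X, L.Y_inl]; ring
  · rw [cond_f h, cond_f h, map_zero, zero_mul, mul_zero, neg_zero]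

include hex in
theorem relJ_t (c : Z) : aeval L.Y (L.cJ c (Sum.inr (Sum.inr true))) *
    mon L.τ (L.xJ c (Sum.inr (Sum.inr true))) = L.z c ^ p := by
  rw [cJ_t, xJ_t, map_pow, aeval_X, mon_smul, L.mon_Ez, zpow_natCast, ← mul_pow, L.Y_mul (hex c)]

include hex in
theorem relJ_f (c : Z) : aeval L.Y (L.cJ c (Sum.inr (Sum.inr false))) *
    mon L.τ (L.xJ c (Sum.inr (Sum.inr false))) = -cond b (L.z c) 0 := by
  rw [cJ_f, xJ_f, L.mon_Ez]
  rcases Bool.eq_false_or_eq_true b with h | h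
  · rw [cond_t h, cond_t h, map_neg, aeval_X, neg_mul, L.Y_mul (hex c)]
  · rw [cond_f h, cond_f h, map_zero, zero_mul, neg_zero]

include hex in
theorem rel_J (c : Z) : ∑ s, aeval L.Y (L.cJ c s) * mon L.τ (L.xJ c s) = 0 := by
  rw [sum_Ts, Finset.sum_congr rfl fun i _ => relJ_i c i, relJ_t hex c, relJ_f hex c,
    Finset.sum_neg_distrib, ← L.AS c, Finset.sum_eq_zero fun c' _ => by
      rw [cJ_z, map_zero, zero_mul]]
  ring

theorem rel_W (c : Fin r) : ∑ s, aeval L.Y (L.cW c s) * mon L.τ (L.xW c s) = 0 := by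
  rw [LD.cW, LD.xW, sum_two, map_one, one_mul]
  rw [mon_smul, L.mon_Ew, zpow_natCast, L.KM, L.mon_κ, map_neg, map_prod, Finset.prod_mul_distrib]
  have h1 : ∏ i, aeval L.Y (X (Sum.inl ⟨i, L.q i c⟩) : MvPolynomial L.υ (ZMod p)) =
      ∏ i, L.y i (L.q i c) := Finset.prod_congr rfl fun i _ => by rw [aeval_X]; rfl
  rw [h1]; ring

variable (S : Adp L)

include hex in
theorem relN_z (c c' : Z) : aeval L.Y (S.cN c (Sum.inr (Sum.inl c'))) *
    mon L.τ (S.xN c (Sum.inr (Sum.inl c'))) =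
      -(algebraMap (ZMod p) K (S.rho c c') * L.z c') := by
  rw [cN_z, xN_z, L.mon_Ez, map_neg, map_mul, aeval_C, aeval_X, neg_mul, mul_assoc,
    L.Y_mul (hex c')]

include hex in
theorem rel_N {c : Z} (hc : ¬ S.bas c) :
    ∑ s, aeval L.Y (S.cN c s) * mon L.τ (S.xN c s) = 0 := by
  rw [sum_Ts, Finset.sum_eq_zero fun i _ => by rw [cN_i, map_zero, zero_mul],
    Finset.sum_congr rfl fun c' _ => relN_z hex S c c', cN_t, xN_t, cN_f, map_zero, zero_mul,
    aeval_X, L.mon_Ez, L.Y_mul (hex c), Finset.sum_neg_distrib, ← S.zrho c hc]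
  ring

include hex in
theorem rel_Q (c : Z) : ∑ s, aeval L.Y (S.cQ c s) * mon L.τ (S.xQ c s) = 0 := by
  classical
  by_cases hc : S.bas c
  · rw [Adp.cQ, Adp.xQ, if_pos hc, if_pos hc]
    exact rel_J hex c
  · rw [Adp.cQ, Adp.xQ, if_neg hc, if_neg hc]
    exact rel_N hex S hc

end Rel

/-- The chart. -/
structure Cx (L : LD p b V I A d on lam Nw M) (M' : ℕ) (C : Cone (Ix A Z r)) : Prop where
  hex : ∀ c, ∃ j, cand b on (lam c) j = true
  hC : IsCone C
  hb : ∀ j, V.valuation (mon L.τ (C.b j)) ≤ 1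
  hS : ∀ u ∈ BX (Ix A Z r) M', ∀ u' ∈ BX (Ix A Z r) M', Sgn C (u - u')
  hM : p * M ≤ M'
  hp : p ≤ M'
  hN : ∀ c, Nw c ≤ M' ∧ Nw c * M ≤ M'

section Mem

variable {C : Cone (Ix A Z r)}

theorem Cx.one_le (h : Cx L M' C) : 1 ≤ M' := (Fact.out : p.Prime).one_le.trans h.hp

theorem Cx.M_le (h : Cx L M' C) : M ≤ M' :=
  (Nat.le_mul_of_pos_left _ (Fact.out : p.Prime).pos).trans h.hM

theorem Cx.τ0 (h : Cx L M' C) (α : Ix A Z r) : L.τ α ≠ 0 := L.τ_ne_zero h.hex α

theorem ex_mem (h : Cx L M' C) {e : ∀ i, A i → ℤ} (he : ∀ i a, |e i a| ≤ M) (i : I) :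
    (LD.ex i e : Ix A Z r → ℤ) ∈ BX (Ix A Z r) M' := by
  rw [mem_BX]
  rintro (s | u)
  · show |if s.1 = i then e s.1 s.2 else 0| ≤ _
    split_ifs
    · exact (he _ _).trans (by exact_mod_cast h.M_le)
    · rw [abs_zero]; positivity
  · show |(0 : ℤ)| ≤ _
    rw [abs_zero]; positivity

theorem smul_Ez_mem (h : Cx L M' C) {n : ℕ} (hn : n ≤ p) (c : Z) :
    (n : ℤ) • LD.Ez A r M c ∈ BX (Ix A Z r) M' := by
  rw [mem_BX]
  rintro (s | c' | j)
  · show |(n : ℤ) * (-(M : ℤ))| ≤ _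
    rw [mul_neg, abs_neg, ← Nat.cast_mul, Nat.abs_cast]
    exact_mod_cast (Nat.mul_le_mul_right _ hn).trans h.hM
  · show |(n : ℤ) * (Pi.single c 1 : Z → ℤ) c'| ≤ _
    rw [Pi.single_apply]
    split_ifs
    · rw [mul_one, Nat.abs_cast]
      exact_mod_cast hn.trans h.hp
    · rw [mul_zero, abs_zero]; positivity
  · show |(n : ℤ) * 0| ≤ _
    rw [mul_zero, abs_zero]; positivity

theorem Ez_mem (h : Cx L M' C) (c : Z) : LD.Ez A r M c ∈ BX (Ix A Z r) M' := by
  have := smul_Ez_mem h (n := 1) (Fact.out : p.Prime).one_le c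
  rwa [Nat.cast_one, one_smul] at this

theorem θ_mem (h : Cx L M' C) (c : Z) : L.θ c ∈ BX (Ix A Z r) M' := by
  rw [LD.θ]
  cases L.piv c with
  | none => exact zero_mem_BX
  | some j => exact ex_mem h L.βM j

theorem two_mem {u v : Ix A Z r → ℤ} (hu : u ∈ BX (Ix A Z r) M') (hv : v ∈ BX (Ix A Z r) M')
    (s : Ts I Z) : (two u v : Ts I Z → _) s ∈ BX (Ix A Z r) M' := by
  rcases s with c | c | _ | _
  · exact zero_mem_BX
  · exact zero_mem_BX
  · exact hv
  · exact hu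

theorem xI_mem (h : Cx L M' C) (s : Σ i, A i) (c : Ts I Z) : L.xI s c ∈ BX (Ix A Z r) M' :=
  two_mem (single_one_mem_BX _ h.one_le) zero_mem_BX c

theorem xP_mem (h : Cx L M' C) (c : Z) (s : Ts I Z) : L.xP c s ∈ BX (Ix A Z r) M' := by
  classical
  rw [LD.xP]
  split_ifs with hc
  · exact zero_mem_BX
  · exact two_mem (Ez_mem h c) (θ_mem h c) s

theorem xJ_mem (h : Cx L M' C) (c : Z) (s : Ts I Z) : L.xJ c s ∈ BX (Ix A Z r) M' := by
  rcases s with i | c' | _ | _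
  · exact ex_mem h L.eM i
  · exact zero_mem_BX
  · exact Ez_mem h c
  · exact smul_Ez_mem h le_rfl c

theorem xN_mem (h : Cx L M' C) (S : Adp L) (c : Z) (s : Ts I Z) :
    S.xN c s ∈ BX (Ix A Z r) M' := by
  rcases s with i | c' | _ | _
  · exact zero_mem_BX
  · exact Ez_mem h c'
  · exact Ez_mem h c
  · exact Ez_mem h c

theorem xQ_mem (h : Cx L M' C) (S : Adp L) (c : Z) (s : Ts I Z) :
    S.xQ c s ∈ BX (Ix A Z r) M' := by
  classical
  rw [Adp.xQ]
  split_ifs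
  · exact xJ_mem h c s
  · exact xN_mem h S c s

theorem xW_mem (h : Cx L M' C) (c : Fin r) (s : Ts I Z) : L.xW c s ∈ BX (Ix A Z r) M' := by
  refine two_mem ?_ ?_ s
  · rw [mem_BX]
    obtain ⟨h1, h2⟩ := h.hN c
    rintro (s | u | c')
    · show |(Nw c : ℤ) * (-(M : ℤ))| ≤ _
      rw [mul_neg, abs_neg, ← Nat.cast_mul, Nat.abs_cast]
      exact_mod_cast h2
    · show |(Nw c : ℤ) * 0| ≤ _
      rw [mul_zero, abs_zero]; positivity
    · show |(Nw c : ℤ) * (Pi.single c 1 : Fin r → ℤ) c'| ≤ _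
      rw [Pi.single_apply]
      split_ifs
      · rw [mul_one, Nat.abs_cast]
        exact_mod_cast h1
      · rw [mul_zero, abs_zero]; positivity
  · rw [mem_BX]
    rintro (s | c')
    · exact (L.κM s.1 c s.2).trans (by exact_mod_cast h.M_le)
    · show |(0 : ℤ)| ≤ _
      rw [abs_zero]; positivity

end Mem

end Pool.Agent.H96.Y
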