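import Pool.Agent.H96.S.LC
import Pool.Agent.H96.Y.LB

/-!
# The differentials of the relations of a chart: several elements
-/

set_option autoImplicit false
set_option linter.unusedSectionVars false

namespace Pool.Agent.H96.Y

open MvPolynomial IsLocalRing Pool.Agent.H96.Reg Pool.Agent.H96.VL Pool.Agent.H96.W
open Pool.Agent.H96.S (Va Ndg cond_t cond_f or_t of_or zc0 zc_ne)
open Pool.Agent.H96.W2 (BX mem_BX zero_mem_BX single_mem_BX single_one_mem_BX neg_mem_BX)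

variable {p : ℕ} [Fact p.Prime] {b : Bool} {K : Type} [Field K] [Algebra (ZMod p) K]
  {V : ValuationSubring K} {I : Type} [Fintype I] [DecidableEq I] {A : I → Type}
  [∀ i, Fintype (A i)] [∀ i, DecidableEq (A i)] {d : I → ℕ} {on : I → Bool}
  {Z : Type} [Fintype Z] [DecidableEq Z] {lam : Z → I → ZMod p} {r : ℕ}
  {Nw : Fin r → ℕ} {M M' : ℕ} {L : LD p b V I A d on lam Nw M}
  [Algebra (ZMod p) (ResidueField V)] {C : Cone (Ix A Z r)}

section RI

theorem cI_i (s : Σ i, A i) (i : I) : L.cI s (Sum.inl i) = 0 := rfl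

theorem cI_z (s : Σ i, A i) (c : Z) : L.cI s (Sum.inr (Sum.inl c)) = 0 := rfl

theorem cI_t (s : Σ i, A i) : L.cI s (Sum.inr (Sum.inr true)) = 1 := rfl

theorem cI_f (s : Σ i, A i) : L.cI s (Sum.inr (Sum.inr false)) =
    (L.l s.1 s.2).elim (-1) fun x => -X (Sum.inl ⟨s.1, Sum.inr x⟩) := rfl

theorem xI_i (s : Σ i, A i) (i : I) : L.xI s (Sum.inl i) = 0 := rfl

theorem xI_z (s : Σ i, A i) (c : Z) : L.xI s (Sum.inr (Sum.inl c)) = 0 := rfl

theorem xI_t (s : Σ i, A i) : L.xI s (Sum.inr (Sum.inr true)) = Pi.single (Sum.inl s) 1 := rfl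

theorem xI_f (s : Σ i, A i) : L.xI s (Sum.inr (Sum.inr false)) = 0 := rfl

theorem LL_I_none (h : Cx L M' C) {s : Σ i, A i} (hs : L.l s.1 s.2 = none) :
    LL V L.τ L.Y C (L.cI s) (L.xI s) (Sum.inl s) ≠ 0 := by
  classical
  refine LL_ne_zero (Sum.inr (Sum.inr true)) ?_ ?_ ?_ ?_
  · rintro (c | c | _ | _) hc
    · exact Or.inl (cI_i s c)
    · exact Or.inl (cI_z s c)
    · exact Or.inr (Or.inr (zc0 V))
    · exact absurd rfl hc
  · rw [cI_t, map_one]; exact one_ne_zero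
  · refine ee_ne_zero h.τ0 h.hC h.hb
      (fun c _ c' _ => h.hS _ (xI_mem h s c) _ (xI_mem h s c'))
      (by rw [cI_t]; exact one_ne_zero) ?_
    rintro (c | c | _ | _) hc
    · exact absurd (cI_i s c) hc
    · exact absurd (cI_z s c) hc
    · rw [xI_f, xI_t, mon_zero, mon_single, L.τ_a, L.l0 _ _ hs]
    · exact le_rfl
  · rw [xI_t, Pi.single_eq_same, Int.cast_one]
    exact one_ne_zero

theorem LL_I_of_ne {s : Σ i, A i} {α : Ix A Z r} (hα : α ≠ Sum.inl s) :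
    LL V L.τ L.Y C (L.cI s) (L.xI s) α = 0 := by
  apply LL_eq_zero
  rintro (c | c | _ | _)
  · exact Or.inl (cI_i s c)
  · exact Or.inl (cI_z s c)
  · exact Or.inr (Or.inr (zc0 V))
  · right; right
    rw [xI_t, Pi.single_eq_of_ne hα, Int.cast_zero]

theorem cI_false_ne (s : Σ i, A i) : L.cI s (Sum.inr (Sum.inr false)) ≠ 0 := by
  rw [cI_f]
  cases L.l s.1 s.2 with
  | none => exact neg_ne_zero.mpr one_ne_zero
  | some x => exact neg_ne_zero.mpr (X_ne_zero _)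

theorem vt_lt {i : I} {a : A i} (ha : L.l i a ≠ none) : V.valuation (L.t i a) < 1 := by
  cases h : L.l i a with
  | none => exact absurd h ha
  | some c => exact (L.l1 i a c h).1

theorem LL_I_some (h : Cx L M' C) {s : Σ i, A i} (hs : L.l s.1 s.2 ≠ none) (α : Ix A Z r) :
    LL V L.τ L.Y C (L.cI s) (L.xI s) α = 0 := by
  apply LL_eq_zero
  rintro (c | c | _ | _)
  · exact Or.inl (cI_i s c)
  · exact Or.inl (cI_z s c)
  · exact Or.inr (Or.inr (zc0 V))
  · right; left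
    refine ee_eq_zero h.τ0 h.hC h.hb
      (fun c _ c' _ => h.hS _ (xI_mem h s c) _ (xI_mem h s c'))
      (by rw [cI_t]; exact one_ne_zero) (cI_false_ne s) ?_
    rw [xI_t, xI_f, mon_zero, mon_single, L.τ_a, map_one]
    exact vt_lt hs

theorem pderiv_one' (l : L.υ) : pderiv l (1 : MvPolynomial L.υ (ZMod p)) = 0 := by
  rw [← MvPolynomial.C_1, pderiv_C]

theorem pderiv_neg_one' (l : L.υ) : pderiv l (-1 : MvPolynomial L.υ (ZMod p)) = 0 := by
  rw [map_neg, pderiv_one', neg_zero]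

theorem TT_I_none {s : Σ i, A i} (hs : L.l s.1 s.2 = none) (l : L.υ) :
    TT V L.τ L.Y C (L.cI s) (L.xI s) l = 0 := by
  apply TT_eq_zero
  rintro (c | c | _ | _)
  · rw [cI_i, map_zero]
  · rw [cI_z, map_zero]
  · rw [cI_f, hs]
    exact pderiv_neg_one' l
  · rw [cI_t, pderiv_one']

theorem TT_I_some (h : Cx L M' C) {s : Σ i, A i} {x : Fin (d s.1)} (hs : L.l s.1 s.2 = some x) :
    ∃ w : ResidueField V, w ≠ 0 ∧
    ∀ l, TT V L.τ L.Y C (L.cI s) (L.xI s) l = if l = Sum.inl ⟨s.1, Sum.inr x⟩ then w else 0 := by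
  classical
  have hs' : L.l s.1 s.2 ≠ none := by rw [hs]; exact Option.some_ne_none x
  refine ⟨-ee V L.τ C (mrel C (L.cI s) (L.xI s)) (Sum.inr (Sum.inr false)), neg_ne_zero.mpr ?_,
    fun l => ?_⟩
  · refine ee_ne_zero h.τ0 h.hC h.hb
      (fun c _ c' _ => h.hS _ (xI_mem h s c) _ (xI_mem h s c'))
      (cI_false_ne s) ?_
    rintro (c | c | _ | _) hc
    · exact absurd (cI_i s c) hc
    · exact absurd (cI_z s c) hc
    · exact le_rfl
    · rw [xI_t, xI_f, mon_zero, mon_single, L.τ_a, map_one]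
      exact (vt_lt hs').le
  · rw [TT_eq_single (Sum.inr (Sum.inr false))]
    · have h1 : L.cI s (Sum.inr (Sum.inr false)) = -X (Sum.inl ⟨s.1, Sum.inr x⟩) := by
        rw [cI_f, hs]
        rfl
      rw [h1, map_neg, pderiv_X, Pi.single_apply]
      by_cases hl : l = Sum.inl ⟨s.1, Sum.inr x⟩
      · rw [if_pos hl.symm, if_pos hl, map_neg, map_one, neg_one_mul]
      · rw [if_neg (Ne.symm hl), if_neg hl, neg_zero, map_zero, zero_mul]
    · rintro (c | c | _ | _) hc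
      · rw [cI_i, map_zero]
      · rw [cI_z, map_zero]
      · exact absurd rfl hc
      · rw [cI_t, pderiv_one']

theorem TT_I_of (h : Cx L M' C) (s : Σ i, A i) {l : L.υ}
    (hl : ∀ x, L.l s.1 s.2 = some x → l ≠ Sum.inl ⟨s.1, Sum.inr x⟩) :
    TT V L.τ L.Y C (L.cI s) (L.xI s) l = 0 := by
  cases hs : L.l s.1 s.2 with
  | none => exact TT_I_none hs l
  | some x =>
    obtain ⟨w, -, hw⟩ := TT_I_some (L := L) h hs
    rw [hw, if_neg (hl x hs)]

end RI

section RG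

theorem LL_0 (c : Ts I Z → MvPolynomial L.υ (ZMod p)) (α : Ix A Z r) :
    LL V L.τ L.Y C c 0 α = 0 := by
  apply LL_eq_zero
  intro s
  exact Or.inr (Or.inr (zc0 V))

theorem TT_G (i : I) (j : Fin (L.n i)) (l : L.υ) :
    TT V L.τ L.Y C (L.cG i j) 0 l = aeval (fun l => resv V (L.Y l))
      (pderiv l (rename (fun s => Sum.inl ⟨i, s⟩) (L.G i j) : MvPolynomial L.υ (ZMod p))) := by
  classical
  rw [TT_eq_single (Sum.inr (Sum.inr false))]
  · have h1 : L.cG i j (Sum.inr (Sum.inr false)) = rename (fun s => Sum.inl ⟨i, s⟩) (L.G i j) :=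
      rfl
    by_cases h2 : L.cG i j (Sum.inr (Sum.inr false)) = 0
    · rw [← h1, h2, map_zero, map_zero, zero_mul]
    · have he : ee V L.τ C (mrel C (L.cG i j) 0) (Sum.inr (Sum.inr false)) = 1 :=
        ee_eq_one (fun s _ => rfl) h2
      rw [he, mul_one, h1]
  · rintro (s | s | _ | _) hs
    · exact map_zero _
    · exact map_zero _
    · exact absurd rfl hs
    · exact map_zero _

theorem TT_G_same (i : I) (j : Fin (L.n i)) (s : Va (L.n i) (d i)) :
    TT V L.τ L.Y C (L.cG i j) 0 (Sum.inl ⟨i, s⟩ : L.υ) =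
      aeval (fun s => resv V (L.y i s)) (pderiv s (L.G i j)) := by
  have hinj : Function.Injective (fun s : Va (L.n i) (d i) => (Sum.inl ⟨i, s⟩ : L.υ)) := by
    intro s s' hss
    simpa using hss
  have h1 := pderiv_rename hinj s (L.G i j)
  rw [TT_G]
  have h2 : pderiv (Sum.inl ⟨i, s⟩ : L.υ) (rename (fun s => Sum.inl ⟨i, s⟩) (L.G i j)) =
      rename (fun s => Sum.inl ⟨i, s⟩) (pderiv s (L.G i j)) := h1
  rw [h2, aeval_rename]
  rfl

theorem TT_G_of_notMem (i : I) (j : Fin (L.n i)) (l : L.υ) (hl : ∀ s, l ≠ Sum.inl ⟨i, s⟩) :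
    TT V L.τ L.Y C (L.cG i j) 0 l = 0 := by
  rw [TT_G, pderiv_eq_zero_of_notMem_vars, map_zero]
  intro h
  obtain ⟨s, -, hs⟩ := mem_vars_rename _ _ h
  exact hl s hs.symm

end RG

section RP

variable {c : Z}

theorem cP_isZ (hc : L.isZ c) : L.cP c = two (X (Sum.inr c)) (-1) := if_pos hc

theorem cP_not (hc : ¬ L.isZ c) : L.cP c = two 1 (-1) := if_neg hc

theorem xP_isZ (hc : L.isZ c) : L.xP c = fun _ => 0 := if_pos hc

theorem xP_not (hc : ¬ L.isZ c) : L.xP c = two (LD.Ez A r M c) (L.θ c) := if_neg hc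

theorem LL_P_isZ (hc : L.isZ c) (α : Ix A Z r) :
    LL V L.τ L.Y C (L.cP c) (L.xP c) α = 0 := by
  apply LL_eq_zero
  intro s
  right; right
  rw [xP_isZ hc]
  exact zc0 V

theorem θ_inr (α : Z ⊕ Fin r) : L.θ c (Sum.inr α) = 0 := by
  rw [LD.θ]
  cases L.piv c with
  | none => rfl
  | some j => rfl

theorem Ez_z (c c' : Z) : (LD.Ez A r M c) (Sum.inr (Sum.inl c')) = if c' = c then 1 else 0 := by
  show (Pi.single c 1 : Z → ℤ) c' = _
  rw [Pi.single_apply]

theorem Ez_w (c : Z) (j : Fin r) : (LD.Ez A r M c) (Sum.inr (Sum.inr j)) = 0 := rfl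

theorem Ez_a (c : Z) (s : Σ i, A i) : (LD.Ez A r M c) (Sum.inl s) = -(M : ℤ) := rfl

theorem LL_P_not (h : Cx L M' C) (hc : ¬ L.isZ c) :
    LL V L.τ L.Y C (L.cP c) (L.xP c) (Sum.inr (Sum.inl c)) ≠ 0 := by
  classical
  refine LL_ne_zero (Sum.inr (Sum.inr true)) ?_ ?_ ?_ ?_
  · rintro (s | s | _ | _) hs
    · left; rw [cP_not hc, two_i]
    · left; rw [cP_not hc, two_z]
    · right; right
      rw [xP_not hc, two_f, θ_inr, Int.cast_zero]
    · exact absurd rfl hs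
  · rw [cP_not hc, two_t, map_one]; exact one_ne_zero
  · refine ee_ne_zero h.τ0 h.hC h.hb
      (fun s _ s' _ => h.hS _ (xP_mem h c s) _ (xP_mem h c s'))
      (by rw [cP_not hc]; exact one_ne_zero) ?_
    intro s hs
    rw [cP_not hc] at hs
    rw [xP_not hc]
    rcases s with s | s | _ | _
    · exact absurd rfl hs
    · exact absurd rfl hs
    · rw [two_f, two_t, L.mon_θ hc, L.mon_Ez]
    · exact le_rfl
  · rw [xP_not hc, two_t, Ez_z, if_pos rfl, Int.cast_one]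
    exact one_ne_zero

theorem LL_P_z {c' : Z} (hne : c' ≠ c) :
    LL V L.τ L.Y C (L.cP c) (L.xP c) (Sum.inr (Sum.inl c')) = 0 := by
  by_cases hc : L.isZ c
  · exact LL_P_isZ hc _
  · apply LL_eq_zero
    rw [cP_not hc, xP_not hc]
    rintro (s | s | _ | _)
    · exact Or.inl rfl
    · exact Or.inl rfl
    · right; right
      rw [two_f, θ_inr, Int.cast_zero]
    · right; right
      rw [two_t, Ez_z, if_neg hne, Int.cast_zero]

theorem LL_P_w (j : Fin r) : LL V L.τ L.Y C (L.cP c) (L.xP c) (Sum.inr (Sum.inr j)) = 0 := by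
  by_cases hc : L.isZ c
  · exact LL_P_isZ hc _
  · apply LL_eq_zero
    rw [cP_not hc, xP_not hc]
    rintro (s | s | _ | _)
    · exact Or.inl rfl
    · exact Or.inl rfl
    · right; right
      rw [two_f, θ_inr, Int.cast_zero]
    · right; right
      rw [two_t, Ez_w, Int.cast_zero]

theorem TT_P_not (hc : ¬ L.isZ c) (l : L.υ) :
    TT V L.τ L.Y C (L.cP c) (L.xP c) l = 0 := by
  apply TT_eq_zero
  rw [cP_not hc]
  rintro (s | s | _ | _)
  · exact map_zero _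
  · exact map_zero _
  · rw [two_f, pderiv_neg_one']
  · rw [two_t, pderiv_one']

theorem TT_P_isZ (hc : L.isZ c) (l : L.υ) :
    TT V L.τ L.Y C (L.cP c) (L.xP c) l = if l = Sum.inr c then 1 else 0 := by
  classical
  rw [TT_eq_single (Sum.inr (Sum.inr true))]
  · have h1 : L.cP c (Sum.inr (Sum.inr true)) = X (Sum.inr c) := by rw [cP_isZ hc]; rfl
    have he : ee V L.τ C (mrel C (L.cP c) (L.xP c)) (Sum.inr (Sum.inr true)) = 1 :=
      ee_eq_one (fun s _ => by rw [xP_isZ hc]) (by rw [h1]; exact X_ne_zero _)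
    rw [he, mul_one, h1, pderiv_X, Pi.single_apply]
    by_cases hl : l = Sum.inr c
    · rw [if_pos hl.symm, if_pos hl, map_one]
    · rw [if_neg (Ne.symm hl), if_neg hl, map_zero]
  · rw [cP_isZ hc]
    rintro (s | s | _ | _) hs
    · exact map_zero _
    · exact map_zero _
    · rw [two_f, pderiv_neg_one']
    · exact absurd rfl hs

end RP

section RJ

variable {c : Z}

theorem cJ_i_pos {i : I} (hi : (b || L.act i) = true) :
    L.cJ c (Sum.inl i) = -(MvPolynomial.C (lam c i) * X (Sum.inl ⟨i, L.u i⟩)) := cond_t hi _ _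

theorem cJ_i_ne {i : I} (h : L.cJ c (Sum.inl i) ≠ 0) :
    (b || L.act i) = true ∧ lam c i ≠ 0 := by
  rcases Bool.eq_false_or_eq_true (b || L.act i) with hi | hi
  · refine ⟨hi, fun hl => h ?_⟩
    rw [cJ_i_pos hi, hl, map_zero, zero_mul, neg_zero]
  · exact absurd (cond_f hi _ _) h

theorem cJ_i_ne' {i : I} (hi : (b || L.act i) = true) (hl : lam c i ≠ 0) :
    L.cJ c (Sum.inl i) ≠ 0 := by
  rw [cJ_i_pos hi]
  refine neg_ne_zero.mpr (mul_ne_zero ?_ (X_ne_zero _))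
  rwa [Ne, MvPolynomial.C_eq_zero]

theorem cJ_f_pos (hb : b = true) : L.cJ c (Sum.inr (Sum.inr false)) = -X (Sum.inr c) :=
  cond_t hb _ _

theorem cJ_f_ne (h : L.cJ c (Sum.inr (Sum.inr false)) ≠ 0) : b = true := by
  rcases Bool.eq_false_or_eq_true b with hi | hi
  · exact hi
  · exact absurd (cond_f hi _ _) h

theorem xJ_t_cast (α : Ix A Z r) :
    (((L.xJ c (Sum.inr (Sum.inr true)) α : ℤ)) : ResidueField V) = 0 := by
  rw [xJ_t, Pi.smul_apply, smul_eq_mul, Int.cast_mul, Int.cast_natCast, natCast_p V, zero_mul]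

theorem xJ_i_ne {i : I} {s : Σ i, A i} (hi : s.1 ≠ i) :
    L.xJ c (Sum.inl i) (Sum.inl s) = 0 := by
  show (if s.1 = i then L.e s.1 s.2 else 0) = 0
  rw [if_neg hi]

theorem xJ_i_same (i : I) (a : A i) : L.xJ c (Sum.inl i) (Sum.inl ⟨i, a⟩) = L.e i a := by
  show (if i = i then L.e i a else 0) = _
  rw [if_pos rfl]

theorem mon_xJ_i (i : I) : mon L.τ (L.xJ c (Sum.inl i)) = mon (L.t i) (L.e i) := L.mon_ex i L.e

theorem mon_xJ_t : mon L.τ (L.xJ c (Sum.inr (Sum.inr true))) = L.ω c ^ p := by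
  rw [xJ_t, mon_smul, L.mon_Ez, zpow_natCast]

theorem mon_xJ_f : mon L.τ (L.xJ c (Sum.inr (Sum.inr false))) = L.ω c := L.mon_Ez c

/-- The columns of the Kummer coordinates. -/
theorem LL_J_w (j : Fin r) : LL V L.τ L.Y C (L.cJ c) (L.xJ c) (Sum.inr (Sum.inr j)) = 0 := by
  apply LL_eq_zero
  rintro (i | i | _ | _)
  · exact Or.inr (Or.inr (zc0 V))
  · exact Or.inl (cJ_z _ _)
  · exact Or.inr (Or.inr (zc0 V))
  · exact Or.inr (Or.inr (xJ_t_cast _))

theorem LL_J_zne {c' : Z} (hne : c' ≠ c) :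
    LL V L.τ L.Y C (L.cJ c) (L.xJ c) (Sum.inr (Sum.inl c')) = 0 := by
  apply LL_eq_zero
  rintro (i | i | _ | _)
  · exact Or.inr (Or.inr (zc0 V))
  · exact Or.inl (cJ_z _ _)
  · right; right
    rw [xJ_f, Ez_z, if_neg hne, Int.cast_zero]
  · exact Or.inr (Or.inr (xJ_t_cast _))

theorem pderiv_cJ_t (l : L.υ) : pderiv l (L.cJ c (Sum.inr (Sum.inr true))) = 0 := by
  have hcp : ((p : ℕ) : MvPolynomial L.υ (ZMod p)) = 0 := by
    rw [← map_natCast MvPolynomial.C, ZMod.natCast_self, map_zero]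
  rw [cJ_t, pderiv_pow, hcp, zero_mul, zero_mul]

theorem pderiv_cJ_i {i : I} {l : L.υ} (hl : l ≠ Sum.inl ⟨i, L.u i⟩) :
    pderiv l (L.cJ c (Sum.inl i)) = 0 := by
  rcases Bool.eq_false_or_eq_true (b || L.act i) with hi | hi
  · rw [cJ_i_pos hi, map_neg, pderiv_C_mul, pderiv_X_of_ne hl.symm, mul_zero, neg_zero]
  · have h1 : L.cJ c (Sum.inl i) = 0 := cond_f hi _ _
    rw [h1, map_zero]

theorem pderiv_cJ_f {l : L.υ} (hl : l ≠ Sum.inr c) :
    pderiv l (L.cJ c (Sum.inr (Sum.inr false))) = 0 := by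
  rcases Bool.eq_false_or_eq_true b with hi | hi
  · rw [cJ_f_pos hi, map_neg, pderiv_X_of_ne hl.symm, neg_zero]
  · have h1 : L.cJ c (Sum.inr (Sum.inr false)) = 0 := cond_f hi _ _
    rw [h1, map_zero]

section Dom

variable {i : I}

/-- The dominating term. -/
theorem ee_J_dom (h : Cx L M' C) (hd : L.Dom c i) {j : I} (hj : L.act j = true)
    (hl : lam c j ≠ 0)
    (hv : V.valuation (mon (L.t i) (L.e i)) ≤ V.valuation (mon (L.t j) (L.e j))) :
    ee V L.τ C (mrel C (L.cJ c) (L.xJ c)) (Sum.inl j) ≠ 0 := by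
  refine ee_ne_zero h.τ0 h.hC h.hb (fun s _ s' _ => h.hS _ (xJ_mem h c s) _ (xJ_mem h c s'))
    (cJ_i_ne' (or_t (Or.inr hj)) hl) ?_
  rintro (k | k | _ | _) hs
  · rw [mon_xJ_i, mon_xJ_i]
    obtain ⟨h1, h2⟩ := cJ_i_ne hs
    exact (hd.max k h1 h2).trans hv
  · exact absurd (cJ_z _ _) hs
  · rw [mon_xJ_i, mon_xJ_f]
    exact (hd.lt (cJ_f_ne hs)).le.trans hv
  · rw [mon_xJ_i, mon_xJ_t]
    exact hd.pow.trans hv

/-- The other terms. -/
theorem ee_J_small (h : Cx L M' C) (hd : L.Dom c i) {j : I} (hj : (b || L.act j) = true)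
    (hl : lam c j ≠ 0)
    (hv : V.valuation (mon (L.t j) (L.e j)) < V.valuation (mon (L.t i) (L.e i))) :
    ee V L.τ C (mrel C (L.cJ c) (L.xJ c)) (Sum.inl j) = 0 := by
  refine ee_eq_zero h.τ0 h.hC h.hb (fun s _ s' _ => h.hS _ (xJ_mem h c s) _ (xJ_mem h c s'))
    (cJ_i_ne' hj hl) (cJ_i_ne' (or_t (Or.inr hd.act)) hd.ne) ?_
  rw [mon_xJ_i, mon_xJ_i]
  exact hv

/-- The linear term is dominated. -/
theorem ee_J_f (h : Cx L M' C) (hd : L.Dom c i) : L.cJ c (Sum.inr (Sum.inr false)) = 0 ∨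
    ee V L.τ C (mrel C (L.cJ c) (L.xJ c)) (Sum.inr (Sum.inr false)) = 0 := by
  by_cases h1 : L.cJ c (Sum.inr (Sum.inr false)) = 0
  · exact Or.inl h1
  · right
    refine ee_eq_zero h.τ0 h.hC h.hb (fun s _ s' _ => h.hS _ (xJ_mem h c s) _ (xJ_mem h c s'))
      h1 (cJ_i_ne' (or_t (Or.inr hd.act)) hd.ne) ?_
    rw [mon_xJ_i, mon_xJ_f]
    exact hd.lt (cJ_f_ne h1)

/-- The residue of the quotient of the monomials. -/
theorem ee_J_eq (h : Cx L M' C) (hd : L.Dom c i) : ∃ m : K, m ≠ 0 ∧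
    V.valuation m = L.lev (lam c) ∧ ∀ j, L.act j = true → lam c j ≠ 0 →
      ee V L.τ C (mrel C (L.cJ c) (L.xJ c)) (Sum.inl j) = resv V (mon (L.t j) (L.e j) / m) := by
  have hS : ∀ s, L.cJ c s ≠ 0 → ∀ s', L.cJ c s' ≠ 0 → Sgn C (L.xJ c s - L.xJ c s') :=
    fun s _ s' _ => h.hS _ (xJ_mem h c s) _ (xJ_mem h c s')
  have hne := cJ_i_ne' (L := L) (or_t (Or.inr hd.act)) hd.ne
  obtain ⟨s₀, hs₀, hE, h1⟩ := mrel_spec ⟨_, hne⟩ hS
  have hv : ∀ s, L.cJ c s ≠ 0 →
      V.valuation (mon L.τ (L.xJ c s)) ≤ V.valuation (mon L.τ (L.xJ c s₀)) := by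
    intro s hs
    have h2 := val_mon_of_nonneg h.τ0 h.hC h.hb (h1 s hs)
    rw [mon_sub h.τ0, map_div₀] at h2
    have h3 : 0 < V.valuation (mon L.τ (L.xJ c s₀)) := by
      rw [Valuation.pos_iff]; exact mon_ne_zero h.τ0 _
    exact (div_le_one₀ h3).mp h2
  refine ⟨mon L.τ (L.xJ c s₀), mon_ne_zero h.τ0 _, ?_, ?_⟩
  · apply le_antisymm
    · rw [← hd.lev_eq]
      rcases s₀ with k | k | _ | _
      · rw [mon_xJ_i]
        obtain ⟨h3, h4⟩ := cJ_i_ne hs₀
        exact hd.max k h3 h4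
      · exact absurd (cJ_z _ _) hs₀
      · rw [mon_xJ_f]
        exact (hd.lt (cJ_f_ne hs₀)).le
      · rw [mon_xJ_t]
        exact hd.pow
    · rw [← hd.lev_eq, ← mon_xJ_i (L := L) (c := c) i]
      exact hv _ hne
  · intro j hj hl
    have h2 := h1 _ (cJ_i_ne' (L := L) (or_t (Or.inr hj)) hl)
    have h3 : ∀ k, 0 ≤ C.r k ⬝ᵥ ((mrel C (L.cJ c) (L.xJ c)).x (Sum.inl j) -
        (mrel C (L.cJ c) (L.xJ c)).E) := by
      rw [hE]; exact h2
    rw [ee_eq h.τ0 h.hC h.hb h3, hE]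
    show resv V (mon L.τ (L.xJ c (Sum.inl j) - L.xJ c s₀)) = _
    rw [mon_sub h.τ0, mon_xJ_i]

theorem LL_J_z (h : Cx L M' C) (hd : L.Dom c i) (c' : Z) :
    LL V L.τ L.Y C (L.cJ c) (L.xJ c) (Sum.inr (Sum.inl c')) = 0 := by
  apply LL_eq_zero
  rintro (j | j | _ | _)
  · exact Or.inr (Or.inr (zc0 V))
  · exact Or.inl (cJ_z _ _)
  · rcases ee_J_f h hd with h1 | h1
    · exact Or.inl h1
    · exact Or.inr (Or.inl h1)
  · exact Or.inr (Or.inr (xJ_t_cast _))

theorem TT_J_z (h : Cx L M' C) (hd : L.Dom c i) (c' : Z) :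
    TT V L.τ L.Y C (L.cJ c) (L.xJ c) (Sum.inr c') = 0 := by
  refine Finset.sum_eq_zero fun s _ => ?_
  rcases s with j | j | _ | _
  · rw [pderiv_cJ_i Sum.inr_ne_inl, map_zero, zero_mul]
  · rw [cJ_z, map_zero, map_zero, zero_mul]
  · rcases ee_J_f h hd with h1 | h1
    · rw [h1, map_zero, map_zero, zero_mul]
    · rw [h1, mul_zero]
  · rw [pderiv_cJ_t, map_zero, zero_mul]

theorem TT_J_zne {c' : Z} (hne : c' ≠ c) :
    TT V L.τ L.Y C (L.cJ c) (L.xJ c) (Sum.inr c') = 0 := by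
  apply TT_eq_zero
  rintro (j | j | _ | _)
  · exact pderiv_cJ_i Sum.inr_ne_inl
  · rw [cJ_z, map_zero]
  · exact pderiv_cJ_f fun h => hne (Sum.inr_injective h)
  · exact pderiv_cJ_t _

/-- The first type. -/
theorem LL_J_a (h : Cx L M' C) (hd : L.Dom c i) (j : I) (hj : L.act j = true) (a : A j) :
    LL V L.τ L.Y C (L.cJ c) (L.xJ c) (Sum.inl ⟨j, a⟩) =
      -(resv V (L.y j (L.u j)) * ((L.e j a : ℤ) : ResidueField V)) *
        (algebraMap (ZMod p) (ResidueField V) (lam c j) *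
          ee V L.τ C (mrel C (L.cJ c) (L.xJ c)) (Sum.inl j)) := by
  classical
  rw [LL, Finset.sum_eq_single (Sum.inl j)]
  · rw [cJ_i_pos (or_t (Or.inr hj)), map_neg, map_mul, aeval_C, aeval_X, xJ_i_same, L.Y_inl]
    ring
  · rintro (k | k | _ | _) _ hs
    · rw [xJ_i_ne (by
        intro h'
        apply hs
        rw [show j = k from h']), Int.cast_zero]
      ring
    · rw [cJ_z, map_zero]; ring
    · rcases ee_J_f h hd with h1 | h1
      · rw [h1, map_zero]; ring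
      · rw [h1]; ring
    · rw [xJ_t_cast]; ring
  · intro h; exact absurd (Finset.mem_univ _) h

/-- The second type. -/
theorem TT_J_u (j : I) (hj : L.act j = true) :
    TT V L.τ L.Y C (L.cJ c) (L.xJ c) (Sum.inl ⟨j, L.u j⟩) =
      -(algebraMap (ZMod p) (ResidueField V) (lam c j) *
        ee V L.τ C (mrel C (L.cJ c) (L.xJ c)) (Sum.inl j)) := by
  classical
  rw [TT_eq_single (Sum.inl j)]
  · rw [cJ_i_pos (or_t (Or.inr hj)), map_neg, pderiv_C_mul, pderiv_X_self, map_neg,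
      mul_one, aeval_C]
    ring
  · rintro (k | k | _ | _) hs
    · refine pderiv_cJ_i fun h' => hs ?_
      have := congrArg Sigma.fst (Sum.inl_injective h')
      have h2 : j = k := this
      rw [h2]
    · rw [cJ_z, map_zero]
    · exact pderiv_cJ_f Sum.inl_ne_inr
    · exact pderiv_cJ_t _

theorem TT_J_of {l : L.υ} (hl : ∀ c', l ≠ Sum.inr c') (hl' : ∀ j, l ≠ Sum.inl ⟨j, L.u j⟩) :
    TT V L.τ L.Y C (L.cJ c) (L.xJ c) l = 0 := by
  apply TT_eq_zero
  rintro (j | j | _ | _)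
  · exact pderiv_cJ_i (hl' j)
  · rw [cJ_z, map_zero]
  · exact pderiv_cJ_f (hl c)
  · exact pderiv_cJ_t _

end Dom

section Et

/-- The linear term in the regular case. -/
theorem ee_J_lin (h : Cx L M' C) (hb : b = true) (ha : ∀ i, lam c i ≠ 0 → L.act i = false) :
    ee V L.τ C (mrel C (L.cJ c) (L.xJ c)) (Sum.inr (Sum.inr false)) ≠ 0 := by
  have h1 : L.cJ c (Sum.inr (Sum.inr false)) ≠ 0 := by
    rw [cJ_f_pos hb]; exact neg_ne_zero.mpr (X_ne_zero _)
  have hω := L.vω_eq hb ha (h.hex c)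
  refine ee_ne_zero h.τ0 h.hC h.hb (fun s _ s' _ => h.hS _ (xJ_mem h c s) _ (xJ_mem h c s'))
    h1 ?_
  rintro (j | j | _ | _) hs
  · rw [mon_xJ_i, mon_xJ_f, L.e0 j (ha j (cJ_i_ne hs).2), mon_zero, map_one, hω]
  · exact absurd (cJ_z _ _) hs
  · exact le_rfl
  · rw [mon_xJ_f, mon_xJ_t, map_pow, hω, one_pow]

theorem LL_J_et (h : Cx L M' C) (hb : b = true) (ha : ∀ i, lam c i ≠ 0 → L.act i = false)
    (hz : L.isZ c) :
    LL V L.τ L.Y C (L.cJ c) (L.xJ c) (Sum.inr (Sum.inl c)) ≠ 0 := by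
  classical
  refine LL_ne_zero (Sum.inr (Sum.inr false)) ?_ ?_ (ee_J_lin h hb ha) ?_
  · rintro (j | j | _ | _) hs
    · exact Or.inr (Or.inr (zc0 V))
    · exact Or.inl (cJ_z _ _)
    · exact absurd rfl hs
    · exact Or.inr (Or.inr (xJ_t_cast _))
  · rw [cJ_f_pos hb, map_neg, aeval_X, L.Y_isZ (h.hex c) hz, resv_one]
    exact neg_ne_zero.mpr one_ne_zero
  · rw [xJ_f, Ez_z, if_pos rfl, Int.cast_one]
    exact one_ne_zero

theorem TT_J_et (h : Cx L M' C) (hb : b = true) (ha : ∀ i, lam c i ≠ 0 → L.act i = false) :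
    TT V L.τ L.Y C (L.cJ c) (L.xJ c) (Sum.inr c) ≠ 0 := by
  classical
  rw [TT_eq_single (Sum.inr (Sum.inr false))]
  · rw [cJ_f_pos hb, map_neg, pderiv_X_self, map_neg, map_one]
    exact mul_ne_zero (neg_ne_zero.mpr one_ne_zero) (ee_J_lin h hb ha)
  · rintro (j | j | _ | _) hs
    · exact pderiv_cJ_i Sum.inr_ne_inl
    · rw [cJ_z, map_zero]
    · exact absurd rfl hs
    · exact pderiv_cJ_t _

end Et

end RJ

section RN

variable (S : Adp L) {c : Z}

theorem cN_z_ne {c' : Z} (h : S.cN c (Sum.inr (Sum.inl c')) ≠ 0) : S.rho c c' ≠ 0 := by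
  intro hr
  apply h
  rw [cN_z, hr, map_zero, zero_mul, neg_zero]

theorem LL_N_w (j : Fin r) : LL V L.τ L.Y C (S.cN c) (S.xN c) (Sum.inr (Sum.inr j)) = 0 := by
  apply LL_eq_zero
  rintro (i | i | _ | _)
  · exact Or.inl (cN_i _ _ _)
  · right; right
    rw [xN_z, Ez_w, Int.cast_zero]
  · exact Or.inl (cN_f _ _)
  · right; right
    rw [xN_t, Ez_w, Int.cast_zero]

theorem LL_N_z {c' : Z} (hc' : ¬ S.bas c') (hne : c' ≠ c) :
    LL V L.τ L.Y C (S.cN c) (S.xN c) (Sum.inr (Sum.inl c')) = 0 := by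
  apply LL_eq_zero
  rintro (i | i | _ | _)
  · exact Or.inl (cN_i _ _ _)
  · by_cases hi : c' = i
    · left
      by_contra h
      exact hc' (hi ▸ S.rbas c i (cN_z_ne S h))
    · right; right
      rw [xN_z, Ez_z, if_neg hi, Int.cast_zero]
  · exact Or.inl (cN_f _ _)
  · right; right
    rw [xN_t, Ez_z, if_neg hne, Int.cast_zero]

theorem TT_N_z {c' : Z} (hc' : ¬ S.bas c') (hne : c' ≠ c) :
    TT V L.τ L.Y C (S.cN c) (S.xN c) (Sum.inr c') = 0 := by
  apply TT_eq_zero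
  rintro (i | i | _ | _)
  · rw [cN_i, map_zero]
  · by_cases hi : c' = i
    · have h1 : S.cN c (Sum.inr (Sum.inl i)) = 0 := by
        by_contra h
        exact hc' (hi ▸ S.rbas c i (cN_z_ne S h))
      rw [h1, map_zero]
    · rw [cN_z, map_neg, pderiv_C_mul, pderiv_X_of_ne fun h => hi (Sum.inr_injective h).symm,
        mul_zero, neg_zero]
  · rw [cN_f, map_zero]
  · rw [cN_t, pderiv_X_of_ne fun h => hne (Sum.inr_injective h).symm]

theorem ee_N (h : Cx L M' C) (c : Z) :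
    ee V L.τ C (mrel C (S.cN c) (S.xN c)) (Sum.inr (Sum.inr true)) ≠ 0 := by
  refine ee_ne_zero h.τ0 h.hC h.hb
    (fun s _ s' _ => h.hS _ (xN_mem h S c s) _ (xN_mem h S c s'))
    (by rw [cN_t]; exact X_ne_zero _) ?_
  rintro (k | k | _ | _) hs
  · exact absurd (cN_i _ _ _) hs
  · rw [xN_z, xN_t, L.mon_Ez, L.mon_Ez]
    exact S.dom c k (cN_z_ne S hs)
  · exact absurd (cN_f _ _) hs
  · exact le_rfl

theorem LL_N_isZ (h : Cx L M' C) (hc : ¬ S.bas c) (hz : L.isZ c) :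
    LL V L.τ L.Y C (S.cN c) (S.xN c) (Sum.inr (Sum.inl c)) ≠ 0 := by
  classical
  refine LL_ne_zero (Sum.inr (Sum.inr true)) ?_ ?_ (ee_N S h c) ?_
  · rintro (i | i | _ | _) hs
    · exact Or.inl (cN_i _ _ _)
    · by_cases hi : c = i
      · left
        by_contra h
        exact hc (hi ▸ S.rbas c i (cN_z_ne S h))
      · right; right
        rw [xN_z, Ez_z, if_neg hi, Int.cast_zero]
    · exact Or.inl (cN_f _ _)
    · exact absurd rfl hs
  · rw [cN_t, aeval_X, L.Y_isZ (h.hex c) hz, resv_one]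
    exact one_ne_zero
  · rw [xN_t, Ez_z, if_pos rfl, Int.cast_one]
    exact one_ne_zero

theorem TT_N_self (h : Cx L M' C) (hc : ¬ S.bas c) :
    TT V L.τ L.Y C (S.cN c) (S.xN c) (Sum.inr c) ≠ 0 := by
  classical
  rw [TT_eq_single (Sum.inr (Sum.inr true))]
  · rw [cN_t, pderiv_X_self, map_one, one_mul]
    exact ee_N S h c
  · rintro (i | i | _ | _) hs
    · rw [cN_i, map_zero]
    · by_cases hi : c = i
      · have h1 : S.cN c (Sum.inr (Sum.inl i)) = 0 := by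
          by_contra h
          exact hc (hi ▸ S.rbas c i (cN_z_ne S h))
        rw [h1, map_zero]
      · rw [cN_z, map_neg, pderiv_C_mul, pderiv_X_of_ne fun h => hi (Sum.inr_injective h).symm,
          mul_zero, neg_zero]
    · rw [cN_f, map_zero]
    · exact absurd rfl hs

end RN

section RW

theorem cW_t (j : Fin r) : L.cW j (Sum.inr (Sum.inr true)) = 1 := rfl

theorem xW_t (j : Fin r) :
    L.xW j (Sum.inr (Sum.inr true)) = (Nw j : ℤ) • LD.Ew A Z M j := rfl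

theorem xW_f (j : Fin r) :
    L.xW j (Sum.inr (Sum.inr false)) = Sum.elim (fun s => L.κ s.1 j s.2) 0 := rfl

theorem LL_W_self (h : Cx L M' C) (j : Fin r) :
    LL V L.τ L.Y C (L.cW j) (L.xW j) (Sum.inr (Sum.inr j)) ≠ 0 := by
  classical
  refine LL_ne_zero (Sum.inr (Sum.inr true)) ?_ ?_ ?_ ?_
  · rintro (s | s | _ | _) hs
    · exact Or.inl rfl
    · exact Or.inl rfl
    · exact Or.inr (Or.inr (zc0 V))
    · exact absurd rfl hs
  · rw [cW_t, map_one]; exact one_ne_zero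
  · refine ee_ne_zero h.τ0 h.hC h.hb
      (fun s _ s' _ => h.hS _ (xW_mem h j s) _ (xW_mem h j s'))
      (by rw [cW_t]; exact one_ne_zero) ?_
    rintro (s | s | _ | _) hs
    · exact absurd rfl hs
    · exact absurd rfl hs
    · rw [xW_f, xW_t, mon_smul, L.mon_Ew, zpow_natCast, L.KM, L.mon_κ, Finset.prod_mul_distrib,
        map_mul, map_prod V.valuation (fun i => L.y i (L.q i j)),
        Finset.prod_eq_one (fun i _ => L.vq i j), one_mul]
    · exact le_rfl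
  · show (((Nw j : ℤ) * (Pi.single j 1 : Fin r → ℤ) j : ℤ) : ResidueField V) ≠ 0
    rw [Pi.single_eq_same, mul_one, Int.cast_natCast]
    exact natCast_ne V (L.Nw0 j)

theorem LL_W_of_ne {j j' : Fin r} (hne : j' ≠ j) :
    LL V L.τ L.Y C (L.cW j) (L.xW j) (Sum.inr (Sum.inr j')) = 0 := by
  classical
  apply LL_eq_zero
  rintro (s | s | _ | _)
  · exact Or.inl rfl
  · exact Or.inl rfl
  · exact Or.inr (Or.inr (zc0 V))
  · right; right
    show (((Nw j : ℤ) * (Pi.single j 1 : Fin r → ℤ) j' : ℤ) : ResidueField V) = 0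
    rw [Pi.single_eq_of_ne hne, mul_zero, Int.cast_zero]

end RW

end Pool.Agent.H96.Y
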