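import Pool.Agent.H96.Y.LC
import Pool.Agent.H96.S.LReg

/-!
# Local regularity: several elements
-/

set_option autoImplicit false
set_option linter.unusedSectionVars false

namespace Pool.Agent.H96.Y

open MvPolynomial IsLocalRing Pool.Agent.H96.Reg Pool.Agent.H96.VL Pool.Agent.H96.W
open Pool.Agent.H96.S (Va Ndg cond_t cond_f or_t of_or zc0 zc_ne sum_single_eq sum_zero_eq
  resv_aevalp)
open Pool.Agent.H96.W2 (BX mem_BX zero_mem_BX single_mem_BX single_one_mem_BX neg_mem_BX)

variable {p : ℕ} [Fact p.Prime] {b : Bool} {K : Type} [Field K] [Algebra (ZMod p) K]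
  {V : ValuationSubring K} {I : Type} [Fintype I] [DecidableEq I] {A : I → Type}
  [∀ i, Fintype (A i)] [∀ i, DecidableEq (A i)] {d : I → ℕ} {on : I → Bool}
  {Z : Type} [Fintype Z] [DecidableEq Z] {lam : Z → I → ZMod p} {r : ℕ}
  {Nw : Fin r → ℕ} {M M' : ℕ} {L : LD p b V I A d on lam Nw M}
  [Algebra (ZMod p) (ResidueField V)] {C : Cone (Ix A Z r)}

/-- The index set of the relations. -/
abbrev LD.Rw (L : LD p b V I A d on lam Nw M) : Type :=
  (Σ i, A i) ⊕ ((Σ i : I, Fin (L.n i)) ⊕ (Z ⊕ (Z ⊕ Fin r)))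

/-- The coefficients of the relations. -/
noncomputable def Adp.cc (S : Adp L) : L.Rw → Ts I Z → MvPolynomial L.υ (ZMod p) :=
  Sum.elim L.cI (Sum.elim (fun s => L.cG s.1 s.2) (Sum.elim L.cP (Sum.elim S.cQ L.cW)))

/-- The exponents of the relations. -/
noncomputable def Adp.xx (S : Adp L) : L.Rw → Ts I Z → Ix A Z r → ℤ :=
  Sum.elim L.xI (Sum.elim (fun _ => 0) (Sum.elim L.xP (Sum.elim S.xQ L.xW)))

theorem xx_mem (h : Cx L M' C) (S : Adp L) (j : L.Rw) (s : Ts I Z) :
    S.xx j s ∈ BX (Ix A Z r) M' := by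
  rcases j with i | s' | c | c | j
  · exact xI_mem h i _
  · exact zero_mem_BX
  · exact xP_mem h _ _
  · exact xQ_mem h S _ _
  · exact xW_mem h _ _

theorem xx_rel (hex : ∀ c, ∃ j, cand b on (lam c) j = true) (S : Adp L) (j : L.Rw) :
    ∑ s, aeval L.Y (S.cc j s) * mon L.τ (S.xx j s) = 0 := by
  rcases j with i | s | c | c | j
  · exact rel_I i
  · exact rel_G s.1 s.2
  · exact rel_P hex c
  · exact rel_Q hex S c
  · exact rel_W j

theorem sum_Rw {β : Type} [AddCommMonoid β] (f : L.Rw → β) : ∑ j, f j =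
    ∑ s, f (Sum.inl s) + (∑ s, f (Sum.inr (Sum.inl s)) + (∑ c, f (Sum.inr (Sum.inr (Sum.inl c))) +
      (∑ c, f (Sum.inr (Sum.inr (Sum.inr (Sum.inl c)))) +
        ∑ c, f (Sum.inr (Sum.inr (Sum.inr (Sum.inr c))))))) := by
  rw [Fintype.sum_sum_type, Fintype.sum_sum_type, Fintype.sum_sum_type,
    Fintype.sum_sum_type]

theorem card_eq (L : LD p b V I A d on lam Nw M) : Fintype.card (Ix A Z r) + Fintype.card L.υ =
    ∑ i, d i + Fintype.card L.Rw := by
  have h5 : Fintype.card (Ix A Z r) = Fintype.card (Σ i, A i) + (Fintype.card Z + r) := by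
    rw [Fintype.card_sum, Fintype.card_sum, Fintype.card_fin]
  have h6 : Fintype.card L.υ = (∑ i, L.n i + ∑ i, d i) + Fintype.card Z := by
    rw [Fintype.card_sum, Fintype.card_sigma]
    simp only [Fintype.card_sum, Fintype.card_fin, Finset.sum_add_distrib]
  have h7 : Fintype.card L.Rw = Fintype.card (Σ i, A i) + (∑ i, L.n i + (Fintype.card Z +
      (Fintype.card Z + r))) := by
    rw [Fintype.card_sum, Fintype.card_sum, Fintype.card_sum, Fintype.card_sum,
      Fintype.card_sigma (α := fun i : I => Fin (L.n i)), Fintype.card_fin]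
    simp only [Fintype.card_fin]
  rw [h5, h6, h7]
  omega

theorem D_ne (L : LD p b V I A d on lam Nw M) (i : I) :
    aeval (fun s => resv V (L.y i s)) (L.D i) ≠ 0 := by
  have h3 := resv_aevalp V (L.y i) (L.vy i) (L.D i)
  rw [← h3.2, resv_ne_zero_iff h3.1]
  exact L.vD i

theorem fst_of {L : LD p b V I A d on lam Nw M} {i j : I} {s : Va (L.n i) (d i)}
    {t : Va (L.n j) (d j)} (h : (Sum.inl ⟨i, s⟩ : L.υ) = Sum.inl ⟨j, t⟩) : i = j :=
  congrArg Sigma.fst (Sum.inl_injective h)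

theorem snd_of {L : LD p b V I A d on lam Nw M} {i : I} {s t : Va (L.n i) (d i)}
    (h : (Sum.inl ⟨i, s⟩ : L.υ) = Sum.inl ⟨i, t⟩) : s = t := by
  simpa using h

/-- The level of a vector without poles. -/
theorem lev_eq_zero (L : LD p b V I A d on lam Nw M) {l : I → ZMod p}
    (h : ∀ i, l i ≠ 0 → L.act i = false) : L.lev l = 0 := by
  refine le_antisymm (L.lev_le fun i h1 h2 => ?_) zero_le
  rw [h i h2] at h1
  exact absurd h1 (by decide)

theorem sum_sub {α β : Type} [Fintype α] [AddCommMonoid β] (P : α → Prop)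
    [Fintype (Subtype P)] (f : α → β) (h : ∀ a, ¬ P a → f a = 0) :
    ∑ a, f a = ∑ a : Subtype P, f a := by
  classical
  rw [← Finset.sum_subtype (Finset.univ.filter P) (fun x => by simp) f, Finset.sum_filter]
  refine Finset.sum_congr rfl fun a _ => ?_
  split_ifs with ha
  · rfl
  · exact h a ha

/-- **The level argument.** -/
theorem level (h : Cx L M' C) (S : Adp L) (a : Z → ResidueField V)
    (ha : ∀ c, ¬ S.bas c → a c = 0) (ha' : ∀ c, L.lev (lam c) = 0 → a c = 0)
    (hs : ∀ i, L.act i = true → ∑ c, a c * (algebraMap (ZMod p) (ResidueField V) (lam c i) *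
      ee V L.τ C (mrel C (L.cJ c) (L.xJ c)) (Sum.inl i)) = 0) : ∀ c, a c = 0 := by
  classical
  have hm : ∀ c, ∃ m : K, L.lev (lam c) ≠ 0 → m ≠ 0 ∧
      V.valuation m = L.lev (lam c) ∧ ∀ j, L.act j = true → lam c j ≠ 0 →
      ee V L.τ C (mrel C (L.cJ c) (L.xJ c)) (Sum.inl j) = resv V (mon (L.t j) (L.e j) / m) := by
    intro c
    by_cases hl : L.lev (lam c) = 0
    · exact ⟨1, fun h => absurd hl h⟩
    · rcases L.exists_dom (h.hex c) with ⟨i, hd⟩ | ⟨-, h0⟩
      · obtain ⟨m, hm⟩ := ee_J_eq h hd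
        exact ⟨m, fun _ => hm⟩
      · exact absurd (lev_eq_zero L h0) hl
  choose m hm using hm
  intro c₀
  by_contra hc₀
  have hb₀ : S.bas c₀ := by
    by_contra hb
    exact hc₀ (ha c₀ hb)
  have hl₀ : L.lev (lam c₀) ≠ 0 := fun hl => hc₀ (ha' c₀ hl)
  obtain ⟨γ, hγ⟩ : ∃ γ, γ = L.lev (lam c₀) := ⟨_, rfl⟩
  have hγ0 : γ ≠ 0 := by rw [hγ]; exact hl₀
  obtain ⟨hm₀, hvm₀, -⟩ := hm c₀ hl₀
  rw [← hγ] at hvm₀
  let PC : Z → Prop := fun c => S.bas c ∧ L.lev (lam c) = γ
  let PI : I → Prop := fun i => L.act i = true ∧ V.valuation (mon (L.t i) (L.e i)) = γ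
  have key := indep_ext (k := ZMod p) (κ := ResidueField V) (C := Subtype PC) (I := Subtype PI)
    (fun c i => lam c.1 i.1) (by
      intro a' ha1
      obtain ⟨a'', ha''⟩ : ∃ a'' : Z → ZMod p, a'' = fun c => if hc : PC c then a' ⟨c, hc⟩ else 0 :=
        ⟨_, rfl⟩
      have h1 : ∀ c (hc : PC c), a'' c = a' ⟨c, hc⟩ := fun c hc => by rw [ha'']; exact dif_pos hc
      have h2 : ∀ c, ¬ PC c → a'' c = 0 := fun c hc => by rw [ha'']; exact dif_neg hc
      have h3 := S.ind γ a'' (fun c hc => by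
        by_contra hc'
        exact hc (h2 c hc')) (fun i hi hv => by
        rw [sum_sub PC (fun c => a'' c * lam c i) (fun c hc => by
          show a'' c * lam c i = 0
          rw [h2 c hc, zero_mul])]
        rw [← ha1 ⟨i, hi, hv⟩]
        exact Finset.sum_congr rfl fun c _ => by rw [h1 c.1 c.2])
      rintro ⟨c, hc⟩
      rw [← h1 c hc]
      exact h3 c hc.2 (by rw [hc.2]; exact hγ0))
    (fun c => a c.1 * resv V (m c₀ / m c.1)) (by
      rintro ⟨i, hi, hv⟩
      have h1 := hs i hi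
      have hmi := L.mon_ne i (L.e i)
      have h2 : ∀ c, a c * (algebraMap (ZMod p) (ResidueField V) (lam c i) *
          ee V L.τ C (mrel C (L.cJ c) (L.xJ c)) (Sum.inl i)) =
          resv V (mon (L.t i) (L.e i) / m c₀) * (if PC c then a c * resv V (m c₀ / m c) *
            algebraMap (ZMod p) (ResidueField V) (lam c i) else 0) := by
        intro c
        by_cases hac : a c = 0
        · rw [hac]
          split_ifs <;> ring
        have hbc : S.bas c := by
          by_contra hb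
          exact hac (ha c hb)
        have hlc : L.lev (lam c) ≠ 0 := fun hl => hac (ha' c hl)
        obtain ⟨hmc, hvmc, hee⟩ := hm c hlc
        by_cases hli : lam c i = 0
        · rw [hli, map_zero]
          split_ifs <;> ring
        have hle := L.le_lev (l := lam c) hi hli
        rw [hee i hi hli]
        by_cases hlev : L.lev (lam c) = γ
        · rw [if_pos ⟨hbc, hlev⟩]
          have h4 : mon (L.t i) (L.e i) / m c = (mon (L.t i) (L.e i) / m c₀) * (m c₀ / m c) := by
            field_simp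
          have hg : 0 < γ := zero_lt_iff.mpr hγ0
          have h5 : V.valuation (mon (L.t i) (L.e i) / m c₀) ≤ 1 := by
            rw [map_div₀, hv, hvm₀, div_self hγ0]
          have h6 : V.valuation (m c₀ / m c) ≤ 1 := by
            rw [map_div₀, hvmc, hlev, hvm₀, div_self hγ0]
          rw [h4, resv_mul h5 h6]
          ring
        · rw [if_neg fun hp => hlev hp.2]
          have hlt : V.valuation (mon (L.t i) (L.e i)) < L.lev (lam c) :=
            lt_of_le_of_ne hle fun h' => hlev (by rw [← h', hv])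
          have h5 : V.valuation (mon (L.t i) (L.e i) / m c) < 1 := by
            rw [map_div₀, hvmc]
            exact (div_lt_one₀ (zero_lt_iff.mpr hlc)).mpr hlt
          rw [(resv_eq_zero_iff h5.le).mpr h5]
          ring
      rw [Finset.sum_congr rfl fun c _ => h2 c, ← Finset.mul_sum] at h1
      have h3 : resv V (mon (L.t i) (L.e i) / m c₀) ≠ 0 := by
        have h5 : V.valuation (mon (L.t i) (L.e i) / m c₀) = 1 := by
          rw [map_div₀, hv, hvm₀, div_self hγ0]
        rw [resv_ne_zero_iff h5.le]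
        exact h5
      have h4 := (mul_eq_zero.mp h1).resolve_left h3
      rw [sum_sub PC _ (fun c hc => if_neg hc)] at h4
      rw [← h4]
      exact Finset.sum_congr rfl fun c _ => by rw [if_pos c.2])
  have h1 := key ⟨c₀, hb₀, hγ.symm⟩
  have h2 : a c₀ * resv V (m c₀ / m c₀) = 0 := h1
  rw [div_self hm₀, resv_one, mul_one] at h2
  exact hc₀ h2

theorem cQ_bas {S : Adp L} {c : Z} (hc : S.bas c) : S.cQ c = L.cJ c := if_pos hc

theorem xQ_bas {S : Adp L} {c : Z} (hc : S.bas c) : S.xQ c = L.xJ c := if_pos hc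

theorem cQ_not {S : Adp L} {c : Z} (hc : ¬ S.bas c) : S.cQ c = S.cN c := if_neg hc

theorem xQ_not {S : Adp L} {c : Z} (hc : ¬ S.bas c) : S.xQ c = S.xN c := if_neg hc

/-- **Independence.** -/
theorem indep (h : Cx L M' C) (S : Adp L) (a : L.Rw → ResidueField V)
    (hLα : ∀ α, ∑ j, a j * LL V L.τ L.Y C (S.cc j) (S.xx j) α = 0)
    (hTl : ∀ l, ∑ j, a j * TT V L.τ L.Y C (S.cc j) (S.xx j) l = 0) : ∀ j, a j = 0 := by
  classical
  obtain ⟨aI, haI⟩ : ∃ f : (Σ i, A i) → ResidueField V, f = fun i => a (Sum.inl i) := ⟨_, rfl⟩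
  obtain ⟨aG, haG⟩ : ∃ f : (Σ i : I, Fin (L.n i)) → ResidueField V,
    f = fun s => a (Sum.inr (Sum.inl s)) := ⟨_, rfl⟩
  obtain ⟨aP, haP⟩ : ∃ f : Z → ResidueField V,
    f = fun c => a (Sum.inr (Sum.inr (Sum.inl c))) := ⟨_, rfl⟩
  obtain ⟨aQ, haQ⟩ : ∃ f : Z → ResidueField V,
    f = fun c => a (Sum.inr (Sum.inr (Sum.inr (Sum.inl c)))) := ⟨_, rfl⟩
  obtain ⟨aW, haW⟩ : ∃ f : Fin r → ResidueField V,
    f = fun s => a (Sum.inr (Sum.inr (Sum.inr (Sum.inr s)))) := ⟨_, rfl⟩
  have hL : ∀ α, ∑ i, aI i * LL V L.τ L.Y C (L.cI i) (L.xI i) α +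
      (∑ s, aG s * LL V L.τ L.Y C (L.cG s.1 s.2) 0 α +
      (∑ c, aP c * LL V L.τ L.Y C (L.cP c) (L.xP c) α +
      (∑ c, aQ c * LL V L.τ L.Y C (S.cQ c) (S.xQ c) α +
      ∑ c, aW c * LL V L.τ L.Y C (L.cW c) (L.xW c) α))) = 0 := by
    intro α
    have := hLα α
    rw [sum_Rw] at this
    rw [haI, haG, haP, haQ, haW]
    exact this
  have hT : ∀ l, ∑ i, aI i * TT V L.τ L.Y C (L.cI i) (L.xI i) l +
      (∑ s, aG s * TT V L.τ L.Y C (L.cG s.1 s.2) 0 l +
      (∑ c, aP c * TT V L.τ L.Y C (L.cP c) (L.xP c) l +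
      (∑ c, aQ c * TT V L.τ L.Y C (S.cQ c) (S.xQ c) l +
      ∑ c, aW c * TT V L.τ L.Y C (L.cW c) (L.xW c) l))) = 0 := by
    intro l
    have := hTl l
    rw [sum_Rw] at this
    rw [haI, haG, haP, haQ, haW]
    exact this
  suffices hall : (∀ i, aI i = 0) ∧ (∀ s, aG s = 0) ∧ (∀ c, aP c = 0) ∧ (∀ c, aQ c = 0) ∧
      (∀ c, aW c = 0) by
    obtain ⟨h1, h2, h3, h4, h5⟩ := hall
    rw [haI] at h1
    rw [haG] at h2
    rw [haP] at h3
    rw [haQ] at h4
    rw [haW] at h5
    rintro (i | s | c | c | j)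
    exacts [h1 i, h2 s, h3 c, h4 c, h5 j]
  clear haI haG haP haQ haW hLα hTl
  -- the Kummer coordinates
  have hQw : ∀ c j, LL V L.τ L.Y C (S.cQ c) (S.xQ c) (Sum.inr (Sum.inr j)) = 0 := by
    intro c j
    by_cases hc : S.bas c
    · rw [cQ_bas hc, xQ_bas hc, LL_J_w]
    · rw [cQ_not hc, xQ_not hc, LL_N_w]
  have hW : ∀ c, aW c = 0 := by
    intro c
    have h1 := hL (Sum.inr (Sum.inr c))
    rw [sum_zero_eq _ (fun i => by rw [LL_I_of_ne Sum.inr_ne_inl, mul_zero]),
      sum_zero_eq (fun s : (Σ i : I, Fin (L.n i)) => aG s * _) (fun s => by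
        rw [LL_0, mul_zero]),
      sum_zero_eq (fun c => aP c * _) (fun c => by rw [LL_P_w, mul_zero]),
      sum_zero_eq (fun c => aQ c * _) (fun c => by rw [hQw, mul_zero]), zero_add, zero_add,
      zero_add, zero_add,
      sum_single_eq _ c fun c' hc => by rw [LL_W_of_ne (Ne.symm hc), mul_zero]] at h1
    exact (mul_eq_zero.mp h1).resolve_right (LL_W_self h c)
  have hL1 : ∀ α, ∑ i, aI i * LL V L.τ L.Y C (L.cI i) (L.xI i) α +
      (∑ c, aP c * LL V L.τ L.Y C (L.cP c) (L.xP c) α +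
        ∑ c, aQ c * LL V L.τ L.Y C (S.cQ c) (S.xQ c) α) = 0 := by
    intro α
    have := hL α
    rwa [sum_zero_eq (fun s : (Σ i : I, Fin (L.n i)) => aG s * _) (fun s => by
        rw [LL_0, mul_zero]), sum_zero_eq (fun j => aW j * _) (fun j => by rw [hW, zero_mul]),
      add_zero, zero_add] at this
  have hT1 : ∀ l, ∑ i, aI i * TT V L.τ L.Y C (L.cI i) (L.xI i) l +
      (∑ s, aG s * TT V L.τ L.Y C (L.cG s.1 s.2) 0 l +
      (∑ c, aP c * TT V L.τ L.Y C (L.cP c) (L.xP c) l +
        ∑ c, aQ c * TT V L.τ L.Y C (S.cQ c) (S.xQ c) l)) = 0 := by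
    intro l
    have := hT l
    rwa [sum_zero_eq (fun j => aW j * _) (fun j => by rw [hW, zero_mul]), add_zero] at this
  clear hL hT
  have hLz : ∀ c, ∑ c', aP c' * LL V L.τ L.Y C (L.cP c') (L.xP c') (Sum.inr (Sum.inl c)) +
      ∑ c', aQ c' * LL V L.τ L.Y C (S.cQ c') (S.xQ c') (Sum.inr (Sum.inl c)) = 0 := by
    intro c
    have h1 := hL1 (Sum.inr (Sum.inl c))
    rwa [sum_zero_eq _ (fun i => by rw [LL_I_of_ne Sum.inr_ne_inl, mul_zero]), zero_add] at h1
  have hTz : ∀ c, ∑ c', aP c' * TT V L.τ L.Y C (L.cP c') (L.xP c') (Sum.inr c) +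
      ∑ c', aQ c' * TT V L.τ L.Y C (S.cQ c') (S.xQ c') (Sum.inr c) = 0 := by
    intro c
    have h1 := hT1 (Sum.inr c)
    rwa [sum_zero_eq _ (fun i => by
        rw [TT_I_of h i (fun x _ => Sum.inr_ne_inl), mul_zero]),
      sum_zero_eq (fun s : (Σ i : I, Fin (L.n i)) => aG s * _) (fun s => by
        rw [TT_G_of_notMem _ _ _ (fun x => Sum.inr_ne_inl), mul_zero]), zero_add,
      zero_add] at h1
  have hPz : ∀ c c', c' ≠ c → LL V L.τ L.Y C (L.cP c') (L.xP c') (Sum.inr (Sum.inl c)) = 0 ∧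
      TT V L.τ L.Y C (L.cP c') (L.xP c') (Sum.inr c) = 0 := by
    intro c c' hne
    refine ⟨LL_P_z hne.symm, ?_⟩
    by_cases hz : L.isZ c'
    · rw [TT_P_isZ hz, if_neg fun h => hne (Sum.inr_injective h).symm]
    · exact TT_P_not hz _
  -- the linear relations
  have hN : ∀ c, ¬ S.bas c → aP c = 0 ∧ aQ c = 0 := by
    intro c hc
    have hQz : ∀ c', c' ≠ c → LL V L.τ L.Y C (S.cQ c') (S.xQ c') (Sum.inr (Sum.inl c)) = 0 ∧
        TT V L.τ L.Y C (S.cQ c') (S.xQ c') (Sum.inr c) = 0 := by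
      intro c' hne
      by_cases hc' : S.bas c'
      · rw [cQ_bas hc', xQ_bas hc']
        exact ⟨LL_J_zne hne.symm, TT_J_zne hne.symm⟩
      · rw [cQ_not hc', xQ_not hc']
        exact ⟨LL_N_z S hc hne.symm, TT_N_z S hc hne.symm⟩
    have h1 := hLz c
    have h2 := hTz c
    rw [sum_single_eq _ c fun c' hne => by rw [(hPz c c' hne).1, mul_zero],
      sum_single_eq _ c fun c' hne => by rw [(hQz c' hne).1, mul_zero],
      cQ_not hc, xQ_not hc] at h1
    rw [sum_single_eq _ c fun c' hne => by rw [(hPz c c' hne).2, mul_zero],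
      sum_single_eq _ c fun c' hne => by rw [(hQz c' hne).2, mul_zero],
      cQ_not hc, xQ_not hc] at h2
    by_cases hz : L.isZ c
    · rw [LL_P_isZ hz, mul_zero, zero_add] at h1
      have hQ := (mul_eq_zero.mp h1).resolve_right (LL_N_isZ S h hc hz)
      rw [TT_P_isZ hz, if_pos rfl, mul_one, hQ, zero_mul, add_zero] at h2
      exact ⟨h2, hQ⟩
    · rw [TT_P_not hz, mul_zero, zero_add] at h2
      have hQ := (mul_eq_zero.mp h2).resolve_right (TT_N_self S h hc)
      rw [hQ, zero_mul, add_zero] at h1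
      exact ⟨(mul_eq_zero.mp h1).resolve_right (LL_P_not h hz), hQ⟩
  have hQeq : ∀ (f : (Ts I Z → MvPolynomial L.υ (ZMod p)) → (Ts I Z → Ix A Z r → ℤ) →
      ResidueField V), ∑ c, aQ c * f (S.cQ c) (S.xQ c) = ∑ c, aQ c * f (L.cJ c) (L.xJ c) := by
    intro f
    refine Finset.sum_congr rfl fun c _ => ?_
    by_cases hc : S.bas c
    · rw [cQ_bas hc, xQ_bas hc]
    · rw [(hN c hc).2, zero_mul, zero_mul]
  have hB : ∀ c, S.bas c →
      aP c * LL V L.τ L.Y C (L.cP c) (L.xP c) (Sum.inr (Sum.inl c)) +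
        aQ c * LL V L.τ L.Y C (L.cJ c) (L.xJ c) (Sum.inr (Sum.inl c)) = 0 ∧
      aP c * TT V L.τ L.Y C (L.cP c) (L.xP c) (Sum.inr c) +
        aQ c * TT V L.τ L.Y C (L.cJ c) (L.xJ c) (Sum.inr c) = 0 := by
    intro c _
    have h1 := hLz c
    have h2 := hTz c
    rw [hQeq fun c x => LL V L.τ L.Y C c x (Sum.inr (Sum.inl _)),
      sum_single_eq _ c fun c' hne => by rw [(hPz c c' hne).1, mul_zero],
      sum_single_eq _ c fun c' hne => by rw [LL_J_zne hne.symm, mul_zero]] at h1
    rw [hQeq fun c x => TT V L.τ L.Y C c x (Sum.inr _),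
      sum_single_eq _ c fun c' hne => by rw [(hPz c c' hne).2, mul_zero],
      sum_single_eq _ c fun c' hne => by rw [TT_J_zne hne.symm, mul_zero]] at h2
    exact ⟨h1, h2⟩
  -- the coordinates of the basis
  have hPJ : ∀ c, aP c = 0 ∧ (L.lev (lam c) = 0 → aQ c = 0) := by
    intro c
    by_cases hc : S.bas c
    swap
    · exact ⟨(hN c hc).1, fun _ => (hN c hc).2⟩
    obtain ⟨h1, h2⟩ := hB c hc
    rcases L.exists_dom (h.hex c) with ⟨i₀, hd⟩ | ⟨hb, ha⟩
    · refine ⟨?_, fun h0 => ?_⟩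
      · by_cases hz : L.isZ c
        · rw [TT_P_isZ hz, if_pos rfl, mul_one, TT_J_z h hd, mul_zero, add_zero] at h2
          exact h2
        · rw [LL_J_z h hd, mul_zero, add_zero] at h1
          exact (mul_eq_zero.mp h1).resolve_right (LL_P_not h hz)
      · rw [← hd.lev_eq] at h0
        exact absurd ((map_eq_zero _).mp h0) (L.mon_ne _ _)
    · by_cases hz : L.isZ c
      · rw [LL_P_isZ hz, mul_zero, zero_add] at h1
        have hJ := (mul_eq_zero.mp h1).resolve_right (LL_J_et h hb ha hz)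
        rw [TT_P_isZ hz, if_pos rfl, mul_one, hJ, zero_mul, add_zero] at h2
        exact ⟨h2, fun _ => hJ⟩
      · rw [TT_P_not hz, mul_zero, zero_add] at h2
        have hJ := (mul_eq_zero.mp h2).resolve_right (TT_J_et h hb ha)
        rw [hJ, zero_mul, add_zero] at h1
        exact ⟨(mul_eq_zero.mp h1).resolve_right (LL_P_not h hz), fun _ => hJ⟩
  have hP : ∀ c, aP c = 0 := fun c => (hPJ c).1
  have hL2 : ∀ α, ∑ i, aI i * LL V L.τ L.Y C (L.cI i) (L.xI i) α +
      ∑ c, aQ c * LL V L.τ L.Y C (L.cJ c) (L.xJ c) α = 0 := by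
    intro α
    have h1 := hL1 α
    rwa [sum_zero_eq (fun c => aP c * _) (fun c => by rw [hP, zero_mul]), zero_add,
      hQeq fun c x => LL V L.τ L.Y C c x α] at h1
  have hT2 : ∀ l, ∑ i, aI i * TT V L.τ L.Y C (L.cI i) (L.xI i) l +
      (∑ s, aG s * TT V L.τ L.Y C (L.cG s.1 s.2) 0 l +
        ∑ c, aQ c * TT V L.τ L.Y C (L.cJ c) (L.xJ c) l) = 0 := by
    intro l
    have h1 := hT1 l
    rwa [sum_zero_eq (fun c => aP c * _) (fun c => by rw [hP, zero_mul]), zero_add,
      hQeq fun c x => TT V L.τ L.Y C c x l] at h1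
  -- the blocks of the factors
  have block : ∀ i : I, (∀ (j : Fin (L.n i)) c,
      aQ c * TT V L.τ L.Y C (L.cJ c) (L.xJ c) (Sum.inl ⟨i, Sum.inl j⟩) = 0) →
      ∀ j : Fin (L.n i), aG ⟨i, j⟩ = 0 := by
    intro i hi
    refine L.ndg i _ (fun s => resv V (L.y i s)) (D_ne L i) (fun j => aG ⟨i, j⟩) fun j => ?_
    have h1 := hT2 (Sum.inl ⟨i, Sum.inl j⟩)
    rw [sum_zero_eq _ (fun s => by
        rw [TT_I_of h s (by
          intro x _ h'
          have h2 := fst_of h'
          obtain ⟨s1, s2⟩ := s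
          have h3 : i = s1 := h2
          subst h3
          exact Sum.inl_ne_inr (snd_of h')), mul_zero]), zero_add,
      sum_zero_eq (fun c => aQ c * _) (fun c => hi j c), add_zero,
      Fintype.sum_sigma, sum_single_eq (fun i' => ∑ j, aG ⟨i', j⟩ * _) i fun i' hne =>
        sum_zero_eq _ fun j => by
          rw [TT_G_of_notMem _ _ _ (by
            intro b' h'
            exact hne (fst_of h').symm), mul_zero]] at h1
    rw [← h1]
    exact Finset.sum_congr rfl fun k _ => by rw [TT_G_same]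
  have hQ : ∀ c, aQ c = 0 := by
    have hdom : ∀ c, aQ c ≠ 0 → ∃ i, L.Dom c i := by
      intro c hc
      rcases L.exists_dom (h.hex c) with hd | ⟨hb, ha⟩
      · exact hd
      · exact absurd ((hPJ c).2 (lev_eq_zero L ha)) hc
    refine level h S aQ (fun c hc => (hN c hc).2) (fun c hc => (hPJ c).2 hc) fun i hi => ?_
    rcases L.typ i hi with ⟨x, hx, he, hu⟩ | ⟨x, hu, hx⟩
    · have h1 := hL2 (Sum.inl ⟨i, x⟩)
      rw [sum_zero_eq _ (fun s => by
          by_cases hs : (Sum.inl ⟨i, x⟩ : Ix A Z r) = Sum.inl s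
          · have hs' : L.l s.1 s.2 ≠ none := by
              rw [← Sum.inl_injective hs]; exact hx
            rw [LL_I_some h hs', mul_zero]
          · rw [LL_I_of_ne hs, mul_zero]), zero_add] at h1
      have h2 : ∀ c, aQ c * LL V L.τ L.Y C (L.cJ c) (L.xJ c) (Sum.inl ⟨i, x⟩) =
          -(resv V (L.y i (L.u i)) * ((L.e i x : ℤ) : ResidueField V)) *
          (aQ c * (algebraMap (ZMod p) (ResidueField V) (lam c i) *
            ee V L.τ C (mrel C (L.cJ c) (L.xJ c)) (Sum.inl i))) := by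
        intro c
        by_cases hc : aQ c = 0
        · rw [hc]; ring
        · obtain ⟨i₀, hd⟩ := hdom c hc
          rw [LL_J_a h hd i hi x]; ring
      rw [Finset.sum_congr rfl fun c _ => h2 c, ← Finset.mul_sum] at h1
      refine (mul_eq_zero.mp h1).resolve_left (neg_ne_zero.mpr (mul_ne_zero ?_ (zc_ne V he)))
      rw [resv_ne_zero_iff (L.vy _ _)]
      exact hu
    · have hG : ∀ j, aG ⟨i, j⟩ = 0 := block i fun j c => by
        rw [TT_J_of (fun _ => Sum.inl_ne_inr) (by
          intro j' h'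
          have h2 := fst_of h'
          subst h2
          have h3 := snd_of h'
          rw [hu] at h3
          exact Sum.inl_ne_inr h3), mul_zero]
      have h1 := hT2 (Sum.inl ⟨i, L.u i⟩)
      rw [sum_zero_eq _ (fun s => by
          rw [TT_I_of h s (by
            intro y hy h'
            have h2 := fst_of h'
            obtain ⟨s1, s2⟩ := s
            have h3 : i = s1 := h2
            subst h3
            have h4 := snd_of h'
            rw [hu] at h4
            rw [← Sum.inr_injective h4] at hy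
            exact hx s2 hy), mul_zero]), zero_add,
        sum_zero_eq (fun s : (Σ i : I, Fin (L.n i)) => aG s * _) (fun s => by
          by_cases hs : s.1 = i
          · obtain ⟨s1, s2⟩ := s
            have hs' : s1 = i := hs
            subst hs'
            rw [hG, zero_mul]
          · rw [TT_G_of_notMem _ _ _ (by
              intro b' h'
              exact hs (fst_of h').symm), mul_zero]), zero_add] at h1
      have h2 : ∀ c, aQ c * TT V L.τ L.Y C (L.cJ c) (L.xJ c) (Sum.inl ⟨i, L.u i⟩) =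
          -(aQ c * (algebraMap (ZMod p) (ResidueField V) (lam c i) *
            ee V L.τ C (mrel C (L.cJ c) (L.xJ c)) (Sum.inl i))) := by
        intro c
        rw [TT_J_u i hi]; ring
      rw [Finset.sum_congr rfl fun c _ => h2 c, Finset.sum_neg_distrib] at h1
      exact neg_eq_zero.mp h1
  have hG : ∀ s, aG s = 0 := fun s => block s.1 (fun j c => by rw [hQ, zero_mul]) s.2
  have hL3 : ∀ α, ∑ i, aI i * LL V L.τ L.Y C (L.cI i) (L.xI i) α = 0 := by
    intro α
    have h1 := hL2 α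
    rwa [sum_zero_eq (fun c => aQ c * _) (fun c => by rw [hQ, zero_mul]), add_zero] at h1
  have hT3 : ∀ l, ∑ i, aI i * TT V L.τ L.Y C (L.cI i) (L.xI i) l = 0 := by
    intro l
    have h1 := hT2 l
    rwa [sum_zero_eq (fun c => aQ c * _) (fun c => by rw [hQ, zero_mul]), add_zero,
      sum_zero_eq (fun s : (Σ i : I, Fin (L.n i)) => aG s * _) (fun s => by
        rw [hG, zero_mul]), add_zero] at h1
  refine ⟨fun s => ?_, hG, hP, hQ, hW⟩
  cases hs : L.l s.1 s.2 with
  | none =>
    have h1 := hL3 (Sum.inl s)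
    rw [sum_single_eq _ s fun s' hne => by
      rw [LL_I_of_ne (fun h' => hne (Sum.inl_injective h').symm), mul_zero]] at h1
    exact (mul_eq_zero.mp h1).resolve_right (LL_I_none h hs)
  | some x =>
    have h1 := hT3 (Sum.inl ⟨s.1, Sum.inr x⟩)
    obtain ⟨w, hw0, hw⟩ := TT_I_some (L := L) h hs
    rw [sum_single_eq _ s fun s' hne => by
      rw [TT_I_of h s' (by
        intro x' hx' h'
        apply hne
        have h2 := fst_of h'
        obtain ⟨s1, s2⟩ := s
        obtain ⟨s1', s2'⟩ := s'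
        have h3 : s1 = s1' := h2
        subst h3
        have h4 := Sum.inr_injective (snd_of h')
        have h5 : L.l s1 s2' = some x' := hx'
        rw [← h4] at h5
        have h6 := L.linj s1 s2' s2 x h5 hs
        rw [h6]), mul_zero], hw, if_pos rfl] at h1
    exact (mul_eq_zero.mp h1).resolve_right hw0

/-- **Local regularity.** -/
theorem isRegular_local (h : Cx L M' C) (S : Adp L)
    (halg : Algebra.IsAlgebraic (Algebra.adjoin (ZMod p)
      (Set.range (Sum.elim (fun j => mon L.τ (C.b j)) L.Y))) K)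
    (htr : ((∑ i, d i : ℕ) : Cardinal.{0}) ≤ Algebra.trdeg (ZMod p) K) :
    IsRegularLocalRing (vloc V (Algebra.adjoin ℤ
      (Set.range (Sum.elim (fun j => mon L.τ (C.b j)) L.Y)))) := by
  refine isRegular_of_mrel (ZMod.ringHom_surjective (Int.castRingHom (ZMod p))) V
    (L.τ_ne_zero h.hex) h.hC h.hb (L.vY h.hex) halg
    (fun j : L.Rw => mrel C (S.cc j) (S.xx j))
    (fun j => mrel_ok fun s _ s' _ => h.hS _ (xx_mem h S j s) _ (xx_mem h S j s'))
    (xx_rel h.hex S) ?_ ?_
  · have h1 := card_eq L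
    calc ((Fintype.card (Ix A Z r) : Cardinal.{0}) + Fintype.card L.υ) =
          ((Fintype.card (Ix A Z r) + Fintype.card L.υ : ℕ) : Cardinal.{0}) := by
            push_cast; rfl
      _ = ((∑ i, d i + Fintype.card L.Rw : ℕ) : Cardinal.{0}) := by rw [h1]
      _ = ((∑ i, d i : ℕ) : Cardinal.{0}) + Fintype.card L.Rw := by push_cast; rfl
      _ ≤ _ := by gcongr
  · intro a ha1 ha2
    exact indep h S a ha1 ha2

end Pool.Agent.H96.Y
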