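import Mathlib

/-!
# Characters of finite commutative groups
-/

set_option autoImplicit false
set_option linter.unusedSectionVars false

namespace Pool.Agent.H96.Y

section Add

variable {p : ℕ} [Fact p.Prime] {G : Type} [CommGroup G] {n : ℕ}

/-- The additive characters. -/
def IsAdd (c : G → ZMod p) : Prop := ∀ g h, c (g * h) = c g + c h

theorem IsAdd.one {c : G → ZMod p} (h : IsAdd c) : c 1 = 0 := by
  have := h 1 1
  rw [mul_one] at this
  simpa using this

theorem IsAdd.pow {c : G → ZMod p} (h : IsAdd c) (g : G) (m : ℕ) : c (g ^ m) = m * c g := by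
  induction m with
  | zero => rw [pow_zero, h.one, Nat.cast_zero, zero_mul]
  | succ m ih => rw [pow_succ, h, ih, Nat.cast_succ]; ring

/-- Double annihilators. -/
theorem exists_add {c : Fin n → G → ZMod p} (hc : ∀ i, IsAdd (c i)) (γ : Fin n → ZMod p)
    (h : ∀ a : Fin n → ZMod p, (∀ g, ∑ i, a i * c i g = 0) → ∑ i, a i * γ i = 0) :
    ∃ g, ∀ i, c i g = γ i := by
  classical
  let W : Submodule (ZMod p) (Fin n → ZMod p) :=
    { carrier := Set.range fun g i => c i g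
      zero_mem' := ⟨1, funext fun i => (hc i).one⟩
      add_mem' := by
        rintro _ _ ⟨g, rfl⟩ ⟨g', rfl⟩
        exact ⟨g * g', funext fun i => hc i _ _⟩
      smul_mem' := by
        rintro a _ ⟨g, rfl⟩
        refine ⟨g ^ a.val, funext fun i => ?_⟩
        show c i (g ^ a.val) = a * c i g
        rw [(hc i).pow, ZMod.natCast_zmod_val] }
  by_contra hcon
  have hγ : γ ∉ W := by
    rintro ⟨g, hg⟩
    exact hcon ⟨g, fun i => congrFun hg i⟩
  obtain ⟨φ, hφ, hφW⟩ := Submodule.exists_dual_map_eq_bot_of_notMem hγ inferInstance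
  have h1 : ∀ v : Fin n → ZMod p, φ v = ∑ i, φ (Pi.single i 1) * v i := by
    intro v
    have h2 : v = ∑ i, v i • (Pi.single i 1 : Fin n → ZMod p) := by
      funext j
      rw [Finset.sum_apply, Finset.sum_eq_single j]
      · rw [Pi.smul_apply, Pi.single_eq_same, smul_eq_mul, mul_one]
      · intro i _ hi
        rw [Pi.smul_apply, Pi.single_eq_of_ne (Ne.symm hi), smul_zero]
      · intro h; exact absurd (Finset.mem_univ _) h
    conv_lhs => rw [h2]
    rw [map_sum]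
    refine Finset.sum_congr rfl fun i _ => ?_
    rw [map_smul, smul_eq_mul, mul_comm]
  refine hφ ?_
  rw [h1]
  refine h _ fun g => ?_
  rw [← h1 fun i => c i g]
  have h3 : φ (fun i => c i g) ∈ W.map φ := Submodule.mem_map_of_mem ⟨g, rfl⟩
  rw [hφW, Submodule.mem_bot] at h3
  exact h3

end Add

section Mul

variable {k : Type} [Field k] {G : Type} [CommGroup G] [Finite G] {e : ℕ} {ζ : k}

theorem enough (he : e ≠ 0) (hζ : IsPrimitiveRoot ζ e) {m : ℕ} (hm : m ∣ e) :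
    HasEnoughRootsOfUnity k m := by
  have hm0 : m ≠ 0 := by
    rintro rfl
    exact he (zero_dvd_iff.mp hm)
  have : NeZero m := ⟨hm0⟩
  obtain ⟨j, hj⟩ := hm
  refine ⟨⟨ζ ^ j, hζ.pow (Nat.pos_of_ne_zero he) (by rw [hj, mul_comm])⟩, inferInstance⟩

/-- The roots of unity. -/
theorem exists_mul {S : Type} [Fintype S] [DecidableEq S] (he : e ≠ 0) (hζ : IsPrimitiveRoot ζ e)
    {χ : S → G →* kˣ} (hχ : ∀ s g, χ s g ^ e = 1) (η : S → kˣ) (hη : ∀ s, η s ^ e = 1)
    (h : ∀ β : S → Fin e, (∀ g, ∏ s, χ s g ^ (β s : ℕ) = 1) → ∏ s, η s ^ (β s : ℕ) = 1) :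
    ∃ g, ∀ s, χ s g = η s := by
  have hne : NeZero e := ⟨he⟩
  let A : Type := S → rootsOfUnity e k
  let _ : CommGroup A := inferInstanceAs (CommGroup (S → rootsOfUnity e k))
  have : Finite A := inferInstanceAs (Finite (S → rootsOfUnity e k))
  let Φ : G →* A :=
    { toFun := fun g s => ⟨χ s g, by rw [mem_rootsOfUnity]; exact hχ s g⟩
      map_one' := by
        funext s
        exact Subtype.ext (map_one (χ s))
      map_mul' := fun g g' => by
        funext s
        exact Subtype.ext (map_mul (χ s) g g') }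
  let ηA : A := fun s => ⟨η s, by rw [mem_rootsOfUnity]; exact hη s⟩
  by_contra hcon
  have hnot : ηA ∉ Φ.range := by
    rintro ⟨g, hg⟩
    exact hcon ⟨g, fun s => congrArg Subtype.val (congrFun hg s)⟩
  have hA : ∀ a : A, a ^ e = 1 := by
    intro a
    funext s
    refine Subtype.ext ?_
    have h1 := (a s).2
    rw [mem_rootsOfUnity] at h1
    exact h1
  have hexp : Monoid.exponent (A ⧸ Φ.range) ∣ e := by
    refine Monoid.exponent_dvd_of_forall_pow_eq_one fun q => ?_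
    obtain ⟨a, rfl⟩ := QuotientGroup.mk_surjective q
    rw [← QuotientGroup.mk_pow, hA, QuotientGroup.mk_one]
  have := enough he hζ hexp
  have hq : (QuotientGroup.mk ηA : A ⧸ Φ.range) ≠ 1 := by
    rw [Ne, QuotientGroup.eq_one_iff]
    exact hnot
  obtain ⟨φ, hφ⟩ := CommGroup.exists_apply_ne_one_of_hasEnoughRootsOfUnity (A ⧸ Φ.range) k hq
  let φ' : A →* kˣ := φ.comp (QuotientGroup.mk' Φ.range)
  have hφ'Φ : ∀ g, φ' (Φ g) = 1 := by
    intro g
    show φ (QuotientGroup.mk (Φ g)) = 1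
    rw [(QuotientGroup.eq_one_iff (N := Φ.range) (Φ g)).mpr (MonoidHom.mem_range.mpr ⟨g, rfl⟩),
      map_one]
  -- the exponents
  have hpow : ∀ {u : kˣ}, u ^ e = 1 → ∃ b < e, u = (hζ.isUnit he).unit ^ b := by
    intro u hu
    have h1 : (u : k) ^ e = 1 := by rw [← Units.val_pow_eq_pow_val, hu, Units.val_one]
    obtain ⟨b, hb, h2⟩ := hζ.eq_pow_of_pow_eq_one h1
    refine ⟨b, hb, Units.ext ?_⟩
    rw [Units.val_pow_eq_pow_val, IsUnit.unit_spec, h2]
  obtain ⟨ζu, hζu, hζe⟩ : ∃ ζu : kˣ, (∀ {u : kˣ}, u ^ e = 1 → ∃ b < e, u = ζu ^ b) ∧ ζu ^ e = 1 := by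
    refine ⟨_, hpow, Units.ext ?_⟩
    rw [Units.val_pow_eq_pow_val, IsUnit.unit_spec, hζ.pow_eq_one, Units.val_one]
  let ζA : rootsOfUnity e k := ⟨ζu, by rw [mem_rootsOfUnity]; exact hζe⟩
  have hβ : ∀ s, ∃ b : Fin e, ∀ u : rootsOfUnity e k,
      φ' (Pi.mulSingle s u) = (u : kˣ) ^ (b : ℕ) := by
    intro s
    have h1 : φ' (Pi.mulSingle s ζA) ^ e = 1 := by
      rw [← map_pow, hA, map_one]
    obtain ⟨b, hb, h2⟩ := hζu h1
    refine ⟨⟨b, hb⟩, fun u => ?_⟩
    have h3 := u.2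
    rw [mem_rootsOfUnity] at h3
    obtain ⟨j, -, hj⟩ := hζu h3
    have h4 : u = ζA ^ j := Subtype.ext hj
    have h5 : (Pi.mulSingle s u : A) = (Pi.mulSingle s ζA : A) ^ j := by
      rw [h4]
      exact Pi.mulSingle_pow (f := fun _ => rootsOfUnity e k) s ζA j
    rw [h5, map_pow, h2, hj]
    show (ζu ^ b) ^ j = (ζu ^ j) ^ b
    rw [← pow_mul, ← pow_mul, mul_comm]
  choose β hβ using hβ
  have hprod : ∀ v : A, φ' v = ∏ s, (v s : kˣ) ^ (β s : ℕ) := by
    intro v
    have h1 : v = ∏ s, (Pi.mulSingle s (v s) : A) := by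
      exact (Finset.univ_prod_mulSingle v).symm
    conv_lhs => rw [h1]
    rw [map_prod]
    exact Finset.prod_congr rfl fun s _ => hβ s (v s)
  have h1 := h β fun g => by
    have := hprod (Φ g)
    rw [hφ'Φ] at this
    exact this.symm
  refine hφ ?_
  have h2 := hprod ηA
  have h3 : φ' ηA = 1 := h2.trans h1
  exact h3

end Mul

section Both

variable {p : ℕ} [Fact p.Prime] {k : Type} [Field k] {G : Type} [CommGroup G] [Finite G] {e n : ℕ}
  {ζ : k}

/-- Both characters. -/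
theorem exists_both {S : Type} [Fintype S] [DecidableEq S] (hpe : ¬ p ∣ e)
    (hζ : IsPrimitiveRoot ζ e) {χ : S → G →* kˣ} (hχ : ∀ s g, χ s g ^ e = 1) (η : S → kˣ)
    (hη : ∀ s, η s ^ e = 1)
    (h : ∀ β : S → Fin e, (∀ g, ∏ s, χ s g ^ (β s : ℕ) = 1) → ∏ s, η s ^ (β s : ℕ) = 1)
    {c : Fin n → G → ZMod p} (hc : ∀ i, IsAdd (c i)) (γ : Fin n → ZMod p)
    (h' : ∀ a : Fin n → ZMod p, (∀ g, ∑ i, a i * c i g = 0) → ∑ i, a i * γ i = 0) :
    ∃ g, (∀ i, c i g = γ i) ∧ ∀ s, χ s g = η s := by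
  have he : e ≠ 0 := by
    rintro rfl
    exact hpe (dvd_zero p)
  obtain ⟨g₁, hg₁⟩ := exists_add hc γ h'
  obtain ⟨g₂, hg₂⟩ := exists_mul he hζ hχ η hη h
  have hcop : Nat.Coprime p e := (Nat.Prime.coprime_iff_not_dvd Fact.out).mpr hpe
  obtain ⟨u, hu1, hu2⟩ := Nat.chineseRemainder hcop 1 0
  obtain ⟨v, hv1, hv2⟩ := Nat.chineseRemainder hcop 0 1
  have hpow : ∀ {x : kˣ} {a b : ℕ}, x ^ e = 1 → a ≡ b [MOD e] → x ^ a = x ^ b := by
    intro x a b hx hab
    exact pow_eq_pow_iff_modEq.mpr (hab.of_dvd (orderOf_dvd_of_pow_eq_one hx))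
  refine ⟨g₁ ^ u * g₂ ^ v, fun i => ?_, fun s => ?_⟩
  · rw [hc i, (hc i).pow, (hc i).pow, hg₁]
    have h1 : (u : ZMod p) = 1 := by
      have := (ZMod.natCast_eq_natCast_iff _ _ _).mpr hu1
      rwa [Nat.cast_one] at this
    have h2 : (v : ZMod p) = 0 := by
      have := (ZMod.natCast_eq_natCast_iff _ _ _).mpr hv1
      rwa [Nat.cast_zero] at this
    rw [h1, h2]; ring
  · rw [map_mul, map_pow, map_pow, hg₂, hpow (hχ s g₁) hu2, hpow (hη s) hv2, pow_zero, one_mul,
      pow_one]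

/-- The additive character of a group of order not divisible by `p ^ 2`. -/
theorem exists_c (hpe : ¬ p ∣ e) (N : Subgroup G) (hN : ¬ p ^ 2 ∣ N.index)
    (hG : ∀ g : G, g ^ (p * e) ∈ N) :
    ∃ c : G → ZMod p, IsAdd c ∧ (∀ g ∈ N, c g = 0) ∧ ∀ g, c g = 0 → g ^ e ∈ N := by
  classical
  let P : Subgroup (G ⧸ N) :=
    { carrier := {q | q ^ p = 1}
      one_mem' := one_pow p
      mul_mem' := by
        intro a b ha hb
        show (a * b) ^ p = 1
        rw [mul_pow, ha, hb, one_mul]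
      inv_mem' := by
        intro a ha
        show a⁻¹ ^ p = 1
        rw [inv_pow, ha, inv_one] }
  have hPp : IsPGroup p P := by
    intro q
    refine ⟨1, ?_⟩
    rw [pow_one]
    exact Subtype.ext q.2
  obtain ⟨j, hj⟩ := IsPGroup.iff_card.mp hPp
  have hdvd : Nat.card P ∣ N.index := Subgroup.card_subgroup_dvd_card P
  have hj1 : j ≤ 1 := by
    by_contra hcon
    apply hN
    refine dvd_trans (pow_dvd_pow p (by omega : 2 ≤ j)) ?_
    rw [← hj]
    exact hdvd
  obtain ⟨ι, hι⟩ : ∃ ι : P →* Multiplicative (ZMod p), Function.Injective ι := by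
    rcases Nat.le_one_iff_eq_zero_or_eq_one.mp hj1 with rfl | rfl
    · rw [pow_zero] at hj
      have := Nat.card_eq_one_iff_unique.mp hj
      exact ⟨1, fun a b _ => this.1.elim a b⟩
    · rw [pow_one] at hj
      have h2 : Nat.card (Multiplicative (ZMod p)) = p := by
        rw [Nat.card_eq_fintype_card, Fintype.card_multiplicative, ZMod.card]
      exact ⟨(mulEquivOfPrimeCardEq hj h2).toMonoidHom, (mulEquivOfPrimeCardEq hj h2).injective⟩
  have hmem : ∀ g : G, (QuotientGroup.mk (g ^ e) : G ⧸ N) ∈ P := by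
    intro g
    show (QuotientGroup.mk (g ^ e) : G ⧸ N) ^ p = 1
    rw [← QuotientGroup.mk_pow, ← pow_mul, mul_comm, QuotientGroup.eq_one_iff]
    exact hG g
  refine ⟨fun g => Multiplicative.toAdd (ι ⟨_, hmem g⟩), fun g h => ?_, fun g hg => ?_,
    fun g hg => ?_⟩
  · have h1 : (⟨_, hmem (g * h)⟩ : P) = ⟨_, hmem g⟩ * ⟨_, hmem h⟩ := by
      refine Subtype.ext ?_
      show (QuotientGroup.mk ((g * h) ^ e) : G ⧸ N) =
        QuotientGroup.mk (g ^ e) * QuotientGroup.mk (h ^ e)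
      rw [mul_pow, QuotientGroup.mk_mul]
    show Multiplicative.toAdd (ι ⟨_, hmem (g * h)⟩) = _
    rw [h1, map_mul, toAdd_mul]
  · have h1 : (⟨_, hmem g⟩ : P) = 1 :=
      Subtype.ext ((QuotientGroup.eq_one_iff _).mpr (N.pow_mem hg e))
    show Multiplicative.toAdd (ι ⟨_, hmem g⟩) = 0
    rw [h1, map_one, toAdd_one]
  · have h1 : ι ⟨_, hmem g⟩ = 1 := by
      rw [← toAdd_eq_zero]
      exact hg
    have h2 := hι (h1.trans (map_one ι).symm)
    have h3 : (QuotientGroup.mk (g ^ e) : G ⧸ N) = 1 := congrArg Subtype.val h2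
    exact (QuotientGroup.eq_one_iff _).mp h3

/-- The multiplicative characters separate the rest. -/
theorem exists_chi (hpe : ¬ p ∣ e) (hζ : IsPrimitiveRoot ζ e) (N : Subgroup G)
    (hG : ∀ g : G, g ^ (p * e) ∈ N) {g : G} (hg : ∀ χ : G →* kˣ, (∀ h ∈ N, χ h = 1) → χ g = 1) :
    g ^ p ∈ N := by
  have he : e ≠ 0 := by
    rintro rfl
    exact hpe (dvd_zero p)
  let R : Subgroup (G ⧸ N) := (powMonoidHom p : (G ⧸ N) →* (G ⧸ N)).range
  have hexp : Monoid.exponent R ∣ e := by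
    refine Monoid.exponent_dvd_of_forall_pow_eq_one ?_
    rintro ⟨_, q, rfl⟩
    refine Subtype.ext ?_
    show (q ^ p) ^ e = 1
    obtain ⟨g, rfl⟩ := QuotientGroup.mk_surjective q
    rw [← pow_mul, ← QuotientGroup.mk_pow, QuotientGroup.eq_one_iff]
    exact hG g
  have := enough he hζ hexp
  let ρ : G →* R := (powMonoidHom p : (G ⧸ N) →* (G ⧸ N)).rangeRestrict.comp (QuotientGroup.mk' N)
  by_contra hcon
  have h1 : ρ g ≠ 1 := by
    intro h
    apply hcon
    rw [← QuotientGroup.eq_one_iff]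
    exact congrArg Subtype.val h
  obtain ⟨φ, hφ⟩ := CommGroup.exists_apply_ne_one_of_hasEnoughRootsOfUnity R k h1
  refine hφ (hg (φ.comp ρ) fun h hh => ?_)
  have h2 : ρ h = 1 := by
    refine Subtype.ext ?_
    show (QuotientGroup.mk h : G ⧸ N) ^ p = 1
    rw [(QuotientGroup.eq_one_iff _).mpr hh, one_pow]
  show φ (ρ h) = 1
  rw [h2, map_one]

theorem mem_of_coprime (hpe : ¬ p ∣ e) (N : Subgroup G) {g : G} (h1 : g ^ p ∈ N) (h2 : g ^ e ∈ N) :
    g ∈ N := by
  have hcop : Nat.Coprime p e := (Nat.Prime.coprime_iff_not_dvd Fact.out).mpr hpe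
  have h3 : (QuotientGroup.mk g : G ⧸ N) = 1 := by
    rw [← orderOf_eq_one_iff]
    have h4 : orderOf (QuotientGroup.mk g : G ⧸ N) ∣ p := orderOf_dvd_of_pow_eq_one (by
      rw [← QuotientGroup.mk_pow]; exact (QuotientGroup.eq_one_iff _).mpr h1)
    have h5 : orderOf (QuotientGroup.mk g : G ⧸ N) ∣ e := orderOf_dvd_of_pow_eq_one (by
      rw [← QuotientGroup.mk_pow]; exact (QuotientGroup.eq_one_iff _).mpr h2)
    exact Nat.eq_one_of_dvd_coprimes hcop h4 h5
  exact (QuotientGroup.eq_one_iff _).mp h3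

end Both

end Pool.Agent.H96.Y
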