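import Pool.Agent.H96.Y.Q1

/-!
# Fixed fields of finite groups
-/

set_option autoImplicit false
set_option linter.unusedSectionVars false

namespace Pool.Agent.H96.Y

open Polynomial

section Fix

/-- The Galois correspondence. -/
theorem top_of_fixed {G E : Type} [Group G] [Finite G] [Field E] [MulSemiringAction G E]
    (M : Subfield E) (hM : ∀ x : E, (∀ g : G, g • x = x) → x ∈ M)
    (h : ∀ g : G, (∀ x ∈ M, g • x = x) → ∀ x : E, g • x = x) : M = ⊤ := by
  have : IsGalois (FixedPoints.subfield G E) E := ⟨⟩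
  let M' : IntermediateField (FixedPoints.subfield G E) E :=
    M.toIntermediateField fun x => hM x x.2
  have h1 : M'.fixingSubgroup = ⊥ := by
    rw [eq_bot_iff]
    intro σ hσ
    obtain ⟨g, rfl⟩ := FixedPoints.toAlgAut_surjective G E σ
    rw [IntermediateField.mem_fixingSubgroup_iff] at hσ
    rw [Subgroup.mem_bot]
    refine AlgEquiv.ext fun x => ?_
    exact h g (fun x hx => hσ x hx) x
  have h2 := IsGalois.fixedField_fixingSubgroup M'
  rw [h1, IntermediateField.fixedField_bot] at h2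
  rw [eq_top_iff]
  intro x _
  have h3 : x ∈ (⊤ : IntermediateField (FixedPoints.subfield G E) E) := trivial
  rw [h2] at h3
  exact h3

/-- The fixed field of a group of automorphisms which is large enough on generators. -/
theorem mem_of_aut {G L : Type} [Group G] [Field L] [MulSemiringAction G L] (M : Subfield L)
    (S : Set L) (hM : ∀ x ∈ M, ∀ g : G, g • x = x)
    (hgen : ∀ T : Subfield L, M ≤ T → S ⊆ T → T = ⊤)
    (hS : ∀ s ∈ S, ∃ P : M[X], P.Separable ∧ (P.map (algebraMap M L)).Splits ∧ aeval s P = 0)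
    (haut : ∀ τ : L ≃+* L, (∀ x ∈ M, τ x = x) → ∃ g : G, ∀ s ∈ S, τ s = g • s) {u : L}
    (hu : ∀ g : G, g • u = u) : u ∈ M := by
  have hint : ∀ s ∈ S, IsIntegral M s := by
    intro s hs
    obtain ⟨P, h1, h2, h3⟩ := hS s hs
    exact IsAlgebraic.isIntegral ⟨P, h1.ne_zero, h3⟩
  have hspl : ∀ s ∈ S, IsIntegral M s ∧ ((minpoly M s).map (algebraMap M L)).Splits := by
    intro s hs
    obtain ⟨P, h1, h2, h3⟩ := hS s hs
    refine ⟨hint s hs, Splits.of_dvd h2 ?_ ?_⟩
    · rw [Polynomial.map_ne_zero_iff (algebraMap M L).injective]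
      exact h1.ne_zero
    · exact Polynomial.map_dvd _ (minpoly.dvd _ _ h3)
  have htop : IntermediateField.adjoin M S = ⊤ := by
    have h1 := hgen (IntermediateField.adjoin M S).toSubfield (fun x hx =>
      (IntermediateField.adjoin M S).algebraMap_mem ⟨x, hx⟩) (IntermediateField.subset_adjoin M S)
    rw [eq_top_iff]
    intro x _
    have h2 : x ∈ (IntermediateField.adjoin M S).toSubfield := by rw [h1]; trivial
    exact h2
  have hsep : Algebra.IsSeparable M L := by
    have h1 : Algebra.IsSeparable M (IntermediateField.adjoin M S) := by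
      rw [IntermediateField.isSeparable_adjoin_iff_isSeparable]
      intro s hs
      obtain ⟨P, h1, h2, h3⟩ := hS s hs
      exact h1.of_dvd (minpoly.dvd _ _ h3)
    rw [htop] at h1
    exact AlgEquiv.Algebra.isSeparable (IntermediateField.topEquiv (F := M) (E := L))
  have hnor : Normal M L := by
    refine ⟨fun x => ?_⟩
    have hx : x ∈ IntermediateField.adjoin M S := by rw [htop]; trivial
    exact IntermediateField.splits_of_mem_adjoin M L hspl hx
  have hgal : IsGalois M L := ⟨⟩
  have hb : u ∈ (⊥ : IntermediateField M L) := by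
    rw [InfiniteGalois.mem_bot_iff_fixed]
    intro τ
    obtain ⟨g, hg⟩ := haut τ.toRingEquiv fun x hx => τ.commutes ⟨x, hx⟩
    -- the set where `τ` and `g` agree
    let T : Subfield L :=
      { carrier := {x | τ x = g • x}
        mul_mem' := by
          intro a b ha hb
          show τ (a * b) = g • (a * b)
          rw [map_mul, smul_mul', ha, hb]
        one_mem' := by
          show τ 1 = g • 1
          rw [map_one, smul_one]
        add_mem' := by
          intro a b ha hb
          show τ (a + b) = g • (a + b)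
          rw [map_add, smul_add, ha, hb]
        zero_mem' := by
          show τ 0 = g • 0
          rw [map_zero, smul_zero]
        neg_mem' := by
          intro a ha
          show τ (-a) = g • (-a)
          rw [map_neg, smul_neg, ha]
        inv_mem' := by
          intro a ha
          show τ a⁻¹ = g • a⁻¹
          rw [map_inv₀, smul_inv'', ha] }
    have hT := hgen T (fun x hx => by
      show τ x = g • x
      rw [hM x hx g]
      exact τ.commutes ⟨x, hx⟩) hg
    have h1 : u ∈ T := by rw [hT]; trivial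
    exact h1.trans (hu g)
  obtain ⟨y, hy⟩ := IntermediateField.mem_bot.mp hb
  rw [← hy]
  exact y.2

end Fix

section Stable

variable {k L G : Type} [Field k] [Field L] [Algebra k L] [CommGroup G] [Finite G]
  [MulSemiringAction G L] [SMulCommClass G k L]

/-- The action on a stable subfield. -/
abbrev stAct (E : IntermediateField k L) (hE : ∀ (g : G), ∀ x ∈ E, g • x ∈ E) :
    MulSemiringAction G E where
  smul g x := ⟨g • (x : L), hE g x x.2⟩
  one_smul x := Subtype.ext (one_smul G (x : L))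
  mul_smul g h x := Subtype.ext (mul_smul g h (x : L))
  smul_zero g := Subtype.ext (smul_zero g)
  smul_add g x y := Subtype.ext (smul_add g (x : L) (y : L))
  smul_one g := Subtype.ext (smul_one g)
  smul_mul g x y := Subtype.ext (smul_mul' g (x : L) (y : L))

/-- The Galois correspondence in a stable subfield. -/
theorem le_of_fixed (E : IntermediateField k L) (hE : ∀ (g : G), ∀ x ∈ E, g • x ∈ E)
    (T : Subfield L) (hT : ∀ x ∈ E, (∀ g : G, g • x = x) → x ∈ T)
    (h : ∀ g : G, (∀ x ∈ E, x ∈ T → g • x = x) → ∀ x ∈ E, g • x = x) : ∀ x ∈ E, x ∈ T := by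
  let _ := stAct E hE
  have h1 := top_of_fixed (G := G) (T.comap (algebraMap E L)) (fun x hx =>
    hT x x.2 fun g => congrArg Subtype.val (hx g)) (fun g hg x => Subtype.ext (h g (fun x hx hxT =>
      congrArg Subtype.val (hg ⟨x, hx⟩ hxT)) x x.2))
  intro x hx
  have h2 : (⟨x, hx⟩ : E) ∈ T.comap (algebraMap E L) := by rw [h1]; trivial
  exact h2

variable (E : IntermediateField k L) (N : Subgroup G)

/-- The twisted sums. -/
noncomputable def tw (N : Subgroup G) (w : G → k) (a : L) : L :=
  open Classical in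
  haveI : Fintype (G ⧸ N) := Fintype.ofFinite _
  ∑ q : G ⧸ N, algebraMap k L (w q.out) * (q.out • a)

variable {E N}

theorem tw_smul (hN : ∀ g : G, g ∈ N → ∀ x ∈ E, g • x = x) {w : G → k}
    (hw : ∀ g, ∀ n ∈ N, w (g * n) = w g) {a : L} (ha : a ∈ E) (g : G) :
    g • tw N w a = tw N (fun h => w (g⁻¹ * h)) a := by
  classical
  let _ : Fintype (G ⧸ N) := Fintype.ofFinite _
  have key : ∀ (x y : G), (x : G ⧸ N) = y → ∃ n ∈ N, y = x * n := by
    intro x y hxy
    exact ⟨x⁻¹ * y, QuotientGroup.eq.mp hxy, by group⟩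
  rw [tw, tw, Finset.smul_sum]
  refine Fintype.sum_equiv (Equiv.mulLeft (g : G ⧸ N)) _ _ fun q => ?_
  rw [smul_mul', smul_smul]
  have hq : ((g * q.out : G) : G ⧸ N) = ((g : G ⧸ N) * q).out := by
    rw [QuotientGroup.mk_mul, QuotientGroup.out_eq', QuotientGroup.out_eq']
  obtain ⟨n, hn, h1⟩ := key _ _ hq
  show g • algebraMap k L (w q.out) * _ = algebraMap k L (w (g⁻¹ * ((g : G ⧸ N) * q).out)) *
    (((g : G ⧸ N) * q).out • a)
  rw [h1, smul_algebraMap, mul_assoc g, inv_mul_cancel_left, hw _ n hn, ← mul_assoc g,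
    mul_smul (g * q.out) n, hN n hn a ha]

theorem exists_tw (hN : ∀ g : G, (∀ x ∈ E, g • x = x) → g ∈ N) {w : G → k}
    (hw : ∀ g, ∀ n ∈ N, w (g * n) = w g) (hw0 : ∃ g, w g ≠ 0) : ∃ a ∈ E, tw N w a ≠ 0 := by
  classical
  let _ : Fintype (G ⧸ N) := Fintype.ofFinite _
  let φ : G ⧸ N → (E →* L) := fun q =>
    { toFun := fun a => q.out • (a : L)
      map_one' := smul_one _
      map_mul' := fun a b => smul_mul' _ _ _ }
  have hinj : Function.Injective φ := by
    intro q q' h
    rw [← QuotientGroup.out_eq' q, ← QuotientGroup.out_eq' q', QuotientGroup.eq]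
    refine hN _ fun x hx => ?_
    have h1 : q.out • x = q'.out • x := DFunLike.congr_fun h (⟨x, hx⟩ : E)
    rw [mul_smul, ← h1, smul_smul, inv_mul_cancel, one_smul]
  have hli := (linearIndependent_monoidHom E L).comp φ hinj
  by_contra hcon
  push Not at hcon
  rw [Fintype.linearIndependent_iff] at hli
  obtain ⟨g, hg⟩ := hw0
  have h1 := hli (fun q => algebraMap k L (w q.out)) (by
    funext a
    rw [Finset.sum_apply]
    exact hcon a a.2) (g : G ⧸ N)
  have h2 : w (g : G ⧸ N).out = 0 := by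
    have h1' : algebraMap k L (w (g : G ⧸ N).out) = 0 := h1
    exact (map_eq_zero _).mp h1'
  have h3 : ((g : G) : G ⧸ N) = (((g : G ⧸ N).out : G) : G ⧸ N) := (QuotientGroup.out_eq' _).symm
  have h4 := hw g _ (QuotientGroup.eq.mp h3)
  rw [mul_inv_cancel_left] at h4
  rw [h4] at h2
  exact hg h2

/-- Kummer elements. -/
theorem exists_kum (hN : ∀ g : G, g ∈ N ↔ ∀ x ∈ E, g • x = x)
    (hE : ∀ (g : G), ∀ x ∈ E, g • x ∈ E) (χ : G →* kˣ) (hχ : ∀ n ∈ N, χ n = 1) :
    ∃ y ∈ E, y ≠ 0 ∧ ∀ g : G, g • y = algebraMap k L (χ g : k) * y := by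
  classical
  have hw : ∀ g, ∀ n ∈ N, (((χ (g * n))⁻¹ : kˣ) : k) = ((χ g)⁻¹ : kˣ) := by
    intro g n hn
    rw [map_mul, hχ n hn, mul_one]
  obtain ⟨a, ha, h0⟩ := exists_tw (E := E) (N := N) (fun g hg => (hN g).mpr hg)
    (w := fun g => (((χ g)⁻¹ : kˣ) : k)) hw ⟨1, Units.ne_zero _⟩
  refine ⟨_, ?_, h0, fun g => ?_⟩
  · rw [tw]
    exact sum_mem fun q _ => mul_mem (E.algebraMap_mem _) (hE _ _ ha)
  · rw [tw_smul (fun g hg => (hN g).mp hg) hw ha]
    rw [tw, tw, Finset.mul_sum]
    refine Finset.sum_congr rfl fun q _ => ?_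
    rw [map_mul, map_inv, mul_inv, inv_inv, Units.val_mul, map_mul]
    ring

/-- Artin-Schreier elements. -/
theorem exists_as {p : ℕ} [Fact p.Prime] [Algebra (ZMod p) k] [Algebra (ZMod p) L]
    [IsScalarTower (ZMod p) k L] (hN : ∀ g : G, g ∈ N ↔ ∀ x ∈ E, g • x = x)
    (hE : ∀ (g : G), ∀ x ∈ E, g • x ∈ E) {c : G → ZMod p} (hc : IsAdd c)
    (hcN : ∀ n ∈ N, c n = 0) :
    ∃ x ∈ E, ∀ g : G, g • x = x + algebraMap (ZMod p) L (c g) := by
  classical
  obtain ⟨a, ha, h0⟩ := exists_tw (E := E) (N := N) (fun g hg => (hN g).mpr hg)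
    (w := fun _ => (1 : k)) (fun _ _ _ => rfl) ⟨1, one_ne_zero⟩
  have hw : ∀ g, ∀ n ∈ N, algebraMap (ZMod p) k (c (g * n)) = algebraMap (ZMod p) k (c g) := by
    intro g n hn
    rw [hc, hcN n hn, add_zero]
  obtain ⟨t, ht⟩ : ∃ t, t = tw N (fun _ : G => (1 : k)) a := ⟨_, rfl⟩
  obtain ⟨s, hs⟩ : ∃ s, s = tw N (fun g : G => algebraMap (ZMod p) k (c g)) a := ⟨_, rfl⟩
  rw [← ht] at h0
  have hmem : ∀ w : G → k, tw N w a ∈ E := by
    intro w
    rw [tw]
    exact sum_mem fun q _ => mul_mem (E.algebraMap_mem _) (hE _ _ ha)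
  have htg : ∀ g : G, g • t = t := by
    intro g
    rw [ht, tw_smul (fun g hg => (hN g).mp hg) (fun _ _ _ => rfl) ha]
  have hsg : ∀ g : G, g • s = s - algebraMap (ZMod p) L (c g) * t := by
    intro g
    rw [hs, tw_smul (fun g hg => (hN g).mp hg) hw ha, ht, tw, tw, tw, Finset.mul_sum,
      ← Finset.sum_sub_distrib]
    refine Finset.sum_congr rfl fun q _ => ?_
    have h1 : c (g⁻¹ * q.out) = c q.out - c g := by
      have h2 := hc g (g⁻¹ * q.out)
      rw [mul_inv_cancel_left] at h2
      rw [h2]; ring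
    rw [h1, map_sub, map_sub, map_one, ← IsScalarTower.algebraMap_apply,
      ← IsScalarTower.algebraMap_apply]
    ring
  refine ⟨-(s / t), neg_mem (div_mem (by rw [hs]; exact hmem _) (by rw [ht]; exact hmem _)),
    fun g => ?_⟩
  rw [smul_neg, smul_div₀', hsg, htg]
  field_simp
  ring

end Stable

end Pool.Agent.H96.Y
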