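import Pool.Agent.H96.Y.Q2

/-!
# Quotients by finite commutative groups: generators of the fixed field
-/

set_option autoImplicit false
set_option linter.unusedSectionVars false

namespace Pool.Agent.H96.Y

open Polynomial

section Lem

variable {p : ℕ} [Fact p.Prime] {L : Type} [Field L] [Algebra (ZMod p) L]

theorem charL : CharP L p := charP_of_injective_algebraMap (algebraMap (ZMod p) L).injective p

theorem algebraMap_pow_self (c : ZMod p) :
    algebraMap (ZMod p) L c ^ p = algebraMap (ZMod p) L c := by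
  rw [← map_pow, ZMod.pow_card]

theorem monic_as (a : L) : (X ^ p - X - C a : L[X]).Monic := by
  have hp := (Fact.out : p.Prime).one_lt
  have h1 : (X ^ p - X - C a : L[X]) = X ^ p + (-X - C a) := by ring
  rw [h1]
  refine monic_X_pow_add ?_
  refine lt_of_le_of_lt (degree_sub_le _ _) (max_lt ?_ ?_)
  · rw [degree_neg, degree_X]; exact_mod_cast hp
  · exact lt_of_le_of_lt degree_C_le (by exact_mod_cast (by omega : 0 < p))

theorem natDegree_as (a : L) : (X ^ p - X - C a : L[X]).natDegree = p := by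
  have hp := (Fact.out : p.Prime).one_lt
  have h1 : (X ^ p - X - C a : L[X]) = X ^ p + (-X - C a) := by ring
  rw [h1]
  refine natDegree_eq_of_degree_eq_some ?_
  rw [degree_add_eq_left_of_degree_lt, degree_X_pow]
  rw [degree_X_pow]
  refine lt_of_le_of_lt (degree_sub_le _ _) (max_lt ?_ ?_)
  · rw [degree_neg, degree_X]; exact_mod_cast hp
  · exact lt_of_le_of_lt degree_C_le (by exact_mod_cast (by omega : 0 < p))

/-- The roots of an Artin-Schreier polynomial. -/
theorem roots_as {a x : L} (hx : x ^ p - x = a) :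
    (X ^ p - X - C a : L[X]).roots.card = p ∧ ∀ y, y ^ p - y = a →
      ∃ c : ZMod p, y = x + algebraMap (ZMod p) L c := by
  classical
  have hcL : CharP L p := charL
  have hne : (X ^ p - X - C a : L[X]) ≠ 0 := (monic_as a).ne_zero
  have hinj : Function.Injective fun c : ZMod p => x + algebraMap (ZMod p) L c := fun c c' h =>
    (algebraMap (ZMod p) L).injective (add_left_cancel h)
  have hroot : ∀ y, y ^ p - y = a → y ∈ (X ^ p - X - C a : L[X]).roots := by
    intro y hy
    rw [mem_roots hne, IsRoot.def]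
    simp only [eval_sub, eval_pow, eval_X, eval_C]
    rw [hy, sub_self]
  have hsub : (Finset.univ.image fun c : ZMod p => x + algebraMap (ZMod p) L c) ⊆
      (X ^ p - X - C a : L[X]).roots.toFinset := by
    intro y hy
    obtain ⟨c, -, rfl⟩ := Finset.mem_image.mp hy
    rw [Multiset.mem_toFinset]
    refine hroot _ ?_
    rw [add_pow_char, algebraMap_pow_self, ← hx]
    ring
  have hcard : (Finset.univ.image fun c : ZMod p => x + algebraMap (ZMod p) L c).card = p := by
    rw [Finset.card_image_of_injective _ hinj, Finset.card_univ, ZMod.card]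
  have h1 := Finset.card_le_card hsub
  rw [hcard] at h1
  have h2 := (X ^ p - X - C a : L[X]).roots.toFinset_card_le
  have h3 := card_roots' (X ^ p - X - C a : L[X])
  rw [natDegree_as] at h3
  refine ⟨by omega, fun y hy => ?_⟩
  have h4 : (Finset.univ.image fun c : ZMod p => x + algebraMap (ZMod p) L c) =
      (X ^ p - X - C a : L[X]).roots.toFinset :=
    Finset.eq_of_subset_of_card_le hsub (by rw [hcard]; omega)
  have h5 : y ∈ (X ^ p - X - C a : L[X]).roots.toFinset := Multiset.mem_toFinset.mpr (hroot y hy)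
  rw [← h4] at h5
  obtain ⟨c, -, hc⟩ := Finset.mem_image.mp h5
  exact ⟨c, hc.symm⟩

/-- The Artin-Schreier polynomial over a subfield. -/
theorem poly_as (M : Subfield L) {x : L} (hx : x ^ p - x ∈ M) :
    ∃ P : M[X], P.Separable ∧ (P.map (algebraMap M L)).Splits ∧ aeval x P = 0 := by
  have hcL : CharP L p := charL
  have hmap : (X ^ p - X - C (⟨x ^ p - x, hx⟩ : M) : M[X]).map (algebraMap M L) =
      X ^ p - X - C (x ^ p - x) := by
    rw [Polynomial.map_sub, Polynomial.map_sub, Polynomial.map_pow, map_X, map_C]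
    rfl
  refine ⟨X ^ p - X - C ⟨x ^ p - x, hx⟩, ?_, ?_, ?_⟩
  · rw [← separable_map (algebraMap M L), hmap]
    rw [separable_def]
    have h1 : derivative (X ^ p - X - C (x ^ p - x) : L[X]) = -1 := by
      rw [derivative_sub, derivative_sub, derivative_X_pow, derivative_X, derivative_C,
        CharP.cast_eq_zero, map_zero, zero_mul, zero_sub, sub_zero]
    rw [h1]
    exact isCoprime_one_right.neg_right
  · rw [hmap, splits_iff_card_roots, natDegree_as]
    exact (roots_as rfl).1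
  · rw [← eval_map_algebraMap, hmap]
    simp only [eval_sub, eval_pow, eval_X, eval_C, sub_self]

/-- The Kummer polynomial over a subfield. -/
theorem poly_kum (M : Subfield L) {e : ℕ} (hpe : ¬ p ∣ e) {ζ : L} (hζ : IsPrimitiveRoot ζ e) {y : L}
    (hy0 : y ≠ 0) (hy : y ^ e ∈ M) :
    ∃ P : M[X], P.Separable ∧ (P.map (algebraMap M L)).Splits ∧ aeval y P = 0 := by
  have hcL : CharP L p := charL
  have he : 0 < e := Nat.pos_of_ne_zero (by rintro rfl; exact hpe (dvd_zero p))
  have hmap : (X ^ e - C (⟨y ^ e, hy⟩ : M) : M[X]).map (algebraMap M L) = X ^ e - C (y ^ e) := by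
    rw [Polynomial.map_sub, Polynomial.map_pow, map_X, map_C]
    rfl
  refine ⟨X ^ e - C ⟨y ^ e, hy⟩, ?_, ?_, ?_⟩
  · rw [← separable_map (algebraMap M L), hmap]
    exact separable_X_pow_sub_C' p e _ hpe (pow_ne_zero _ hy0)
  · rw [hmap]
    exact X_pow_sub_C_splits_of_isPrimitiveRoot hζ rfl
  · rw [← eval_map_algebraMap, hmap]
    simp only [eval_sub, eval_pow, eval_X, eval_C, sub_self]

end Lem

/-- The data of the quotient. -/
structure QD (p : ℕ) [Fact p.Prime] {k L : Type} [Field k] [Field L] [Algebra k L]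
    [Algebra (ZMod p) k] [Algebra (ZMod p) L] [IsScalarTower (ZMod p) k L] (G : Type) [CommGroup G]
    [Finite G] [MulSemiringAction G L] [SMulCommClass G k L] {n : ℕ}
    (E : Fin n → IntermediateField k L) (e : ℕ) (S : Type) [Fintype S] [DecidableEq S] where
  hE : ∀ i (g : G), ∀ x ∈ E i, g • x ∈ E i
  hsup : ⨆ i, E i = ⊤
  N : Fin n → Subgroup G
  hN : ∀ i (g : G), g ∈ N i ↔ ∀ x ∈ E i, g • x = x
  hG : ∀ i (g : G), g ^ (p * e) ∈ N i
  hpe : ¬ p ∣ e
  ζ : k
  hζ : IsPrimitiveRoot ζ e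
  c : Fin n → G → ZMod p
  hc : ∀ i, IsAdd (c i)
  hcN : ∀ i g, c i g = 0 → g ^ e ∈ N i
  x : Fin n → L
  xE : ∀ i, x i ∈ E i
  hx : ∀ i (g : G), g • x i = x i + algebraMap (ZMod p) L (c i g)
  idx : S → Fin n
  χ : S → G →* kˣ
  χe : ∀ s g, χ s g ^ e = 1
  χall : ∀ i (χ' : G →* kˣ), (∀ g ∈ N i, χ' g = 1) → ∃ s, idx s = i ∧ χ s = χ'
  y : S → L
  y0 : ∀ s, y s ≠ 0
  yE : ∀ s, y s ∈ E (idx s)
  hy : ∀ s (g : G), g • y s = algebraMap k L (χ s g : k) * y s

namespace QD

variable {p : ℕ} [Fact p.Prime] {k L : Type} [Field k] [Field L] [Algebra k L]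
    [Algebra (ZMod p) k] [Algebra (ZMod p) L] [IsScalarTower (ZMod p) k L] {G : Type} [CommGroup G]
    [Finite G] [MulSemiringAction G L] [SMulCommClass G k L] {n : ℕ}
    {E : Fin n → IntermediateField k L} {e : ℕ} {S : Type} [Fintype S] [DecidableEq S]
    (Q : QD p G E e S)

include Q in
theorem smul_const (g : G) (a : ZMod p) : g • algebraMap (ZMod p) L a = algebraMap (ZMod p) L a := by
  rw [IsScalarTower.algebraMap_apply (ZMod p) k L, smul_algebraMap]

/-- The combinations. -/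
noncomputable def z (a : Fin n → ZMod p) : L := ∑ i, algebraMap (ZMod p) L (a i) * Q.x i

/-- The monomials. -/
noncomputable def w (β : S → Fin e) : L := ∏ s, Q.y s ^ (β s : ℕ)

theorem smul_z (a : Fin n → ZMod p) (g : G) :
    g • Q.z a = Q.z a + algebraMap (ZMod p) L (∑ i, a i * Q.c i g) := by
  rw [z, Finset.smul_sum, map_sum, ← Finset.sum_add_distrib]
  refine Finset.sum_congr rfl fun i _ => ?_
  rw [smul_mul', Q.smul_const, Q.hx, map_mul]
  ring

theorem smul_w (β : S → Fin e) (g : G) :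
    g • Q.w β = algebraMap k L ((∏ s, Q.χ s g ^ (β s : ℕ) : kˣ) : k) * Q.w β := by
  rw [w, Finset.smul_prod', Units.coe_prod, map_prod, ← Finset.prod_mul_distrib]
  refine Finset.prod_congr rfl fun s _ => ?_
  rw [smul_pow', Q.hy, mul_pow, Units.val_pow_eq_pow_val, map_pow]

theorem w_ne (β : S → Fin e) : Q.w β ≠ 0 :=
  Finset.prod_ne_zero_iff.mpr fun s _ => pow_ne_zero _ (Q.y0 s)

/-- The index sets. -/
abbrev Az : Type := {a : Fin n → ZMod p // ∀ g, ∑ i, a i * Q.c i g = 0}

abbrev Aw : Type := {β : S → Fin e // ∀ g, ∏ s, Q.χ s g ^ (β s : ℕ) = 1}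

theorem z_fix (a : Q.Az) (g : G) : g • Q.z a.1 = Q.z a.1 := by
  rw [Q.smul_z, a.2, map_zero, add_zero]

theorem w_fix (β : Q.Aw) (g : G) : g • Q.w β.1 = Q.w β.1 := by
  rw [Q.smul_w, β.2, Units.val_one, map_one, one_mul]

theorem f_fix (i : Fin n) (g : G) : g • (Q.x i ^ p - Q.x i) = Q.x i ^ p - Q.x i := by
  have hcL : CharP L p := charL
  rw [smul_sub, smul_pow', Q.hx, add_pow_char, algebraMap_pow_self]
  ring

theorem h_fix (s : S) (g : G) : g • (Q.y s ^ e) = Q.y s ^ e := by
  rw [smul_pow', Q.hy, mul_pow, ← map_pow, ← Units.val_pow_eq_pow_val, Q.χe, Units.val_one,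
    map_one, one_mul]

/-- **Generators of the fixed field.** -/
theorem mem_of_fixed (M : Subfield L) (hk : ∀ a : k, algebraMap k L a ∈ M)
    (hMfix : ∀ x ∈ M, ∀ g : G, g • x = x)
    (hF : ∀ i, ∀ x ∈ E i, (∀ g : G, g • x = x) → x ∈ M) (hz : ∀ a : Q.Az, Q.z a.1 ∈ M)
    (hw : ∀ β : Q.Aw, Q.w β.1 ∈ M) {u : L} (hu : ∀ g : G, g • u = u) : u ∈ M := by
  classical
  have hcL : CharP L p := charL
  have hζL : IsPrimitiveRoot (algebraMap k L Q.ζ) e :=
    Q.hζ.map_of_injective (algebraMap k L).injective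
  have hfM : ∀ i, Q.x i ^ p - Q.x i ∈ M := fun i =>
    hF i _ (sub_mem (pow_mem (Q.xE i) p) (Q.xE i)) (Q.f_fix i)
  have hhM : ∀ s, Q.y s ^ e ∈ M := fun s => hF _ _ (pow_mem (Q.yE s) e) (Q.h_fix s)
  refine mem_of_aut (G := G) M (Set.range Q.x ∪ Set.range Q.y) hMfix ?_ ?_ ?_ hu
  · intro T hMT hST
    have hxT : ∀ i, Q.x i ∈ T := fun i => hST (Or.inl ⟨i, rfl⟩)
    have hyT : ∀ s, Q.y s ∈ T := fun s => hST (Or.inr ⟨s, rfl⟩)
    have hET : ∀ i, ∀ x ∈ E i, x ∈ T := by
      intro i
      refine le_of_fixed (E i) (Q.hE i) T (fun x hx hg => hMT (hF i x hx hg)) fun g hg => ?_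
      rw [← Q.hN]
      refine mem_of_coprime Q.hpe (Q.N i) ?_ ?_
      · refine exists_chi Q.hpe Q.hζ (Q.N i) (Q.hG i) fun χ hχ => ?_
        obtain ⟨s, rfl, rfl⟩ := Q.χall i χ hχ
        have h1 := hg _ (Q.yE s) (hyT s)
        rw [Q.hy] at h1
        have h2 : (algebraMap k L (Q.χ s g : k) - 1) * Q.y s = 0 := by
          rw [sub_mul, h1, one_mul, sub_self]
        have h3 := (mul_eq_zero.mp h2).resolve_right (Q.y0 s)
        have h4 : algebraMap k L (Q.χ s g : k) = algebraMap k L 1 := by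
          rw [map_one]; exact sub_eq_zero.mp h3
        exact Units.ext ((algebraMap k L).injective h4)
      · refine Q.hcN i g ?_
        have h1 := hg _ (Q.xE i) (hxT i)
        rw [Q.hx, add_eq_left] at h1
        exact (map_eq_zero _).mp h1
    rw [eq_top_iff]
    intro x _
    have h1 : (⊤ : IntermediateField k L) ≤ T.toIntermediateField fun a => hMT (hk a) := by
      rw [← Q.hsup]
      exact iSup_le fun i x hx => hET i x hx
    exact h1 (show x ∈ (⊤ : IntermediateField k L) from trivial)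
  · rintro _ (⟨i, rfl⟩ | ⟨s, rfl⟩)
    · exact poly_as M (hfM i)
    · exact poly_kum (p := p) M Q.hpe hζL (Q.y0 s) (hhM s)
  · intro τ hτ
    have hγ : ∀ i, ∃ c : ZMod p, τ (Q.x i) = Q.x i + algebraMap (ZMod p) L c := by
      intro i
      refine (roots_as rfl).2 _ ?_
      rw [← map_pow, ← map_sub]
      exact hτ _ (hfM i)
    choose γ hγ using hγ
    have hη : ∀ s, ∃ u : kˣ, u ^ e = 1 ∧ τ (Q.y s) = algebraMap k L (u : k) * Q.y s := by
      intro s
      have h1 : (τ (Q.y s) / Q.y s) ^ e = 1 := by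
        rw [div_pow, ← map_pow, hτ _ (hhM s), div_self (pow_ne_zero _ (Q.y0 s))]
      have he : e ≠ 0 := by
        rintro rfl
        exact Q.hpe (dvd_zero p)
      have : NeZero e := ⟨he⟩
      obtain ⟨j, -, hj⟩ := hζL.eq_pow_of_pow_eq_one h1
      have hζ0 : Q.ζ ≠ 0 := Q.hζ.ne_zero he
      refine ⟨Units.mk0 (Q.ζ ^ j) (pow_ne_zero _ hζ0), Units.ext ?_, ?_⟩
      · rw [Units.val_pow_eq_pow_val, Units.val_mk0, ← pow_mul, mul_comm, pow_mul,
          Q.hζ.pow_eq_one, one_pow, Units.val_one]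
      · rw [Units.val_mk0, map_pow, hj, div_mul_cancel₀ _ (Q.y0 s)]
    choose η hηe hη using hη
    obtain ⟨g, hg1, hg2⟩ := exists_both Q.hpe Q.hζ Q.χe η hηe (fun β hβ => by
      have h1 := hτ _ (hw ⟨β, hβ⟩)
      have h2 : τ (Q.w β) = algebraMap k L ((∏ s, η s ^ (β s : ℕ) : kˣ) : k) * Q.w β := by
        rw [w, map_prod, Units.coe_prod, map_prod, ← Finset.prod_mul_distrib]
        refine Finset.prod_congr rfl fun s _ => ?_
        rw [map_pow, hη, mul_pow, Units.val_pow_eq_pow_val, map_pow]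
      rw [h2] at h1
      have h3 : (algebraMap k L ((∏ s, η s ^ (β s : ℕ) : kˣ) : k) - 1) * Q.w β = 0 := by
        rw [sub_mul, h1, one_mul, sub_self]
      have h4 := (mul_eq_zero.mp h3).resolve_right (Q.w_ne β)
      have h5 : algebraMap k L ((∏ s, η s ^ (β s : ℕ) : kˣ) : k) = algebraMap k L 1 := by
        rw [map_one]; exact sub_eq_zero.mp h4
      exact Units.ext ((algebraMap k L).injective h5)) Q.hc γ (fun a ha => by
      have h1 := hτ _ (hz ⟨a, ha⟩)
      have hcst : ∀ b : ZMod p, τ (algebraMap (ZMod p) L b) = algebraMap (ZMod p) L b := by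
        intro b
        rw [IsScalarTower.algebraMap_apply (ZMod p) k L]
        exact hτ _ (hk _)
      have h2 : τ (Q.z a) = Q.z a + algebraMap (ZMod p) L (∑ i, a i * γ i) := by
        rw [z, map_sum, map_sum, ← Finset.sum_add_distrib]
        refine Finset.sum_congr rfl fun i _ => ?_
        rw [map_mul, hcst, hγ, map_mul]
        ring
      rw [h2, add_eq_left] at h1
      exact (map_eq_zero _).mp h1)
    refine ⟨g, ?_⟩
    rintro _ (⟨i, rfl⟩ | ⟨s, rfl⟩)
    · rw [hγ, Q.hx, hg1]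
    · rw [hη, Q.hy, hg2]

end QD

end Pool.Agent.H96.Y
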