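import Pool.Agent.H96.Y.Q3
import Pool.Agent.H96.Y.Fin

/-!
# Quotients of products of curves and surfaces by finite commutative groups
-/

set_option autoImplicit false
set_option linter.unusedSectionVars false

namespace Pool.Agent.H96.Y

open Pool.Agent.H19.OG Pool.Agent.H96.X

section Exists

variable {p : ℕ} [Fact p.Prime] {k L : Type} [Field k] [Finite k] [Field L] [Algebra k L]
    [Algebra (ZMod p) k] [Algebra (ZMod p) L] [IsScalarTower (ZMod p) k L] {G : Type} [CommGroup G]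
    [Finite G] [MulSemiringAction G L] [SMulCommClass G k L] {n : ℕ}
    {E : Fin n → IntermediateField k L}

theorem dvd_aux {d a e : ℕ} (h : d ∣ p ^ a * e) (h2 : ¬ p ^ 2 ∣ d) : d ∣ p * e := by
  obtain ⟨x, y, hx, hy, rfl⟩ := Nat.dvd_mul.mp h
  obtain ⟨j, -, rfl⟩ := (Nat.dvd_prime_pow Fact.out).mp hx
  have hj : j ≤ 1 := by
    by_contra hcon
    exact h2 (dvd_mul_of_dvd_left (pow_dvd_pow p (by omega)) _)
  exact mul_dvd_mul (by
    have := pow_dvd_pow p hj
    rwa [pow_one] at this) hy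

theorem exists_qd (hroots : ∀ e : ℕ, ¬ p ∣ e → (∃ g : G, orderOf g = e) →
      ∃ ζ : k, IsPrimitiveRoot ζ e)
    (hsup : ⨆ i, E i = ⊤) (hE : ∀ i (g : G), ∀ x ∈ E i, g • x ∈ E i)
    (hindex : ∀ i, ¬ p ^ 2 ∣ (fixingSubgroup G (E i : Set L)).index) :
    ∃ (e : ℕ) (S : Type) (_ : Fintype S) (_ : DecidableEq S), Nonempty (QD p G E e S) := by
  classical
  have hp : p.Prime := Fact.out
  have hcK : CharP k p := charP_of_injective_algebraMap (algebraMap (ZMod p) k).injective p
  obtain ⟨g₀, hg₀⟩ := Monoid.exists_orderOf_eq_exponent (G := G) Monoid.ExponentExists.of_finite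
  have hexp0 : Monoid.exponent G ≠ 0 := Monoid.exponent_ne_zero_of_finite
  obtain ⟨a, e, hpe, hae⟩ := Nat.exists_eq_pow_mul_and_not_dvd hexp0 p hp.ne_one
  have hgG : ∀ g : G, g ^ (p ^ a * e) = 1 := by
    intro g
    rw [← hae]
    exact Monoid.pow_exponent_eq_one g
  obtain ⟨ζ, hζ⟩ := hroots e hpe ⟨g₀ ^ p ^ a, by
    rw [orderOf_pow, hg₀, hae, Nat.gcd_eq_right (Dvd.intro _ rfl),
      Nat.mul_div_cancel_left _ (pow_pos hp.pos a)]⟩
  let N : Fin n → Subgroup G := fun i => fixingSubgroup G (E i : Set L)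
  have hN : ∀ i (g : G), g ∈ N i ↔ ∀ x ∈ E i, g • x = x := fun i g => mem_fixingSubgroup_iff G
  have hG : ∀ i (g : G), g ^ (p * e) ∈ N i := by
    intro i g
    rw [← QuotientGroup.eq_one_iff, QuotientGroup.mk_pow]
    have h1 : orderOf (QuotientGroup.mk g : G ⧸ N i) ∣ p ^ a * e := by
      refine orderOf_dvd_of_pow_eq_one ?_
      rw [← QuotientGroup.mk_pow, hgG, QuotientGroup.mk_one]
    have h2 : ¬ p ^ 2 ∣ orderOf (QuotientGroup.mk g : G ⧸ N i) := fun h =>
      hindex i (h.trans (orderOf_dvd_natCard _))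
    exact orderOf_dvd_iff_pow_eq_one.mp (dvd_aux h1 h2)
  choose c hc hcN0 hcN using fun i => exists_c hpe (N i) (hindex i) (hG i)
  choose x hxE hx using fun i => exists_as (E := E i) (hN i) (hE i) (hc i) (hcN0 i)
  have hfin : Finite (G →* kˣ) := Finite.of_injective (fun f : G →* kˣ => (f : G → kˣ))
    DFunLike.coe_injective
  let S : Type := Σ i : Fin n, {χ : G →* kˣ // ∀ g ∈ N i, χ g = 1}
  have hSf : Finite S := inferInstanceAs (Finite (Σ i : Fin n, {χ : G →* kˣ // ∀ g ∈ N i, χ g = 1}))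
  let _ : Fintype S := Fintype.ofFinite S
  choose y hyE hy0 hy using fun s : S => exists_kum (E := E s.1) (hN s.1) (hE s.1) s.2.1 s.2.2
  refine ⟨e, S, inferInstance, inferInstance, ⟨{
    hE := hE
    hsup := hsup
    N := N
    hN := hN
    hG := hG
    hpe := hpe
    ζ := ζ
    hζ := hζ
    c := c
    hc := hc
    hcN := hcN
    x := x
    xE := hxE
    hx := hx
    idx := Sigma.fst
    χ := fun s => s.2.1
    χe := fun s g => ?_
    χall := fun i χ hχ => ⟨⟨i, χ, hχ⟩, rfl, rfl⟩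
    y := y
    y0 := hy0
    yE := hyE
    hy := hy }⟩⟩
  -- a `p`-power root of one
  have h1 : ((s.2.1 g ^ e : kˣ) : k) ^ p ^ a = 1 := by
    rw [← Units.val_pow_eq_pow_val, ← pow_mul, mul_comm e, ← map_pow, hgG, map_one, Units.val_one]
  have h2 : (((s.2.1 g ^ e : kˣ) : k) - 1) ^ p ^ a = 0 := by
    rw [sub_pow_char_pow, h1, one_pow, sub_self]
  refine Units.ext ?_
  rw [Units.val_one]
  exact sub_eq_zero.mp (pow_eq_zero_iff (pow_ne_zero _ hp.ne_zero) |>.mp h2)

end Exists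

section Main

open Algebra in
/-- The transcendence degree of a fixed field. -/
theorem trdeg_fix {k L G : Type} [Field k] [Field L] [Algebra k L] [Group G] [Finite G]
    [MulSemiringAction G L] [SMulCommClass G k L] :
    Algebra.trdeg k (FixedPoints.intermediateField G : IntermediateField k L) =
      Algebra.trdeg k L := by
  have h1 : Algebra.IsAlgebraic (FixedPoints.intermediateField G : IntermediateField k L) L :=
    ⟨fun x => (FixedPoints.isIntegral G L x).isAlgebraic⟩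
  rw [← trdeg_add_eq k (FixedPoints.intermediateField G : IntermediateField k L) (A := L),
    trdeg_eq_zero (R := (FixedPoints.intermediateField G : IntermediateField k L)) (A := L),
    add_zero]

theorem trdeg_fix' {k L G : Type} [Field k] [Field L] [Algebra k L] [CommGroup G] [Finite G]
    [MulSemiringAction G L] [SMulCommClass G k L] (E : IntermediateField k L)
    (hE : ∀ (g : G), ∀ x ∈ E, g • x ∈ E) :
    Algebra.trdeg k (E ⊓ FixedPoints.intermediateField G : IntermediateField k L) =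
      Algebra.trdeg k E := by
  let _ := stAct E hE
  have i1 : SMulCommClass G k E := ⟨fun g a x => Subtype.ext (smul_comm g a (x : L))⟩
  rw [← trdeg_fix (k := k) (L := E) (G := G)]
  let f : (E ⊓ FixedPoints.intermediateField G : IntermediateField k L) ≃ₐ[k]
      (FixedPoints.intermediateField G : IntermediateField k E) :=
    { toFun := fun x => ⟨⟨x, x.2.1⟩, fun g => Subtype.ext (x.2.2 g)⟩
      invFun := fun x => ⟨x.1.1, x.1.2, fun g => congrArg Subtype.val (x.2 g)⟩
      left_inv := fun x => rfl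
      right_inv := fun x => rfl
      map_mul' := fun x y => rfl
      map_add' := fun x y => rfl
      commutes' := fun a => rfl }
  exact f.trdeg_eq

/-- **Models of quotients.** -/
theorem hasCharts_quot (p : ℕ) [Fact p.Prime] (k : Type) [Field k] [Finite k] [CharP k p]
    (L : Type) [Field L] [Algebra k L] (G : Type) [CommGroup G] [Finite G]
    [MulSemiringAction G L] [SMulCommClass G k L] (n : ℕ) (E : Fin n → IntermediateField k L)
    (hroots : ∀ e : ℕ, ¬ p ∣ e → (∃ g : G, orderOf g = e) → ∃ ζ : k, IsPrimitiveRoot ζ e)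
    (hsup : ⨆ i, E i = ⊤) (htr : Algebra.trdeg k L = ∑ i, Algebra.trdeg k (E i))
    (hE : ∀ i (g : G), ∀ x ∈ E i, g • x ∈ E i)
    (hindex : ∀ i, ¬ p ^ 2 ∣ (fixingSubgroup G (E i : Set L)).index)
    (hF : ∀ i, Fac p (E i ⊓ FixedPoints.intermediateField G : IntermediateField k L)) :
    HasCharts (FixedPoints.intermediateField G : IntermediateField k L) := by
  classical
  let _ : Algebra (ZMod p) k := ZMod.algebra k p
  have hcL : CharP L p := charP_of_injective_algebraMap (algebraMap k L).injective p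
  let _ : Algebra (ZMod p) L := ZMod.algebra L p
  have hst : IsScalarTower (ZMod p) k L := IsScalarTower.of_algebraMap_eq' (Subsingleton.elim _ _)
  obtain ⟨e, S, i1, i2, ⟨Q⟩⟩ := exists_qd (G := G) hroots hsup hE hindex
  have hcL' : CharP L p := hcL
  let K : IntermediateField k L := FixedPoints.intermediateField G
  let F : Fin n → IntermediateField k L := fun i => E i ⊓ K
  let i3 : ∀ i, Algebra (F i) K := fun i => (IntermediateField.inclusion
    (inf_le_right : F i ≤ K)).toRingHom.toAlgebra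
  have i4 : ∀ i, IsScalarTower k (F i) K := fun i => IsScalarTower.of_algebraMap_eq fun a => rfl
  let _ : Fintype Q.Az := Fintype.ofFinite _
  let _ : Fintype Q.Aw := Fintype.ofFinite _
  obtain ⟨φ, hφ⟩ : ∃ φ : Fin (Fintype.card Q.Az) → Q.Az, Function.Surjective φ :=
    ⟨(Fintype.equivFin Q.Az).symm, (Fintype.equivFin Q.Az).symm.surjective⟩
  obtain ⟨ψ, hψ⟩ : ∃ ψ : Fin (Fintype.card Q.Aw) → Q.Aw, Function.Surjective ψ :=
    ⟨(Fintype.equivFin Q.Aw).symm, (Fintype.equivFin Q.Aw).symm.surjective⟩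
  have hmem : ∀ i j, ∏ s : {s // Q.idx s = i}, (Q.y s.1 ^ e) ^ ((ψ j).1 s.1 : ℕ) ∈ F i :=
    fun i j => ⟨prod_mem fun s _ => by
      obtain ⟨s, rfl⟩ := s
      exact pow_mem (pow_mem (Q.yE s) e) _, fun g => by
        rw [Finset.smul_prod']
        refine Finset.prod_congr rfl fun s _ => ?_
        rw [smul_pow', Q.h_fix]⟩
  refine hasCharts_aux' p k K L n (Fintype.card Q.Az) (Fintype.card Q.Aw) true F
    (fun i => ⟨Q.x i ^ p - Q.x i, sub_mem (pow_mem (Q.xE i) p) (Q.xE i), Q.f_fix i⟩) hF ?_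
    (fun i j => ⟨∏ s : {s // Q.idx s = i}, (Q.y s.1 ^ e) ^ ((ψ j).1 s.1 : ℕ), hmem i j⟩)
    (fun j => ⟨Q.z (φ j).1, Q.z_fix (φ j)⟩) (fun j i => (φ j).1 i)
    (fun j => ⟨Q.w (ψ j).1, Q.w_fix (ψ j)⟩) (fun _ => e) (fun h => absurd h (by decide)) ?_ ?_
    (fun _ => Q.hpe) ?_ ?_
  · rw [trdeg_fix, htr]
    exact Finset.sum_congr rfl fun i _ => (trdeg_fix' (E i) (hE i)).symm
  · intro j
    refine Subtype.ext ?_
    show Q.z (φ j).1 ^ p - Q.z (φ j).1 = ((∑ i, (((φ j).1 i).val : K) *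
      algebraMap (F i) K ⟨Q.x i ^ p - Q.x i, _⟩ : K) : L)
    rw [AddSubmonoidClass.coe_finset_sum, QD.z, sum_pow_char, ← Finset.sum_sub_distrib]
    refine Finset.sum_congr rfl fun i _ => ?_
    have h1 : algebraMap (ZMod p) L ((φ j).1 i) = ((((φ j).1 i).val : ℕ) : L) := by
      rw [← map_natCast (algebraMap (ZMod p) L), ZMod.natCast_zmod_val]
    rw [mul_pow, algebraMap_pow_self, ← mul_sub, h1]
    rfl
  · intro i j h
    have h1 : ∏ s : {s // Q.idx s = i}, (Q.y s.1 ^ e) ^ ((ψ j).1 s.1 : ℕ) = 0 :=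
      congrArg Subtype.val h
    refine absurd h1 (Finset.prod_ne_zero_iff.mpr fun s _ => ?_)
    exact pow_ne_zero _ (pow_ne_zero _ (Q.y0 _))
  · intro j
    refine Subtype.ext ?_
    show Q.w (ψ j).1 ^ e = ((∏ i, algebraMap (F i) K ⟨∏ s : {s // Q.idx s = i},
      (Q.y s.1 ^ e) ^ ((ψ j).1 s.1 : ℕ), hmem i j⟩ : K) : L)
    rw [SubmonoidClass.coe_finset_prod]
    have h1 : ∀ i, ((algebraMap (F i) K ⟨∏ s : {s // Q.idx s = i},
      (Q.y s.1 ^ e) ^ ((ψ j).1 s.1 : ℕ), hmem i j⟩ : K) : L) = ∏ s : {s // Q.idx s = i},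
      (Q.y s.1 ^ e) ^ ((ψ j).1 s.1 : ℕ) := fun i => rfl
    rw [Finset.prod_congr rfl fun i _ => h1 i,
      Fintype.prod_fiberwise (fun s => Q.idx s) (fun s => (Q.y s ^ e) ^ ((ψ j).1 s : ℕ)), QD.w,
      ← Finset.prod_pow]
    refine Finset.prod_congr rfl fun s _ => ?_
    rw [← pow_mul, ← pow_mul, mul_comm]
  · intro R hinv hk hFR hz hw
    let M : Subfield L :=
      { carrier := {x | ∃ h : x ∈ K, (⟨x, h⟩ : K) ∈ R}
        mul_mem' := by
          rintro a b ⟨ha, ha'⟩ ⟨hb, hb'⟩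
          exact ⟨K.mul_mem ha hb, R.mul_mem ha' hb'⟩
        one_mem' := ⟨K.one_mem, R.one_mem⟩
        add_mem' := by
          rintro a b ⟨ha, ha'⟩ ⟨hb, hb'⟩
          exact ⟨K.add_mem ha hb, R.add_mem ha' hb'⟩
        zero_mem' := ⟨K.zero_mem, R.zero_mem⟩
        neg_mem' := by
          rintro a ⟨ha, ha'⟩
          exact ⟨K.neg_mem ha, R.neg_mem ha'⟩
        inv_mem' := by
          rintro a ⟨ha, ha'⟩
          refine ⟨K.inv_mem ha, ?_⟩
          by_cases h0 : a = 0
          · have h1 : (⟨a⁻¹, K.inv_mem ha⟩ : K) = 0 := Subtype.ext (by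
              show a⁻¹ = 0
              rw [h0, inv_zero])
            rw [h1]
            exact R.zero_mem
          · have h1 : (⟨a⁻¹, K.inv_mem ha⟩ : K) = (⟨a, ha⟩ : K)⁻¹ := rfl
            rw [h1]
            exact hinv _ ha' fun h => h0 (congrArg Subtype.val h) }
    have hM : ∀ x ∈ M, ∀ g : G, g • x = x := by
      rintro x ⟨hx, -⟩ g
      exact hx g
    rw [eq_top_iff]
    rintro ⟨u, hu⟩ -
    have h1 : u ∈ M := by
      refine Q.mem_of_fixed M (fun a => ⟨K.algebraMap_mem a, hk a⟩) hM (fun i x hx hg => ?_)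
        (fun a => ?_) (fun β => ?_) hu
      · exact ⟨hg, hFR i ⟨x, hx, hg⟩⟩
      · obtain ⟨j, rfl⟩ := hφ a
        exact ⟨Q.z_fix (φ j), hz j⟩
      · obtain ⟨j, rfl⟩ := hψ β
        exact ⟨Q.w_fix (ψ j), hw j⟩
    obtain ⟨h2, h3⟩ := h1
    exact h3

end Main

end Pool.Agent.H96.Y
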